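import Pool.Agent.H944.FS11

/-!
# Stellar moves, part 12: the real moment-angle complex is a closed manifold
-/

set_option autoImplicit false

noncomputable section

namespace Pool.Agent.H944.FS

open Set Filter Topology

/-- The real moment-angle complex of the flag complex of the graph `S`: the union of the cubes
`{x | x i ∈ [-1, 1] for i ∈ T, x i = ε i for i ∉ T}`, for the cliques `T` of `S` and all signs `ε`. -/
def MA {n : ℕ} (S : SimpleGraph (Fin n)) : Set (Fin n → ℝ) := {x | (∀ i, |x i| ≤ 1) ∧ S.IsClique {i | |x i| < 1}}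

variable {n : ℕ}

/-- the cone -/
def Cn (S : SimpleGraph (Fin n)) : Set (Fin n → ℝ) := {t | (∀ i, 0 ≤ t i) ∧ S.IsClique {i | t i ≠ 0}}

theorem MA_closed (S : SimpleGraph (Fin n)) : IsClosed (MA S) := by
  have e : MA S = (⋂ i, {x : Fin n → ℝ | |x i| ≤ 1}) ∩
      ⋂ i, ⋂ j, {x : Fin n → ℝ | i ≠ j → ¬ S.Adj i j → 1 ≤ |x i| ∨ 1 ≤ |x j|} := by
    ext x
    simp only [MA, mem_ofPred_eq, mem_inter_iff, mem_iInter]
    refine and_congr_right fun _ => ?_
    constructor
    · intro h i j hij hn
      by_contra h'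
      push Not at h'
      exact hn (h h'.1 h'.2 hij)
    · intro h i hi j hj hij
      by_contra hn
      rcases h i j hij hn with h' | h'
      · exact absurd hi (not_lt.2 h')
      · exact absurd hj (not_lt.2 h')
  rw [e]
  refine (isClosed_iInter fun i => isClosed_le (by fun_prop) continuous_const).inter
    (isClosed_iInter fun i => isClosed_iInter fun j => ?_)
  by_cases h1 : i = j
  · have : {x : Fin n → ℝ | i ≠ j → ¬ S.Adj i j → 1 ≤ |x i| ∨ 1 ≤ |x j|} = univ := by
      ext x; simp [h1]
    rw [this]; exact isClosed_univ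
  by_cases h2 : S.Adj i j
  · have : {x : Fin n → ℝ | i ≠ j → ¬ S.Adj i j → 1 ≤ |x i| ∨ 1 ≤ |x j|} = univ := by
      ext x; simp [h2]
    rw [this]; exact isClosed_univ
  · have : {x : Fin n → ℝ | i ≠ j → ¬ S.Adj i j → 1 ≤ |x i| ∨ 1 ≤ |x j|} =
        {x | 1 ≤ |x i|} ∪ {x | 1 ≤ |x j|} := by
      ext x; simp [h1, h2]
    rw [this]
    exact (isClosed_le continuous_const (by fun_prop)).union (isClosed_le continuous_const (by fun_prop))

theorem MA_compact (S : SimpleGraph (Fin n)) : IsCompact (MA S) := by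
  refine Metric.isCompact_of_isClosed_isBounded (MA_closed S) ?_
  refine (Metric.isBounded_closedBall (x := (0 : Fin n → ℝ)) (r := 1)).subset fun x hx => ?_
  rw [mem_closedBall_zero_iff, pi_norm_le_iff_of_nonneg zero_le_one]
  exact fun i => hx.1 i

theorem MA_vertex (S : SimpleGraph (Fin n)) {y : Fin n → ℝ} (hy : ∀ i, |y i| = 1) : y ∈ MA S := by
  refine ⟨fun i => (hy i).le, fun i hi => ?_⟩
  have hi' : |y i| < 1 := hi
  rw [hy i] at hi'
  exact absurd hi' (lt_irrefl _)

theorem MA_connected (S : SimpleGraph (Fin n)) : IsConnected (MA S) := by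
  have key : ∀ (s : Finset (Fin n)) (y : Fin n → ℝ), (∀ i, |y i| = 1) → (∀ i, i ∉ s → y i = 1) →
      JoinedIn (MA S) y fun _ => 1 := by
    intro s
    induction s using Finset.induction_on with
    | empty =>
      intro y hy h1
      have : y = fun _ => 1 := funext fun i => h1 i (by simp)
      rw [this]
      exact JoinedIn.refl (MA_vertex S fun i => by simp)
    | insert i s his ih =>
      intro y hy h1
      have h2 : JoinedIn (MA S) (Function.update y i (y i)) (Function.update y i 1) := by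
        have hcont : Continuous fun c : ℝ => Function.update y i c := continuous_const.update i continuous_id
        have hj : JoinedIn (Icc (-1 : ℝ) 1) (y i) 1 :=
          ((convex_Icc (-1 : ℝ) 1).isPathConnected ⟨0, by simp⟩).joinedIn (y i) (abs_le.1 (hy i).le) 1 (by simp)
        refine (hj.map hcont).mono ?_
        rintro _ ⟨c, hc, rfl⟩
        show Function.update y i c ∈ MA S
        refine ⟨fun j => ?_, fun j hj k hk hjk => ?_⟩
        · by_cases e : j = i
          · subst e; rw [Function.update_self]; exact abs_le.2 hc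
          · rw [Function.update_of_ne e]; exact (hy j).le
        · have h3 : ∀ j, |Function.update y i c j| < 1 → j = i := by
            intro j hj
            by_contra e
            rw [Function.update_of_ne e, hy j] at hj
            exact lt_irrefl _ hj
          exact absurd ((h3 j hj).trans (h3 k hk).symm) hjk
      rw [Function.update_eq_self] at h2
      refine h2.trans (ih _ (fun j => ?_) fun j hj => ?_)
      · by_cases e : j = i
        · subst e; rw [Function.update_self]; simp
        · rw [Function.update_of_ne e]; exact hy j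
      · by_cases e : j = i
        · subst e; rw [Function.update_self]
        · rw [Function.update_of_ne e]
          exact h1 j fun h => hj ((Finset.mem_insert.1 h).resolve_left e)
  have hall : ∀ x ∈ MA S, JoinedIn (MA S) (fun _ => 1) x := by
    intro x hx
    obtain ⟨y, hy⟩ : ∃ y : Fin n → ℝ, y = fun i => if |x i| < 1 then 1 else x i := ⟨_, rfl⟩
    have hy1 : ∀ i, |y i| = 1 := by
      intro i
      rw [hy]
      by_cases h : |x i| < 1
      · simp [h]
      · simp only [h, if_false]
        exact le_antisymm (hx.1 i) (not_lt.1 h)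
    have hseg : segment ℝ x y ⊆ MA S := by
      rintro _ ⟨a, b, ha, hb, hab, rfl⟩
      have h1 : ∀ i, ¬ |x i| < 1 → (a • x + b • y) i = x i := by
        intro i hi
        have : y i = x i := by rw [hy]; simp [hi]
        rw [Pi.add_apply, Pi.smul_apply, Pi.smul_apply, this, smul_eq_mul, smul_eq_mul, ← add_mul, hab, one_mul]
      refine ⟨fun i => ?_, fun i hi j hj hij => hx.2 ?_ ?_ hij⟩
      · rw [Pi.add_apply, Pi.smul_apply, Pi.smul_apply, smul_eq_mul, smul_eq_mul]
        refine (abs_add_le _ _).trans ?_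
        rw [abs_mul, abs_mul, abs_of_nonneg ha, abs_of_nonneg hb, hy1 i]
        have := mul_le_mul_of_nonneg_left (hx.1 i) ha
        linarith
      · by_contra h
        have hi' : |(a • x + b • y) i| < 1 := hi
        rw [h1 i h] at hi'
        exact h hi'
      · by_contra h
        have hj' : |(a • x + b • y) j| < 1 := hj
        rw [h1 j h] at hj'
        exact h hj'
    have hj : JoinedIn (segment ℝ x y) y x :=
      ((convex_segment x y).isPathConnected ⟨x, left_mem_segment ℝ x y⟩).joinedIn y (right_mem_segment ℝ x y) x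
        (left_mem_segment ℝ x y)
    exact (key Finset.univ y hy1 (by simp)).symm.trans (hj.mono hseg)
  exact (show IsPathConnected (MA S) from ⟨_, MA_vertex S fun i => by simp, fun {x} hx => hall x hx⟩).isConnected

/-! ### The cone -/

/-- from the cone to the euclidean space -/
def F1 {m : ℕ} (f : (Fin n → ℝ) → EuclideanSpace ℝ (Fin m)) (t : Fin n → ℝ) : EuclideanSpace ℝ (Fin m) :=
  (∑ i, t i) • f fun i => t i / ∑ i, t i

/-- from the euclidean space to the cone -/
def G1 {m : ℕ} (g : EuclideanSpace ℝ (Fin m) → (Fin n → ℝ)) (y : EuclideanSpace ℝ (Fin m)) : Fin n → ℝ :=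
  fun i => ‖y‖ * g (‖y‖⁻¹ • y) i

theorem Cn_scale {S : SimpleGraph (Fin n)} {t : Fin n → ℝ} (ht : t ∈ Cn S) (h0 : ∑ i, t i ≠ 0) :
    (fun i => t i / ∑ i, t i) ∈ RX (cl S) := by
  have hp : 0 < ∑ i, t i := lt_of_le_of_ne (Finset.sum_nonneg fun i _ => ht.1 i) (Ne.symm h0)
  refine ⟨fun i => div_nonneg (ht.1 i) hp.le, ?_, ?_⟩
  · rw [← Finset.sum_div, div_self h0]
  · intro i hi j hj hij
    rw [Finset.mem_coe, mem_spt] at hi hj
    exact ht.2 (fun e => hi (by rw [e, zero_div])) (fun e => hj (by rw [e, zero_div])) hij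

theorem Cn_zero {S : SimpleGraph (Fin n)} {t : Fin n → ℝ} (ht : t ∈ Cn S) (h0 : ∑ i, t i = 0) : t = 0 :=
  funext fun i => (Finset.sum_eq_zero_iff_of_nonneg fun i _ => ht.1 i).1 h0 i (Finset.mem_univ i)

theorem RX_Cn {S : SimpleGraph (Fin n)} {x : Fin n → ℝ} (hx : x ∈ RX (cl S)) {a : ℝ} (ha : 0 ≤ a) :
    (fun i => a * x i) ∈ Cn S := by
  refine ⟨fun i => mul_nonneg ha (hx.1 i), fun i hi j hj hij => ?_⟩
  have h1 : S.IsClique (spt x : Set (Fin n)) := hx.2.2
  refine h1 (Finset.mem_coe.2 (mem_spt.2 fun e => hi ?_)) (Finset.mem_coe.2 (mem_spt.2 fun e => hj ?_)) hij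
  · show a * x i = 0
    rw [e, mul_zero]
  · show a * x j = 0
    rw [e, mul_zero]

theorem RX_compact (S : SimpleGraph (Fin n)) : IsCompact (RX (cl S)) := by
  refine Metric.isCompact_of_isClosed_isBounded ?_ ?_
  · have e : RX (cl S) = ((⋂ i, {x : Fin n → ℝ | 0 ≤ x i}) ∩ {x | ∑ i, x i = 1}) ∩
        ⋂ i, ⋂ j, {x : Fin n → ℝ | i ≠ j → ¬ S.Adj i j → x i = 0 ∨ x j = 0} := by
      ext x
      constructor
      · rintro ⟨h1, h2, h3⟩
        refine ⟨⟨mem_iInter.2 h1, h2⟩, mem_iInter.2 fun i => mem_iInter.2 fun j hij hn => ?_⟩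
        by_contra h'
        push Not at h'
        have h3' : S.IsClique (spt x : Set (Fin n)) := h3
        exact hn (h3' (Finset.mem_coe.2 (mem_spt.2 h'.1)) (Finset.mem_coe.2 (mem_spt.2 h'.2)) hij)
      · rintro ⟨⟨h1, h2⟩, h3⟩
        refine ⟨fun i => mem_iInter.1 h1 i, h2, fun i hi j hj hij => ?_⟩
        rw [Finset.mem_coe, mem_spt] at hi hj
        by_contra hn
        rcases mem_iInter.1 (mem_iInter.1 h3 i) j hij hn with h' | h'
        · exact hi h'
        · exact hj h'
    rw [e]
    refine ((isClosed_iInter fun i => isClosed_le continuous_const (by fun_prop)).inter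
      (isClosed_eq (by fun_prop) continuous_const)).inter
      (isClosed_iInter fun i => isClosed_iInter fun j => ?_)
    by_cases h1 : i = j
    · have : {x : Fin n → ℝ | i ≠ j → ¬ S.Adj i j → x i = 0 ∨ x j = 0} = univ := by
        ext x; simp [h1]
      rw [this]; exact isClosed_univ
    by_cases h2 : S.Adj i j
    · have : {x : Fin n → ℝ | i ≠ j → ¬ S.Adj i j → x i = 0 ∨ x j = 0} = univ := by
        ext x; simp [h2]
      rw [this]; exact isClosed_univ
    · have : {x : Fin n → ℝ | i ≠ j → ¬ S.Adj i j → x i = 0 ∨ x j = 0} = {x | x i = 0} ∪ {x | x j = 0} := by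
        ext x; simp [h1, h2]
      rw [this]
      exact (isClosed_eq (by fun_prop) continuous_const).union (isClosed_eq (by fun_prop) continuous_const)
  · refine (Metric.isBounded_closedBall (x := (0 : Fin n → ℝ)) (r := 1)).subset fun x hx => ?_
    rw [mem_closedBall_zero_iff, pi_norm_le_iff_of_nonneg zero_le_one]
    intro i
    rw [Real.norm_eq_abs, abs_of_nonneg (hx.1 i), ← hx.2.1]
    exact Finset.single_le_sum (fun j _ => hx.1 j) (Finset.mem_univ i)

/-- the homeomorphism of the cone and the euclidean space -/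
theorem cone_homeo {m : ℕ} (S : SimpleGraph (Fin n)) (h : Emb m (cl S)) :
    Nonempty (Cn S ≃ₜ EuclideanSpace ℝ (Fin m)) := by
  obtain ⟨f, hf1, hf2, hf3, hf4⟩ := h
  -- the inverse of `f`
  have : CompactSpace (RX (cl S)) := isCompact_iff_compactSpace.1 (RX_compact S)
  let f' : RX (cl S) → {y : EuclideanSpace ℝ (Fin m) // ‖y‖ = 1} := fun x => ⟨f x.1, hf2 _ x.2⟩
  have hf'c : Continuous f' := Continuous.subtype_mk (continuousOn_iff_continuous_domRestrict.1 hf1) _
  have hf'b : Function.Bijective f' := by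
    constructor
    · intro x y hxy
      exact Subtype.ext (hf3 x.2 y.2 (congrArg Subtype.val hxy))
    · intro y
      obtain ⟨x, hx, hxy⟩ := hf4 y.1 y.2
      exact ⟨⟨x, hx⟩, Subtype.ext hxy⟩
  let φ : RX (cl S) ≃ₜ {y : EuclideanSpace ℝ (Fin m) // ‖y‖ = 1} :=
    Continuous.homeoOfEquivCompactToT2 (f := Equiv.ofBijective f' hf'b) hf'c
  have hφ : ∀ x, (φ x).1 = f x.1 := fun x => rfl
  classical
  let g : EuclideanSpace ℝ (Fin m) → (Fin n → ℝ) := fun y => if hy : ‖y‖ = 1 then (φ.symm ⟨y, hy⟩).1 else 0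
  have hg : ∀ y (hy : ‖y‖ = 1), g y = (φ.symm ⟨y, hy⟩).1 := fun y hy => dif_pos hy
  have hgR : ∀ y, ‖y‖ = 1 → g y ∈ RX (cl S) := fun y hy => by rw [hg y hy]; exact (φ.symm ⟨y, hy⟩).2
  have hfg : ∀ y, ‖y‖ = 1 → f (g y) = y := by
    intro y hy
    rw [hg y hy, ← hφ, Homeomorph.apply_symm_apply]
  have hgf : ∀ x ∈ RX (cl S), g (f x) = x := fun x hx => hf3 (hgR _ (hf2 x hx)) hx (hfg _ (hf2 x hx))
  have hgc : ContinuousOn g {y | ‖y‖ = 1} := by
    rw [continuousOn_iff_continuous_domRestrict]
    have : ({y : EuclideanSpace ℝ (Fin m) | ‖y‖ = 1}.domRestrict g) = fun y => (φ.symm ⟨y.1, y.2⟩).1 := by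
      funext y
      exact hg y.1 y.2
    rw [this]
    exact continuous_subtype_val.comp (φ.symm.continuous)
  -- norms
  have hFn : ∀ t ∈ Cn S, ‖F1 f t‖ = ∑ i, t i := by
    intro t ht
    unfold F1
    by_cases h0 : ∑ i, t i = 0
    · rw [h0, zero_smul, norm_zero]
    · rw [norm_smul, hf2 _ (Cn_scale ht h0), mul_one, Real.norm_eq_abs,
        abs_of_nonneg (Finset.sum_nonneg fun i _ => ht.1 i)]
  have hunit : ∀ y : EuclideanSpace ℝ (Fin m), y ≠ 0 → ‖‖y‖⁻¹ • y‖ = 1 := by
    intro y hy
    rw [norm_smul, norm_inv, norm_norm, inv_mul_cancel₀ (norm_ne_zero_iff.2 hy)]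
  have hG0 : G1 g 0 = 0 := by
    funext i
    unfold G1
    rw [norm_zero, zero_mul]
    rfl
  have hF0 : F1 f 0 = 0 := by
    unfold F1
    simp
  have hGC : ∀ y, G1 g y ∈ Cn S := by
    intro y
    by_cases hy : y = 0
    · rw [hy, hG0]
      exact ⟨fun i => le_rfl, fun i hi => absurd rfl hi⟩
    · exact RX_Cn (hgR _ (hunit y hy)) (norm_nonneg y)
  have hGs : ∀ y, y ≠ 0 → ∑ i, G1 g y i = ‖y‖ := by
    intro y hy
    unfold G1
    rw [← Finset.mul_sum, (hgR _ (hunit y hy)).2.1, mul_one]
  have hGF : ∀ t ∈ Cn S, G1 g (F1 f t) = t := by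
    intro t ht
    by_cases h0 : ∑ i, t i = 0
    · rw [Cn_zero ht h0, hF0, hG0]
    · have h1 := hFn t ht
      funext i
      unfold G1
      rw [h1]
      have h2 : (∑ i, t i)⁻¹ • F1 f t = f fun i => t i / ∑ i, t i := by
        unfold F1
        rw [smul_smul, inv_mul_cancel₀ h0, one_smul]
      rw [h2, hgf _ (Cn_scale ht h0), mul_div_cancel₀ _ h0]
  have hFG : ∀ y, F1 f (G1 g y) = y := by
    intro y
    by_cases hy : y = 0
    · rw [hy, hG0, hF0]
    · have h1 := hGs y hy
      have h2 : ‖y‖ ≠ 0 := norm_ne_zero_iff.2 hy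
      unfold F1
      rw [h1]
      have h3 : (fun i => G1 g y i / ‖y‖) = g (‖y‖⁻¹ • y) := by
        funext i
        unfold G1
        rw [mul_div_cancel_left₀ _ h2]
      rw [h3, hfg _ (hunit y hy), smul_smul, mul_inv_cancel₀ h2, one_smul]
  have hFc : ContinuousOn (F1 f) (Cn S) := by
    intro t ht
    by_cases h0 : ∑ i, t i = 0
    · have ht0 := Cn_zero ht h0
      subst ht0
      have h1 : Tendsto (fun t : Fin n → ℝ => ∑ i, t i) (𝓝[Cn S] 0) (𝓝 0) := by
        have : Continuous fun t : Fin n → ℝ => ∑ i, t i := by fun_prop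
        have h2 := (this.tendsto 0).mono_left (nhdsWithin_le_nhds (s := Cn S))
        simpa using h2
      show Tendsto _ _ (𝓝 (F1 f 0))
      rw [hF0]
      refine squeeze_zero_norm' ?_ h1
      filter_upwards [self_mem_nhdsWithin] with t ht
      rw [hFn t ht]
    · have h1 : ContinuousWithinAt f (RX (cl S)) (fun i => t i / ∑ i, t i) := hf1 _ (Cn_scale ht h0)
      have h2 : ContinuousWithinAt (fun t : Fin n → ℝ => fun i => t i / ∑ i, t i) (Cn S ∩ {t | ∑ i, t i ≠ 0}) t := by
        have : ContinuousAt (fun t : Fin n → ℝ => fun i => t i / ∑ i, t i) t := by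
          refine continuousAt_pi.2 fun i => ?_
          exact (continuous_apply i).continuousAt.div (by fun_prop) h0
        exact this.continuousWithinAt
      have h3 : ContinuousWithinAt (F1 f) (Cn S ∩ {t | ∑ i, t i ≠ 0}) t := by
        have h4 : ContinuousWithinAt (fun t : Fin n → ℝ => ∑ i, t i) (Cn S ∩ {t | ∑ i, t i ≠ 0}) t :=
          (show Continuous fun t : Fin n → ℝ => ∑ i, t i by fun_prop).continuousWithinAt
        exact h4.smul (h1.comp h2 fun t ht => Cn_scale ht.1 ht.2)
      refine h3.mono_of_mem_nhdsWithin (inter_mem_nhdsWithin _ ?_)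
      exact (isOpen_ne.preimage (show Continuous fun t : Fin n → ℝ => ∑ i, t i by fun_prop)).mem_nhds h0
  have hGc : Continuous (G1 g) := by
    rw [continuous_iff_continuousAt]
    intro y
    refine continuousAt_pi.2 fun i => ?_
    by_cases hy : y = 0
    · subst hy
      have h0 : G1 g 0 i = 0 := by rw [hG0]; rfl
      show Tendsto _ _ (𝓝 (G1 g 0 i))
      rw [h0]
      have h1 : Tendsto (fun y : EuclideanSpace ℝ (Fin m) => ‖y‖) (𝓝 0) (𝓝 0) := by
        have := (continuous_norm (E := EuclideanSpace ℝ (Fin m))).tendsto 0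
        rwa [norm_zero] at this
      refine squeeze_zero_norm (fun y => ?_) h1
      by_cases hy : y = 0
      · rw [hy, h0]; simp
      · have h2 := hGs y hy
        have h3 := (hGC y).1
        rw [Real.norm_eq_abs, abs_of_nonneg (h3 i), ← h2]
        exact Finset.single_le_sum (fun j _ => h3 j) (Finset.mem_univ i)
    · have h1 : ContinuousAt (fun y : EuclideanSpace ℝ (Fin m) => g (‖y‖⁻¹ • y)) y := by
        have h2 : ContinuousWithinAt g {y | ‖y‖ = 1} (‖y‖⁻¹ • y) := hgc _ (hunit y hy)
        have h3 : ContinuousAt (fun y : EuclideanSpace ℝ (Fin m) => ‖y‖⁻¹ • y) y :=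
          (continuous_norm.continuousAt.inv₀ (norm_ne_zero_iff.2 hy)).smul continuousAt_id
        have h4 : ∀ᶠ z in 𝓝 y, ‖z‖⁻¹ • z ∈ {y : EuclideanSpace ℝ (Fin m) | ‖y‖ = 1} := by
          filter_upwards [isOpen_ne.mem_nhds hy] with z hz
          exact hunit z hz
        exact h2.tendsto.comp (tendsto_nhdsWithin_iff.2 ⟨h3, h4⟩)
      unfold G1
      exact continuous_norm.continuousAt.mul ((continuous_apply i).continuousAt.comp h1)
  exact ⟨{ toFun := fun t => F1 f t.1, invFun := fun y => ⟨G1 g y, hGC y⟩, left_inv := fun t => Subtype.ext (hGF t.1 t.2),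
            right_inv := fun y => hFG y, continuous_toFun := continuousOn_iff_continuous_domRestrict.1 hFc,
            continuous_invFun := Continuous.subtype_mk hGc _ }⟩

/-! ### The charts -/

/-- the open star of the vertex `ε` -/
def OS (S : SimpleGraph (Fin n)) (ε : Fin n → ℝ) : Set (MA S) := {x | ∀ i, -1 < ε i * x.1 i}

theorem OS_open (S : SimpleGraph (Fin n)) (ε : Fin n → ℝ) : IsOpen (OS S ε) := by
  have : OS S ε = ⋂ i, {x : MA S | -1 < ε i * x.1 i} := by
    ext x
    rw [mem_iInter]
    rfl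
  rw [this]
  exact isOpen_iInter_of_finite fun i => isOpen_lt continuous_const
    (continuous_const.mul ((continuous_apply i).comp continuous_subtype_val))

theorem star_homeo (S : SimpleGraph (Fin n)) (ε : Fin n → ℝ) (hε : ∀ i, ε i * ε i = 1) : Nonempty (OS S ε ≃ₜ Cn S) := by
  have habs : ∀ (i : Fin n) (a : ℝ), |ε i * a| = |a| := by
    intro i a
    have h1 : |ε i| * |ε i| = 1 := by rw [← abs_mul, hε, abs_one]
    have h2 : |ε i| = 1 := by
      have := abs_nonneg (ε i)
      nlinarith
    rw [abs_mul, h2, one_mul]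
  have hP : ∀ x : OS S ε, (fun i => (1 - ε i * x.1.1 i) / (1 + ε i * x.1.1 i)) ∈ Cn S := by
    intro x
    have h1 : ∀ i, 0 < 1 + ε i * x.1.1 i := fun i => by have := x.2 i; linarith
    have h2 : ∀ i, ε i * x.1.1 i ≤ 1 := fun i => (le_abs_self _).trans (by rw [habs]; exact x.1.2.1 i)
    refine ⟨fun i => div_nonneg (by have := h2 i; linarith) (h1 i).le, fun i hi j hj hij => x.1.2.2 ?_ ?_ hij⟩
    · show |x.1.1 i| < 1
      rw [← habs i, abs_lt]
      refine ⟨x.2 i, lt_of_le_of_ne (h2 i) fun e => hi ?_⟩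
      show (1 - ε i * x.1.1 i) / (1 + ε i * x.1.1 i) = 0
      rw [e, sub_self, zero_div]
    · show |x.1.1 j| < 1
      rw [← habs j, abs_lt]
      refine ⟨x.2 j, lt_of_le_of_ne (h2 j) fun e => hj ?_⟩
      show (1 - ε j * x.1.1 j) / (1 + ε j * x.1.1 j) = 0
      rw [e, sub_self, zero_div]
  have hQ0 : ∀ t : Cn S, ∀ i, 0 < 1 + t.1 i := fun t i => by have := t.2.1 i; linarith
  have hQe : ∀ t : Cn S, ∀ i, ε i * (ε i * ((1 - t.1 i) / (1 + t.1 i))) = (1 - t.1 i) / (1 + t.1 i) := fun t i => by
    rw [← mul_assoc, hε, one_mul]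
  have hQl : ∀ t : Cn S, ∀ i, -1 < (1 - t.1 i) / (1 + t.1 i) := fun t i => by
    rw [lt_div_iff₀ (hQ0 t i)]
    linarith
  have hQu : ∀ t : Cn S, ∀ i, (1 - t.1 i) / (1 + t.1 i) ≤ 1 := fun t i => by
    rw [div_le_one (hQ0 t i)]
    have := t.2.1 i
    linarith
  have hQM : ∀ t : Cn S, (fun i => ε i * ((1 - t.1 i) / (1 + t.1 i))) ∈ MA S := by
    intro t
    have h1 : ∀ i, |ε i * ((1 - t.1 i) / (1 + t.1 i))| < 1 → t.1 i ≠ 0 := by
      intro i hi h0
      rw [habs, h0] at hi
      norm_num at hi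
    refine ⟨fun i => ?_, fun i hi j hj hij => t.2.2 (h1 i hi) (h1 j hj) hij⟩
    rw [habs, abs_le]
    exact ⟨(hQl t i).le, hQu t i⟩
  have hQO : ∀ t : Cn S, (⟨_, hQM t⟩ : MA S) ∈ OS S ε := by
    intro t i
    show -1 < ε i * (ε i * ((1 - t.1 i) / (1 + t.1 i)))
    rw [hQe]
    exact hQl t i
  refine ⟨{ toFun := fun x => ⟨_, hP x⟩, invFun := fun t => ⟨⟨_, hQM t⟩, hQO t⟩, left_inv := ?_, right_inv := ?_,
            continuous_toFun := ?_, continuous_invFun := ?_ }⟩
  · intro x
    refine Subtype.ext (Subtype.ext (funext fun i => ?_))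
    show ε i * ((1 - (1 - ε i * x.1.1 i) / (1 + ε i * x.1.1 i)) / (1 + (1 - ε i * x.1.1 i) / (1 + ε i * x.1.1 i))) =
      x.1.1 i
    have h1 : 1 + ε i * x.1.1 i ≠ 0 := by have := x.2 i; intro h; linarith
    have h2 : (1 - (1 - ε i * x.1.1 i) / (1 + ε i * x.1.1 i)) / (1 + (1 - ε i * x.1.1 i) / (1 + ε i * x.1.1 i)) =
        ε i * x.1.1 i := by
      field_simp
      ring
    rw [h2, ← mul_assoc, hε, one_mul]
  · intro t
    refine Subtype.ext (funext fun i => ?_)
    show (1 - ε i * (ε i * ((1 - t.1 i) / (1 + t.1 i)))) / (1 + ε i * (ε i * ((1 - t.1 i) / (1 + t.1 i)))) = t.1 i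
    rw [hQe]
    have h1 := (hQ0 t i).ne'
    field_simp
    ring
  · refine Continuous.subtype_mk (continuous_pi fun i => ?_) _
    have hc : Continuous fun x : OS S ε => ε i * x.1.1 i :=
      continuous_const.mul ((continuous_apply i).comp (continuous_subtype_val.comp continuous_subtype_val))
    refine Continuous.div (continuous_const.sub hc) (continuous_const.add hc) fun x => ?_
    have := x.2 i
    intro h
    linarith
  · refine Continuous.subtype_mk (Continuous.subtype_mk (continuous_pi fun i => ?_) _) _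
    have hc : Continuous fun t : Cn S => t.1 i := (continuous_apply i).comp continuous_subtype_val
    exact continuous_const.mul ((continuous_const.sub hc).div (continuous_const.add hc) fun t => (hQ0 t i).ne')

/-- If the flag complex of `S` is homeomorphic to the sphere of dimension `m - 1`, then its real moment-angle complex is
a connected closed topological manifold of dimension `m`. -/
theorem MA_manifold {m : ℕ} (S : SimpleGraph (Fin n)) (h : Emb m (cl S)) :
    Nonempty (ChartedSpace (EuclideanSpace ℝ (Fin m)) (MA S)) ∧ CompactSpace (MA S) ∧ ConnectedSpace (MA S) := by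
  refine ⟨?_, isCompact_iff_compactSpace.1 (MA_compact S), isConnected_iff_connectedSpace.1 (MA_connected S)⟩
  obtain ⟨c⟩ := cone_homeo S h
  have key : ∀ x : MA S, ∃ e : OpenPartialHomeomorph (MA S) (EuclideanSpace ℝ (Fin m)), x ∈ e.source := by
    intro x
    obtain ⟨ε, hε⟩ : ∃ ε : Fin n → ℝ, ε = fun i => if x.1 i = -1 then -1 else 1 := ⟨_, rfl⟩
    have h1 : ∀ i, ε i * ε i = 1 := by
      intro i
      rw [hε]
      by_cases h : x.1 i = -1 <;> simp [h]
    have h2 : x ∈ OS S ε := by
      intro i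
      rw [hε]
      by_cases h : x.1 i = -1
      · simp only [h, if_true]; norm_num
      · simp only [h, if_false, one_mul]
        exact lt_of_le_of_ne (abs_le.1 (x.2.1 i)).1 (Ne.symm h)
    obtain ⟨a⟩ := star_homeo S ε h1
    let O : TopologicalSpace.Opens (MA S) := ⟨OS S ε, OS_open S ε⟩
    have hO : Nonempty O := ⟨⟨x, h2⟩⟩
    refine ⟨(O.openPartialHomeomorphSubtypeCoe hO).symm.trans (a.trans c).toOpenPartialHomeomorph, ?_⟩
    simp only [OpenPartialHomeomorph.trans_source, OpenPartialHomeomorph.symm_source,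
      TopologicalSpace.Opens.openPartialHomeomorphSubtypeCoe_target, Homeomorph.toOpenPartialHomeomorph_source,
      preimage_univ, inter_univ]
    exact h2
  choose e he using key
  exact ⟨{ atlas := range e, chartAt := e, mem_chart_source := he, chart_mem_atlas := fun x => mem_range_self x }⟩

end Pool.Agent.H944.FS
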