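import Pool.Agent.H944.FS6

/-!
# Stellar moves, part 11: edge subdivisions of flag complexes
-/

set_option autoImplicit false

noncomputable section

namespace Pool.Agent.H944.FS

open Pool.Agent.N496.LT.Lt (Sph Dbl sd sdA Sub)

/-- the flag complex of the subdivided graph -/
theorem cl_sd {n : ℕ} (G : SimpleGraph (Fin n)) (s t : Fin n) (hst : G.Adj s t) :
    cl (sd G s t) = star {T | ∃ S ∈ cl G, S.map (Fin.castSuccEmb (n := n)) = T} {Fin.castSucc s, Fin.castSucc t}
      (Fin.last n) := by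
  have hne : s ≠ t := hst.ne
  have pre : ∀ T : Finset (Fin (n + 1)), Fin.last n ∉ T → ∃ S : Finset (Fin n), S.map Fin.castSuccEmb = T := by
    intro T hT
    refine ⟨Finset.univ.filter fun i => Fin.castSucc i ∈ T, ?_⟩
    ext x
    rw [Finset.mem_map]
    constructor
    · rintro ⟨i, hi, rfl⟩
      exact (Finset.mem_filter.1 hi).2
    · intro hx
      have : x ≠ Fin.last n := fun e => hT (e ▸ hx)
      obtain ⟨i, rfl⟩ := Fin.exists_castSucc_eq.2 this
      exact ⟨i, Finset.mem_filter.2 ⟨Finset.mem_univ _, hx⟩, rfl⟩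
  have mm : ∀ (S : Finset (Fin n)) (i : Fin n), Fin.castSucc i ∈ S.map Fin.castSuccEmb ↔ i ∈ S := by
    intro S i
    exact Finset.mem_map' Fin.castSuccEmb
  have inj : ∀ S S' : Finset (Fin n), S.map Fin.castSuccEmb = S'.map Fin.castSuccEmb → S = S' :=
    fun S S' h => Finset.map_injective _ h
  have adj : ∀ a b : Fin n, (sd G s t).Adj (Fin.castSucc a) (Fin.castSucc b) ↔ G.Adj a b ∧ s(a, b) ≠ s(s, t) := by
    intro a b
    show sdA G s t _ _ ↔ _
    unfold sdA
    constructor
    · rintro (⟨a', b', h1, h2, h3, h4⟩ | ⟨h1, -⟩ | ⟨h1, -⟩)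
      · rw [Fin.castSucc_injective _ h1, Fin.castSucc_injective _ h2]
        exact ⟨h3, h4⟩
      · exact absurd h1 (Fin.castSucc_lt_last a).ne
      · exact absurd h1 (Fin.castSucc_lt_last b).ne
    · rintro ⟨h3, h4⟩
      exact Or.inl ⟨a, b, rfl, rfl, h3, h4⟩
  have adl : ∀ b : Fin n, (sd G s t).Adj (Fin.last n) (Fin.castSucc b) ↔ (b = s ∨ b = t ∨ (G.Adj s b ∧ G.Adj t b)) := by
    intro b
    show sdA G s t _ _ ↔ _
    unfold sdA
    constructor
    · rintro (⟨a', b', h1, -⟩ | ⟨-, b', h2, h3⟩ | ⟨h1, -⟩)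
      · exact absurd h1.symm (Fin.castSucc_lt_last a').ne
      · rwa [Fin.castSucc_injective _ h2]
      · exact absurd h1 (Fin.castSucc_lt_last b).ne
    · intro h3
      exact Or.inr (Or.inl ⟨rfl, b, rfl, h3⟩)
  have nsub : ∀ S : Finset (Fin n), ({Fin.castSucc s, Fin.castSucc t} : Finset (Fin (n + 1))) ⊆
      S.map Fin.castSuccEmb ↔ s ∈ S ∧ t ∈ S := by
    intro S
    rw [Finset.insert_subset_iff, Finset.singleton_subset_iff, mm, mm]
  have cliq : ∀ S : Finset (Fin n), (∀ x ∈ S.map Fin.castSuccEmb, ∀ y ∈ S.map Fin.castSuccEmb, x ≠ y →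
      (sd G s t).Adj x y) ↔ (S ∈ cl G ∧ ¬ (s ∈ S ∧ t ∈ S)) := by
    intro S
    constructor
    · intro h
      refine ⟨fun a ha b hb hab => ?_, fun ⟨h1, h2⟩ => ?_⟩
      · exact ((adj a b).1 (h _ ((mm S a).2 ha) _ ((mm S b).2 hb) fun e => hab (Fin.castSucc_injective _ e))).1
      · exact ((adj s t).1 (h _ ((mm S s).2 h1) _ ((mm S t).2 h2) fun e => hne (Fin.castSucc_injective _ e))).2 rfl
    · rintro ⟨h1, h2⟩ x hx y hy hxy
      obtain ⟨a, ha, rfl⟩ := Finset.mem_map.1 hx
      obtain ⟨b, hb, rfl⟩ := Finset.mem_map.1 hy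
      refine (adj a b).2 ⟨h1 ha hb fun e => hxy (by rw [e]), fun e => ?_⟩
      rw [Sym2.eq_iff] at e
      rcases e with ⟨rfl, rfl⟩ | ⟨rfl, rfl⟩
      · exact h2 ⟨ha, hb⟩
      · exact h2 ⟨hb, ha⟩
  ext T
  by_cases hT : Fin.last n ∈ T
  · rw [star_mem hT]
    obtain ⟨S, hS⟩ := pre (T.erase (Fin.last n)) (Finset.notMem_erase _ _)
    have hT' : T = insert (Fin.last n) (S.map Fin.castSuccEmb) := by rw [hS, Finset.insert_erase hT]
    have hun : S.map Fin.castSuccEmb ∪ {Fin.castSucc s, Fin.castSucc t} = (S ∪ {s, t}).map Fin.castSuccEmb := by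
      rw [Finset.map_union]
      congr 1
      ext x
      simp
    rw [← hS, nsub, hun]
    have hY : (S ∪ {s, t}).map Fin.castSuccEmb ∈ {T | ∃ S ∈ cl G, S.map (Fin.castSuccEmb (n := n)) = T} ↔
        S ∪ {s, t} ∈ cl G := by
      constructor
      · rintro ⟨S', h1, h2⟩
        rwa [← inj _ _ h2]
      · exact fun h => ⟨_, h, rfl⟩
    rw [hY]
    constructor
    · intro h
      have h' : (sd G s t).IsClique (T : Set (Fin (n + 1))) := h
      have h1 := (cliq S).1 fun x hx y hy hxy => h' (by rw [hT']; exact Finset.mem_insert_of_mem hx)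
        (by rw [hT']; exact Finset.mem_insert_of_mem hy) hxy
      have h2 : ∀ b ∈ S, b = s ∨ b = t ∨ (G.Adj s b ∧ G.Adj t b) := fun b hb => (adl b).1
        (h' (Finset.mem_coe.2 hT) (by rw [hT']; exact Finset.mem_insert_of_mem ((mm S b).2 hb))
          (Fin.castSucc_lt_last b).ne')
      refine ⟨fun a ha b hb hab => ?_, h1.2⟩
      rw [Finset.mem_coe, Finset.mem_union, Finset.mem_insert, Finset.mem_singleton] at ha hb
      rcases ha with ha | rfl | rfl <;> rcases hb with hb | rfl | rfl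
      · exact h1.1 ha hb hab
      · rcases h2 a ha with rfl | rfl | ⟨h3, h4⟩
        · exact absurd rfl hab
        · exact hst.symm
        · exact h3.symm
      · rcases h2 a ha with rfl | rfl | ⟨h3, h4⟩
        · exact hst
        · exact absurd rfl hab
        · exact h4.symm
      · rcases h2 b hb with rfl | rfl | ⟨h3, h4⟩
        · exact absurd rfl hab
        · exact hst
        · exact h3
      · exact absurd rfl hab
      · exact hst
      · rcases h2 b hb with rfl | rfl | ⟨h3, h4⟩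
        · exact hst.symm
        · exact absurd rfl hab
        · exact h4
      · exact hst.symm
      · exact absurd rfl hab
    · rintro ⟨h1, h2⟩
      have h3 := (cliq S).2 ⟨fun a ha b hb hab => h1 (Finset.mem_coe.2 (Finset.mem_union_left _ ha))
        (Finset.mem_coe.2 (Finset.mem_union_left _ hb)) hab, h2⟩
      have h4 : ∀ b ∈ S, (sd G s t).Adj (Fin.last n) (Fin.castSucc b) := by
        intro b hb
        rw [adl]
        by_cases e1 : b = s
        · exact Or.inl e1
        by_cases e2 : b = t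
        · exact Or.inr (Or.inl e2)
        refine Or.inr (Or.inr ⟨?_, ?_⟩)
        · exact h1 (by simp) (Finset.mem_coe.2 (Finset.mem_union_left _ hb)) (Ne.symm e1)
        · exact h1 (by simp) (Finset.mem_coe.2 (Finset.mem_union_left _ hb)) (Ne.symm e2)
      intro x hx y hy hxy
      rw [hT', Finset.mem_coe, Finset.mem_insert] at hx hy
      rcases hx with rfl | hx <;> rcases hy with rfl | hy
      · exact absurd rfl hxy
      · obtain ⟨b, hb, rfl⟩ := Finset.mem_map.1 hy
        exact h4 b hb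
      · obtain ⟨b, hb, rfl⟩ := Finset.mem_map.1 hx
        exact (h4 b hb).symm
      · exact h3 x hx y hy hxy
  · rw [star_not hT]
    obtain ⟨S, rfl⟩ := pre T hT
    rw [nsub]
    have hY : S.map Fin.castSuccEmb ∈ {T | ∃ S ∈ cl G, S.map (Fin.castSuccEmb (n := n)) = T} ↔ S ∈ cl G := by
      constructor
      · rintro ⟨S', h1, h2⟩
        rwa [← inj _ _ h2]
      · exact fun h => ⟨_, h, rfl⟩
    rw [hY, ← cliq S]
    exact ⟨fun h x hx y hy hxy => h hx hy hxy, fun h x hx y hy hxy => h x hx y hy hxy⟩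

theorem Good_sd {n k : ℕ} (G : SimpleGraph (Fin n)) (s t : Fin n) (hst : G.Adj s t) (h : Good k (cl G)) :
    Good k (cl (sd G s t)) := by
  rw [cl_sd G s t hst]
  have hpf : pf (Fin.castSuccOrderEmb (n := n)) {T | ∃ S ∈ cl G, S.map (Fin.castSuccEmb (n := n)) = T} = cl G := by
    ext S
    constructor
    · rintro ⟨S', h1, h2⟩
      have : S' = S := Finset.map_injective _ h2
      rwa [← this]
    · exact fun h => ⟨S, h, rfl⟩
  have hG : Good k {T | ∃ S ∈ cl G, S.map (Fin.castSuccEmb (n := n)) = T} := by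
    refine (Good_pf (Fin.castSuccOrderEmb (n := n)) ?_ k).2 (by rw [hpf]; exact h)
    rintro T ⟨S, -, hS⟩
    exact ⟨S, hS⟩
  refine hG.star ⟨{s, t}, ?_, ?_⟩ ⟨Fin.castSucc s, by simp⟩ ?_
  · intro a ha b hb hab
    rw [Finset.mem_coe, Finset.mem_insert, Finset.mem_singleton] at ha hb
    rcases ha with rfl | rfl <;> rcases hb with rfl | rfl
    · exact absurd rfl hab
    · exact hst
    · exact hst.symm
    · exact absurd rfl hab
  · ext x
    simp
  · rintro T ⟨S, -, rfl⟩ hl
    obtain ⟨i, -, hi⟩ := Finset.mem_map.1 hl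
    exact (Fin.castSucc_lt_last i).ne hi

theorem Good_Sub {m k : ℕ} {G : SimpleGraph (Fin m)} (h : Good k (cl G)) {n : ℕ} {H : SimpleGraph (Fin n)}
    (hs : Sub G H) : Good k (cl H) := by
  induction hs with
  | refl => exact h
  | step H s t hst _ ih => exact Good_sd H s t hst ih

end Pool.Agent.H944.FS
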