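import Pool.Graph.R_seed8.W907.SG.Defs

/-!
# Stellar moves and homology of families of simplices, part 1

`X` is a family of finite subsets of the finite linearly ordered set `V`, which is convex for the inclusion.
`rb X i` is the Betti number of the chain complex of the functions supported on `X`.
-/

set_option autoImplicit false

noncomputable section

namespace Pool.Agent.H944.FS

open Module Pool.Agent.W907.SG

section abs

variable {M M' : Type} [AddCommGroup M] [Module ℝ M] [FiniteDimensional ℝ M]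
  [AddCommGroup M'] [Module ℝ M'] [FiniteDimensional ℝ M']

theorem finrank_ker (Z B : Submodule ℝ M) (hB : B ≤ Z) (φ : M →ₗ[ℝ] M')
    (h : ∀ z ∈ Z, φ z = 0 ↔ z ∈ B) : finrank ℝ (Z.map φ) + finrank ℝ B = finrank ℝ Z := by
  have h1 := LinearMap.finrank_range_add_finrank_ker (φ.comp Z.subtype)
  rw [LinearMap.range_comp, Submodule.range_subtype] at h1
  have h2 : LinearMap.ker (φ.comp Z.subtype) = B.comap Z.subtype := by
    ext z
    simp only [LinearMap.mem_ker, LinearMap.comp_apply, Submodule.subtype_apply, Submodule.mem_comap]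
    exact h z z.2
  rw [h2, LinearEquiv.finrank_eq (Submodule.comapSubtypeEquivOfLe hB)] at h1
  exact h1

theorem abs_eq (Z B : Submodule ℝ M) (Z' B' : Submodule ℝ M') (hB : B ≤ Z) (hB' : B' ≤ Z') (φ : M →ₗ[ℝ] M')
    (h1 : ∀ z ∈ Z, φ z ∈ Z') (h2 : ∀ b ∈ B, φ b ∈ B') (h3 : ∀ z ∈ Z, φ z ∈ B' → z ∈ B)
    (h4 : ∀ z' ∈ Z', ∃ z ∈ Z, φ z - z' ∈ B') :
    finrank ℝ Z - finrank ℝ B = finrank ℝ Z' - finrank ℝ B' := by
  have e1 := finrank_ker Z B hB (B'.mkQ.comp φ) (fun z hz => by
    rw [LinearMap.comp_apply, Submodule.mkQ_apply, Submodule.Quotient.mk_eq_zero]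
    exact ⟨h3 z hz, h2 z⟩)
  have e2 := finrank_ker Z' B' hB' B'.mkQ (fun z hz => by
    rw [Submodule.mkQ_apply, Submodule.Quotient.mk_eq_zero])
  have e3 : Z.map (B'.mkQ.comp φ) = Z'.map B'.mkQ := by
    apply le_antisymm
    · rintro _ ⟨z, hz, rfl⟩
      exact ⟨φ z, h1 z hz, rfl⟩
    · rintro _ ⟨z', hz', rfl⟩
      obtain ⟨z, hz, h⟩ := h4 z' hz'
      refine ⟨z, hz, ?_⟩
      rw [LinearMap.comp_apply]
      rw [← sub_eq_zero, ← map_sub, Submodule.mkQ_apply, Submodule.Quotient.mk_eq_zero]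
      exact h
  rw [e3] at e1
  omega

end abs

variable {V : Type}

/-- convex families -/
def Cvx (X : Set (Finset V)) : Prop := ∀ S T R, S ∈ X → R ∈ X → S ⊆ T → T ⊆ R → T ∈ X

/-- the chains -/
def K (X : Set (Finset V)) (i : ℕ) : Submodule ℝ (Finset V → ℝ) where
  carrier := {c | ∀ T, ¬ (T ∈ X ∧ T.card = i) → c T = 0}
  add_mem' := by
    intro c d hc hd T hT
    rw [Pi.add_apply, hc T hT, hd T hT, add_zero]
  zero_mem' := fun T _ => rfl
  smul_mem' := by
    intro a c hc T hT
    rw [Pi.smul_apply, hc T hT, smul_zero]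

theorem mem_K {X : Set (Finset V)} {i : ℕ} {c : Finset V → ℝ} :
    c ∈ K X i ↔ ∀ T, ¬ (T ∈ X ∧ T.card = i) → c T = 0 := Iff.rfl

theorem K_mono {X Y : Set (Finset V)} (h : X ⊆ Y) (i : ℕ) : K X i ≤ K Y i :=
  fun _ hc T hT => hc T fun h' => hT ⟨h h'.1, h'.2⟩

theorem K_ne {X : Set (Finset V)} {i : ℕ} {c : Finset V → ℝ} (hc : c ∈ K X i) {T : Finset V} (hT : c T ≠ 0) :
    T ∈ X ∧ T.card = i := by
  by_contra h
  exact hT (hc T h)

/-- restriction to `X` -/
def res (X : Set (Finset V)) : (Finset V → ℝ) →ₗ[ℝ] (Finset V → ℝ) where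
  toFun c := X.indicator c
  map_add' c d := Set.indicator_add X c d
  map_smul' a c := by
    funext T
    by_cases hT : T ∈ X
    · simp [hT]
    · simp [hT]

theorem res_mem {X : Set (Finset V)} {c : Finset V → ℝ} {T : Finset V} (h : T ∈ X) : res X c T = c T :=
  Set.indicator_of_mem h c

theorem res_not {X : Set (Finset V)} {c : Finset V → ℝ} {T : Finset V} (h : T ∉ X) : res X c T = 0 :=
  Set.indicator_of_notMem h c

theorem res_K {X Y : Set (Finset V)} {i : ℕ} {c : Finset V → ℝ} (hc : c ∈ K X i) (hY : Y ⊆ X) : res Y c ∈ K Y i := by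
  intro T hT
  by_cases h : T ∈ Y
  · rw [res_mem h]
    exact hc T fun h' => hT ⟨h, h'.2⟩
  · exact res_not h

theorem K_split {X Y : Set (Finset V)} {i : ℕ} {c : Finset V → ℝ} (hc : c ∈ K X i) (h : res Y c = 0) :
    c ∈ K (X \ Y) i := by
  intro T hT
  by_cases hY : T ∈ Y
  · rw [← res_mem hY (c := c), h]; rfl
  · exact hc T fun h' => hT ⟨⟨h'.1, hY⟩, h'.2⟩

theorem res_sub {X Y : Set (Finset V)} {i : ℕ} {c : Finset V → ℝ} (hc : c ∈ K (X \ Y) i) : res Y c = 0 := by
  funext T
  by_cases hY : T ∈ Y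
  · rw [res_mem hY]
    exact hc T fun h' => h'.1.2 hY
  · exact res_not hY

variable [Fintype V] [LinearOrder V]

/-- the boundary in `X` -/
def bS (X : Set (Finset V)) : (Finset V → ℝ) →ₗ[ℝ] (Finset V → ℝ) := (res X).comp (bd ℝ)

theorem bS_mem {X : Set (Finset V)} {c : Finset V → ℝ} {T : Finset V} (h : T ∈ X) :
    bS X c T = ∑ v ∈ Tᶜ, sg v T • c (insert v T) := res_mem h

theorem bS_not {X : Set (Finset V)} {c : Finset V → ℝ} {T : Finset V} (h : T ∉ X) : bS X c T = 0 := res_not h

theorem bS_K {X : Set (Finset V)} {i : ℕ} {c : Finset V → ℝ} (hc : c ∈ K X (i + 1)) : bS X c ∈ K X i := by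
  intro T hT
  by_cases h : T ∈ X
  · rw [bS_mem h]
    refine Finset.sum_eq_zero fun v hv => ?_
    rw [hc, smul_zero]
    rintro ⟨h1, h2⟩
    rw [Finset.card_insert_of_notMem (by simpa using hv)] at h2
    exact hT ⟨h, by omega⟩
  · exact bS_not h

theorem bS_zero {X : Set (Finset V)} {c : Finset V → ℝ} (hc : c ∈ K X 0) : bS X c = 0 := by
  funext T
  by_cases h : T ∈ X
  · rw [bS_mem h]
    refine Finset.sum_eq_zero fun v hv => ?_
    rw [hc, smul_zero]
    rintro ⟨h1, h2⟩
    rw [Finset.card_insert_of_notMem (by simpa using hv)] at h2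
    omega
  · exact bS_not h

theorem bS_bS {X : Set (Finset V)} (hX : Cvx X) {i : ℕ} {c : Finset V → ℝ} (hc : c ∈ K X i) :
    bS X (bS X c) = 0 := by
  funext T
  by_cases h : T ∈ X
  · have e := congrFun (bd_bd (F := ℝ) c) T
    rw [Pi.zero_apply] at e ⊢
    rw [← e, bS_mem h, bd_apply]
    refine Finset.sum_congr rfl fun v hv => ?_
    congr 1
    by_cases h' : insert v T ∈ X
    · exact res_mem h'
    · rw [bS_not h', bd_apply]
      symm
      refine Finset.sum_eq_zero fun w hw => ?_
      rw [hc, smul_zero]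
      rintro ⟨h1, -⟩
      exact h' (hX T _ _ h h1 (Finset.subset_insert _ _) (Finset.subset_insert _ _))
  · exact bS_not h

/-- cycles -/
def Z (X : Set (Finset V)) (i : ℕ) : Submodule ℝ (Finset V → ℝ) := K X i ⊓ LinearMap.ker (bS X)

/-- boundaries -/
def B (X : Set (Finset V)) (i : ℕ) : Submodule ℝ (Finset V → ℝ) := (K X (i + 1)).map (bS X)

theorem mem_Z {X : Set (Finset V)} {i : ℕ} {c : Finset V → ℝ} : c ∈ Z X i ↔ c ∈ K X i ∧ bS X c = 0 := Iff.rfl

theorem mem_B {X : Set (Finset V)} {i : ℕ} {c : Finset V → ℝ} :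
    c ∈ B X i ↔ ∃ b ∈ K X (i + 1), bS X b = c := Iff.rfl

theorem B_le_Z {X : Set (Finset V)} (hX : Cvx X) (i : ℕ) : B X i ≤ Z X i := by
  rintro _ ⟨c, hc, rfl⟩
  exact ⟨bS_K hc, bS_bS hX hc⟩

/-- the Betti numbers -/
def rb (X : Set (Finset V)) (i : ℕ) : ℕ := finrank ℝ (Z X i) - finrank ℝ (B X i)

/-- acyclic -/
def Acy (X : Set (Finset V)) : Prop := ∀ i, Z X i ≤ B X i

theorem Acy.rb {X : Set (Finset V)} (h : Acy X) (i : ℕ) : rb X i = 0 := by
  unfold FS.rb
  have := Submodule.finrank_mono (h i)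
  omega

/-- `C` is closed upwards in `X` -/
def Up (C X : Set (Finset V)) : Prop := C ⊆ X ∧ ∀ S T, S ∈ C → T ∈ X → S ⊆ T → T ∈ C

omit [Fintype V] [LinearOrder V] in
theorem Up.cvx {C X : Set (Finset V)} (h : Up C X) (hX : Cvx X) : Cvx C := fun S T R hS hR h1 h2 =>
  h.2 S T hS (hX S T R (h.1 hS) (h.1 hR) h1 h2) h1

omit [Fintype V] [LinearOrder V] in
theorem Up.cvx' {C X : Set (Finset V)} (h : Up C X) (hX : Cvx X) : Cvx (X \ C) := fun S T R hS hR h1 h2 =>
  ⟨hX S T R hS.1 hR.1 h1 h2, fun h3 => hR.2 (h.2 T R h3 hR.1 h2)⟩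

/-- restriction to an upper part commutes with the boundary -/
theorem res_bS {C X : Set (Finset V)} (h : Up C X) {i : ℕ} {c : Finset V → ℝ} (hc : c ∈ K X i) :
    res C (bS X c) = bS C (res C c) := by
  funext T
  by_cases hT : T ∈ C
  · rw [res_mem hT, bS_mem (h.1 hT), bS_mem hT]
    refine Finset.sum_congr rfl fun v _ => ?_
    congr 1
    by_cases h' : insert v T ∈ X
    · rw [res_mem (h.2 T _ hT h' (Finset.subset_insert _ _))]
    · rw [res_not (fun h'' => h' (h.1 h'')), hc _ fun h'' => h' h''.1]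
  · rw [res_not hT, bS_not hT]

/-- the lower part is a subcomplex -/
theorem bS_low {C X : Set (Finset V)} (h : Up C X) {i : ℕ} {c : Finset V → ℝ} (hc : c ∈ K (X \ C) i) :
    bS X c = bS (X \ C) c := by
  funext T
  by_cases hT : T ∈ X
  · rw [bS_mem hT]
    by_cases hTC : T ∈ C
    · rw [bS_not fun h' => h'.2 hTC]
      refine Finset.sum_eq_zero fun v _ => ?_
      rw [hc, smul_zero]
      rintro ⟨h1, -⟩
      exact h1.2 (h.2 T _ hTC h1.1 (Finset.subset_insert _ _))
    · rw [bS_mem (show T ∈ X \ C from ⟨hT, hTC⟩)]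
  · rw [bS_not hT, bS_not fun h' => hT h'.1]

/-- the quotient by an acyclic subcomplex -/
theorem rb_upper {C X : Set (Finset V)} (hX : Cvx X) (h : Up C X) (ha : Acy (X \ C)) (i : ℕ) : rb X i = rb C i := by
  refine abs_eq (Z X i) (B X i) (Z C i) (B C i) (B_le_Z hX i) (B_le_Z (h.cvx hX) i) (res C) ?_ ?_ ?_ ?_
  · rintro c ⟨hc, hc'⟩
    refine ⟨res_K hc h.1, ?_⟩
    have hc'' : bS X c = 0 := hc'
    show bS C (res C c) = 0
    rw [← res_bS h hc, hc'', map_zero]
  · rintro _ ⟨b, hb, rfl⟩
    exact ⟨res C b, res_K hb h.1, (res_bS h hb).symm⟩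
  · rintro c ⟨hc, hc'⟩ ⟨b, hb, e⟩
    have hc'' : bS X c = 0 := hc'
    have hbX := K_mono h.1 _ hb
    have rb' : res C b = b := by
      funext T
      by_cases hT : T ∈ C
      · exact res_mem hT
      · rw [res_not hT, hb T fun h' => hT h'.1]
    have h1 : c - bS X b ∈ K (X \ C) i := by
      refine K_split (Submodule.sub_mem _ hc (bS_K hbX)) ?_
      rw [map_sub, res_bS h hbX, rb', e, sub_self]
    have h2 : c - bS X b ∈ Z (X \ C) i := by
      refine ⟨h1, ?_⟩
      show bS (X \ C) (c - bS X b) = 0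
      rw [← bS_low h h1, map_sub, hc'', bS_bS hX hbX, sub_zero]
    obtain ⟨a, ha1, ha2⟩ := ha i h2
    refine ⟨a + b, Submodule.add_mem _ (K_mono Set.sdiff_subset _ ha1) hbX, ?_⟩
    rw [map_add, bS_low h ha1, ha2]
    abel
  · rintro c ⟨hc, hc'⟩
    have hc'' : bS C c = 0 := hc'
    have hcX := K_mono h.1 _ hc
    have rc' : res C c = c := by
      funext T
      by_cases hT : T ∈ C
      · exact res_mem hT
      · rw [res_not hT, hc T fun h' => hT h'.1]
    have key : ∃ a ∈ K (X \ C) i, bS X a = bS X c := by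
      cases i with
      | zero => exact ⟨0, Submodule.zero_mem _, by rw [map_zero, bS_zero hcX]⟩
      | succ i =>
        have h1 : bS X c ∈ K (X \ C) i := K_split (bS_K hcX) (by rw [res_bS h hcX, rc', hc''])
        have h2 : bS X c ∈ Z (X \ C) i := ⟨h1, by
          show bS (X \ C) (bS X c) = 0
          rw [← bS_low h h1, bS_bS hX hcX]⟩
        obtain ⟨a, ha1, ha2⟩ := ha i h2
        exact ⟨a, ha1, by rw [bS_low h ha1, ha2]⟩
    obtain ⟨a, ha1, ha2⟩ := key
    refine ⟨c - a, ⟨Submodule.sub_mem _ hcX (K_mono Set.sdiff_subset _ ha1), ?_⟩, ?_⟩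
    · show bS X (c - a) = 0
      rw [map_sub, ha2, sub_self]
    · rw [map_sub, rc', res_sub ha1, sub_zero, sub_self]
      exact Submodule.zero_mem _

/-- the connecting homomorphism of an acyclic complex -/
theorem rb_conn {C X : Set (Finset V)} (hX : Cvx X) (h : Up C X) (ha : Acy X) (i : ℕ) :
    rb C (i + 1) = rb (X \ C) i := by
  have hres : ∀ j, ∀ c ∈ K C j, res C c = c := by
    intro j c hc
    funext T
    by_cases hT : T ∈ C
    · exact res_mem hT
    · rw [res_not hT, hc T fun h' => hT h'.1]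
  refine abs_eq (Z C (i + 1)) (B C (i + 1)) (Z (X \ C) i) (B (X \ C) i) (B_le_Z (h.cvx hX) _)
    (B_le_Z (h.cvx' hX) i) (bS X) ?_ ?_ ?_ ?_
  · rintro c ⟨hc, hc'⟩
    have hc'' : bS C c = 0 := hc'
    have hcX := K_mono h.1 _ hc
    have h1 : bS X c ∈ K (X \ C) i := K_split (bS_K hcX) (by rw [res_bS h hcX, hres _ c hc, hc''])
    refine ⟨h1, ?_⟩
    show bS (X \ C) (bS X c) = 0
    rw [← bS_low h h1, bS_bS hX hcX]
  · rintro _ ⟨b, hb, rfl⟩
    have hbX := K_mono h.1 _ hb
    have h1 : bS X b - bS C b ∈ K (X \ C) (i + 1) := by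
      refine K_split (Submodule.sub_mem _ (bS_K hbX) (K_mono h.1 _ (bS_K hb))) ?_
      rw [map_sub, res_bS h hbX, hres _ b hb, hres _ _ (bS_K hb), sub_self]
    refine ⟨-(bS X b - bS C b), Submodule.neg_mem _ h1, ?_⟩
    rw [← bS_low h (Submodule.neg_mem _ h1), map_neg, map_sub, bS_bS hX hbX, zero_sub, neg_neg]
  · rintro c ⟨hc, hc'⟩ ⟨a, ha1, e⟩
    have hcX := K_mono h.1 _ hc
    have haX := K_mono (Set.sdiff_subset (t := C)) _ ha1
    have h1 : c - a ∈ Z X (i + 1) := ⟨Submodule.sub_mem _ hcX haX, by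
      show bS X (c - a) = 0
      rw [map_sub, bS_low h ha1, e, sub_self]⟩
    obtain ⟨b, hb, e2⟩ := ha _ h1
    refine ⟨res C b, res_K hb h.1, ?_⟩
    rw [← res_bS h hb, e2, map_sub, hres _ c hc, res_sub ha1, sub_zero]
  · rintro z ⟨hz, hz'⟩
    have hzX := K_mono (Set.sdiff_subset (t := C)) _ hz
    have hz'' : bS (X \ C) z = 0 := hz'
    obtain ⟨b, hb, e⟩ := ha i (show z ∈ Z X i from ⟨hzX, by
      show bS X z = 0
      rw [bS_low h hz, hz'']⟩)
    have hb2 : res C b ∈ K C (i + 1) := res_K hb h.1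
    have h3 : b - res C b ∈ K (X \ C) (i + 1) := by
      refine K_split (Submodule.sub_mem _ hb (K_mono h.1 _ hb2)) ?_
      rw [map_sub, hres _ _ hb2, sub_self]
    have h4 : bS X (res C b) - z = bS (X \ C) (-(b - res C b)) := by
      rw [← bS_low h (Submodule.neg_mem _ h3), map_neg, map_sub, e]
      abel
    refine ⟨res C b, ⟨hb2, ?_⟩, ?_⟩
    · show bS C (res C b) = 0
      rw [← res_bS h hb, e, res_sub hz]
    · rw [h4]
      exact ⟨_, Submodule.neg_mem _ h3, rfl⟩

/-- cones are acyclic -/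
theorem acy_cone {X : Set (Finset V)} (x : V) (h1 : ∀ T ∈ X, insert x T ∈ X) (h2 : ∀ T ∈ X, T.erase x ∈ X) :
    Acy X := by
  rintro i c ⟨hc, hc'⟩
  have hc'' : bS X c = 0 := hc'
  refine ⟨fun T => if x ∈ T then sg x (T.erase x) • c (T.erase x) else 0, ?_, ?_⟩
  · intro T hT
    show (if x ∈ T then sg x (T.erase x) • c (T.erase x) else 0) = 0
    split_ifs with hx
    · rw [hc, smul_zero]
      rintro ⟨h3, h4⟩
      have h5 := h1 _ h3
      rw [Finset.insert_erase hx] at h5
      refine hT ⟨h5, ?_⟩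
      rw [← h4, Finset.card_erase_of_mem hx]
      have := Finset.card_pos.2 ⟨x, hx⟩
      omega
    · rfl
  · funext T
    by_cases hT : T ∈ X
    · rw [bS_mem hT]
      by_cases hx : x ∈ T
      · have h0 : T.erase x ∈ X := h2 T hT
        have hT0 : insert x (T.erase x) = T := Finset.insert_erase hx
        have e0 := congrFun hc'' (T.erase x)
        rw [bS_mem h0, Pi.zero_apply] at e0
        have hcomp : (T.erase x)ᶜ = insert x Tᶜ := by
          ext u
          simp only [Finset.mem_compl, Finset.mem_erase, Finset.mem_insert]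
          tauto
        rw [hcomp, Finset.sum_insert (by simp [hx]), hT0] at e0
        have e1 : ∀ v ∈ Tᶜ, sg v T • (if x ∈ insert v T then sg x ((insert v T).erase x) • c ((insert v T).erase x)
            else 0) = (- sg x (T.erase x)) • (sg v (T.erase x) • c (insert v (T.erase x))) := by
          intro v hv
          have hvT : v ∉ T := by simpa using hv
          have hvx : v ≠ x := fun e => hvT (e ▸ hx)
          rw [if_pos (Finset.mem_insert_of_mem hx), Finset.erase_insert_of_ne hvx, smul_smul, smul_smul]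
          congr 1
          have hs := sg_swap v x (T.erase x) hvx (fun h => hvT (Finset.mem_of_mem_erase h))
            (Finset.notMem_erase x T)
          rw [hT0] at hs
          have a1 := sg_mul_self x (insert v (T.erase x))
          have a2 := sg_mul_self x (T.erase x)
          calc sg v T * sg x (insert v (T.erase x))
              = (sg v T * sg x (T.erase x)) * (sg x (T.erase x) * sg x (insert v (T.erase x))) := by
                linear_combination (-(sg v T * sg x (insert v (T.erase x)))) * a2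
            _ = -(sg x (insert v (T.erase x)) * sg v (T.erase x)) *
                  (sg x (T.erase x) * sg x (insert v (T.erase x))) := by rw [hs]
            _ = - sg x (T.erase x) * sg v (T.erase x) := by
                linear_combination (-(sg x (T.erase x) * sg v (T.erase x))) * a1
        rw [Finset.sum_congr rfl e1, ← Finset.smul_sum]
        have e2 : ∑ v ∈ Tᶜ, sg v (T.erase x) • c (insert v (T.erase x)) = - (sg x (T.erase x) • c T) :=
          eq_neg_of_add_eq_zero_right e0
        rw [e2, neg_smul, smul_neg, neg_neg, smul_smul, sg_mul_self, one_smul]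
      · rw [Finset.sum_eq_single x]
        · rw [if_pos (Finset.mem_insert_self x T), Finset.erase_insert hx, smul_smul, sg_mul_self, one_smul]
        · intro v hv hvx
          rw [if_neg, smul_zero]
          simp only [Finset.mem_insert, not_or]
          exact ⟨fun e => hvx e.symm, hx⟩
        · intro h
          exact absurd (by simpa using hx) h
    · rw [bS_not hT, hc T fun h => hT h.1]

/-- adding a new vertex to all the simplices -/
theorem rb_ins {X : Set (Finset V)} (hX : Cvx X) (v : V) (hv : ∀ T ∈ X, v ∉ T) (i : ℕ) :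
    rb {T | v ∈ T ∧ T.erase v ∈ X} (i + 1) = rb X i := by
  set Y : Set (Finset V) := {T | v ∈ T ∧ T.erase v ∈ X} with hY
  have memY : ∀ T, v ∉ T → (insert v T ∈ Y ↔ T ∈ X) := by
    intro T hT
    rw [hY, Set.mem_ofPred_eq, Finset.erase_insert hT]
    simp
  have hYc : Cvx Y := by
    rintro S T R ⟨h1, h2⟩ ⟨h3, h4⟩ h5 h6
    exact ⟨h5 h1, hX _ _ _ h2 h4 (Finset.erase_subset_erase v h5) (Finset.erase_subset_erase v h6)⟩
  -- the linear map
  let φ : (Finset V → ℝ) →ₗ[ℝ] (Finset V → ℝ) :=
    { toFun := fun c T => if v ∈ T then 0 else sg v T • c (insert v T)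
      map_add' := by
        intro c d
        funext T
        show (if v ∈ T then 0 else sg v T • (c (insert v T) + d (insert v T))) =
          (if v ∈ T then 0 else sg v T • c (insert v T)) + (if v ∈ T then 0 else sg v T • d (insert v T))
        split_ifs
        · rw [add_zero]
        · rw [smul_add]
      map_smul' := by
        intro a c
        funext T
        show (if v ∈ T then 0 else sg v T • (a • c (insert v T))) =
          a • (if v ∈ T then 0 else sg v T • c (insert v T))
        split_ifs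
        · rw [smul_zero]
        · exact smul_comm _ _ _ }
  have φn : ∀ c T, v ∉ T → φ c T = sg v T • c (insert v T) := fun c T h => if_neg h
  have φm : ∀ c T, v ∈ T → φ c T = 0 := fun c T h => if_pos h
  -- the inverse
  let ψ : (Finset V → ℝ) → (Finset V → ℝ) := fun c T => if v ∈ T then sg v (T.erase v) • c (T.erase v) else 0
  have ψn : ∀ c T, v ∉ T → ψ c T = 0 := fun c T h => if_neg h
  have ψm : ∀ c T, v ∈ T → ψ c T = sg v (T.erase v) • c (T.erase v) := fun c T h => if_pos h
  have φK : ∀ j, ∀ c ∈ K Y (j + 1), φ c ∈ K X j := by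
    intro j c hc T hT
    by_cases hvT : v ∈ T
    · exact φm c T hvT
    · rw [φn c T hvT, hc, smul_zero]
      rintro ⟨h1, h2⟩
      rw [Finset.card_insert_of_notMem hvT] at h2
      exact hT ⟨(memY T hvT).1 h1, by omega⟩
  have ψK : ∀ j, ∀ c ∈ K X j, ψ c ∈ K Y (j + 1) := by
    intro j c hc T hT
    by_cases hvT : v ∈ T
    · rw [ψm c T hvT, hc, smul_zero]
      rintro ⟨h1, h2⟩
      refine hT ⟨⟨hvT, h1⟩, ?_⟩
      rw [Finset.card_erase_of_mem hvT] at h2
      have := Finset.card_pos.2 ⟨v, hvT⟩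
      omega
    · exact ψn c T hvT
  have φψ : ∀ j, ∀ c ∈ K X j, φ (ψ c) = c := by
    intro j c hc
    funext T
    by_cases hvT : v ∈ T
    · rw [φm _ T hvT, hc T fun h => hv T h.1 hvT]
    · rw [φn _ T hvT, ψm _ _ (Finset.mem_insert_self v T), Finset.erase_insert hvT, smul_smul, sg_mul_self, one_smul]
  have ψφ : ∀ j, ∀ c ∈ K Y (j + 1), ψ (φ c) = c := by
    intro j c hc
    funext T
    by_cases hvT : v ∈ T
    · rw [ψm _ T hvT, φn _ _ (Finset.notMem_erase v T), Finset.insert_erase hvT, smul_smul, sg_mul_self, one_smul]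
    · rw [ψn _ T hvT, hc T fun h => hvT h.1.1]
  have φb : ∀ j, ∀ c ∈ K Y (j + 1), φ (bS Y c) = - bS X (φ c) := by
    intro j c hc
    funext T
    rw [Pi.neg_apply]
    by_cases hvT : v ∈ T
    · rw [φm _ T hvT, bS_not fun h => hv T h hvT, neg_zero]
    · rw [φn _ T hvT]
      by_cases hTX : T ∈ X
      · rw [bS_mem ((memY T hvT).2 hTX), bS_mem hTX, Finset.smul_sum, ← Finset.sum_neg_distrib]
        have hcomp : Tᶜ = insert v (insert v T)ᶜ := by
          ext u
          simp only [Finset.mem_compl, Finset.mem_insert]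
          by_cases hu : u = v
          · subst hu; simp [hvT]
          · simp [hu]
        rw [hcomp, Finset.sum_insert (by simp), φm _ _ (Finset.mem_insert_self v T), smul_zero, neg_zero, zero_add]
        refine Finset.sum_congr rfl fun u hu => ?_
        simp only [Finset.mem_compl, Finset.mem_insert, not_or] at hu
        have h1 : v ∉ insert u T := by
          simp only [Finset.mem_insert, not_or]
          exact ⟨fun e => hu.1 e.symm, hvT⟩
        rw [φn _ _ h1, smul_smul, smul_smul, Finset.insert_comm, ← neg_smul]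
        congr 1
        have hs := sg_swap u v T hu.1 hu.2 hvT
        have a1 := sg_mul_self v (insert u T)
        have a2 := sg_mul_self v T
        calc sg v T * sg u (insert v T) = sg u (insert v T) * sg v T := mul_comm _ _
          _ = -(sg v (insert u T) * sg u T) := hs
          _ = -(sg u T * sg v (insert u T)) := by ring
      · rw [bS_not fun h => hTX ((memY T hvT).1 h), bS_not hTX, smul_zero, neg_zero]
  refine abs_eq (Z Y (i + 1)) (B Y (i + 1)) (Z X i) (B X i) (B_le_Z hYc _) (B_le_Z hX _) φ ?_ ?_ ?_ ?_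
  · rintro c ⟨hc, hc'⟩
    have hc'' : bS Y c = 0 := hc'
    refine ⟨φK i c hc, ?_⟩
    show bS X (φ c) = 0
    have := φb i c hc
    rw [hc'', map_zero] at this
    exact neg_eq_zero.1 this.symm
  · rintro _ ⟨b, hb, rfl⟩
    refine ⟨- φ b, Submodule.neg_mem _ (φK _ b hb), ?_⟩
    rw [map_neg, φb _ b hb]
  · rintro c ⟨hc, hc'⟩ ⟨b, hb, e⟩
    refine ⟨- ψ b, Submodule.neg_mem _ (ψK _ b hb), ?_⟩
    have h1 : φ (bS Y (-ψ b)) = φ c := by
      rw [φb _ _ (Submodule.neg_mem _ (ψK _ b hb)), map_neg, map_neg, neg_neg, φψ _ b hb, e]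
    have h2 : bS Y (-ψ b) ∈ K Y (i + 1) := bS_K (Submodule.neg_mem _ (ψK _ b hb))
    rw [← ψφ _ _ h2, h1, ψφ _ _ hc]
  · rintro z ⟨hz, hz'⟩
    have hz'' : bS X z = 0 := hz'
    refine ⟨ψ z, ⟨ψK _ z hz, ?_⟩, ?_⟩
    · show bS Y (ψ z) = 0
      cases i with
      | zero =>
        funext T
        by_cases hT : T ∈ Y
        · rw [bS_mem hT, Pi.zero_apply]
          refine Finset.sum_eq_zero fun u hu => ?_
          rw [ψm _ _ (Finset.mem_insert_of_mem hT.1), hz, smul_zero, smul_zero]
          rintro ⟨-, h3⟩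
          rw [Finset.card_eq_zero] at h3
          have : u ∈ (insert u T).erase v := by
            rw [Finset.mem_erase]
            refine ⟨fun e => ?_, Finset.mem_insert_self _ _⟩
            subst e
            simp only [Finset.mem_compl] at hu
            exact hu hT.1
          rw [h3] at this
          exact absurd this (Finset.notMem_empty _)
        · exact bS_not hT
      | succ i =>
        have h3 := φb _ _ (ψK _ z hz)
        rw [φψ _ z hz, hz'', neg_zero] at h3
        rw [← ψφ i _ (bS_K (ψK _ z hz)), h3]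
        funext T
        by_cases hvT : v ∈ T
        · rw [ψm _ _ hvT, Pi.zero_apply, Pi.zero_apply, smul_zero]
        · rw [ψn _ _ hvT, Pi.zero_apply]
    · rw [φψ _ z hz, sub_self]
      exact Submodule.zero_mem _

end Pool.Agent.H944.FS
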