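import Pool.Agent.H944.FS7

/-!
# Stellar moves, part 9: checking a list of flips, all the facets packed in one number
-/

set_option autoImplicit false

noncomputable section

namespace Pool.Agent.H944.FS

/-! ### Packed lists -/

/-- the packed list -/
def enc (w : ℕ) : List ℕ → ℕ
  | [] => 0
  | f :: F => 2 ^ w * enc w F + f

theorem and_lane {w x y f g : ℕ} (hf : f < 2 ^ w) (hg : g < 2 ^ w) :
    (2 ^ w * x + f) &&& (2 ^ w * y + g) = 2 ^ w * (x &&& y) + (f &&& g) := by
  apply Nat.eq_of_testBit_eq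
  intro i
  rw [Nat.testBit_and, Nat.testBit_two_pow_mul_add _ hf, Nat.testBit_two_pow_mul_add _ hg,
    Nat.testBit_two_pow_mul_add _ (lt_of_le_of_lt Nat.and_le_left hf)]
  split_ifs
  · rw [Nat.testBit_and]
  · rw [Nat.testBit_and]

theorem xor_lane {w x y f g : ℕ} (hf : f < 2 ^ w) (hg : g < 2 ^ w) :
    (2 ^ w * x + f) ^^^ (2 ^ w * y + g) = 2 ^ w * (x ^^^ y) + (f ^^^ g) := by
  apply Nat.eq_of_testBit_eq
  intro i
  rw [Nat.testBit_xor, Nat.testBit_two_pow_mul_add _ hf, Nat.testBit_two_pow_mul_add _ hg,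
    Nat.testBit_two_pow_mul_add _ (Nat.xor_lt_two_pow hf hg)]
  split_ifs
  · rw [Nat.testBit_xor]
  · rw [Nat.testBit_xor]

theorem enc_and {w a : ℕ} (ha : a < 2 ^ w) : ∀ F : List ℕ, (∀ f ∈ F, f < 2 ^ w) →
    enc w F &&& enc w (List.replicate F.length a) = enc w (F.map fun f => f &&& a)
  | [], _ => by simp [enc]
  | f :: F, h => by
    rw [List.length_cons, List.replicate_succ, List.map_cons]
    unfold enc
    rw [and_lane (h f List.mem_cons_self) ha, enc_and ha F fun g hg => h g (List.mem_cons_of_mem _ hg)]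

theorem enc_xor {w a : ℕ} (ha : a < 2 ^ w) : ∀ F : List ℕ, (∀ f ∈ F, f < 2 ^ w) →
    enc w F ^^^ enc w (List.replicate F.length a) = enc w (F.map fun f => f ^^^ a)
  | [], _ => by simp [enc]
  | f :: F, h => by
    rw [List.length_cons, List.replicate_succ, List.map_cons]
    unfold enc
    rw [xor_lane (h f List.mem_cons_self) ha, enc_xor ha F fun g hg => h g (List.mem_cons_of_mem _ hg)]

theorem enc_add (w c : ℕ) : ∀ F : List ℕ,
    enc w F + enc w (List.replicate F.length c) = enc w (F.map fun f => f + c)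
  | [] => rfl
  | f :: F => by
    rw [List.length_cons, List.replicate_succ, List.map_cons]
    unfold enc
    rw [← enc_add w c F]
    ring

theorem enc_mul (w a : ℕ) : ∀ n, enc w (List.replicate n a) = a * enc w (List.replicate n 1)
  | 0 => rfl
  | n + 1 => by
    rw [List.replicate_succ, List.replicate_succ]
    unfold enc
    rw [enc_mul w a n]
    ring

theorem enc_inj {w : ℕ} : ∀ F G : List ℕ, (∀ f ∈ F, f < 2 ^ w) → (∀ f ∈ G, f < 2 ^ w) → F.length = G.length →
    enc w F = enc w G → F = G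
  | [], [], _, _, _, _ => rfl
  | [], _ :: _, _, _, h, _ => by simp at h
  | _ :: _, [], _, _, h, _ => by simp at h
  | f :: F, g :: G, h1, h2, h3, h4 => by
    unfold enc at h4
    have hf := h1 f List.mem_cons_self
    have hg := h2 g List.mem_cons_self
    have e1 : f = g := by
      have := congrArg (· % 2 ^ w) h4
      simpa [Nat.mod_eq_of_lt hf, Nat.mod_eq_of_lt hg] using this
    have e2 : enc w F = enc w G := by
      subst e1
      have h5 : 2 ^ w * enc w F = 2 ^ w * enc w G := Nat.add_right_cancel h4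
      exact Nat.eq_of_mul_eq_mul_left (by positivity) h5
    rw [e1, enc_inj F G (fun f hf => h1 f (List.mem_cons_of_mem _ hf)) (fun f hf => h2 f (List.mem_cons_of_mem _ hf))
      (by simpa using h3) e2]

/-- the number with all lanes equal to one -/
def ones (w n : ℕ) : ℕ := Nat.div (Nat.sub (Nat.pow 2 (Nat.mul w n)) 1) (Nat.sub (Nat.pow 2 w) 1)

theorem enc_ones {w : ℕ} (hw : 0 < w) (n : ℕ) : enc w (List.replicate n 1) = ones w n := by
  have h1 : 1 < 2 ^ w := Nat.one_lt_two_pow (by omega)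
  have key : ∀ n, enc w (List.replicate n 1) * (2 ^ w - 1) + 1 = 2 ^ (w * n) := by
    intro n
    induction n with
    | zero => simp [enc]
    | succ n ih =>
      rw [List.replicate_succ]
      unfold enc
      obtain ⟨q, hq⟩ : ∃ q, 2 ^ w = q + 1 := ⟨2 ^ w - 1, by omega⟩
      have h2 : 2 ^ (w * (n + 1)) = 2 ^ w * 2 ^ (w * n) := by rw [← pow_add]; congr 1; ring
      rw [h2, ← ih, hq]
      simp only [Nat.add_sub_cancel]
      ring
  have h3 : ones w n = (2 ^ (w * n) - 1) / (2 ^ w - 1) := rfl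
  rw [h3, ← key n, Nat.add_sub_cancel, Nat.mul_div_cancel _ (by omega)]

/-- no lane contains `a` -/
def nl (a O C T N : ℕ) : Bool :=
  Nat.beq (Nat.land (Nat.add (Nat.xor (Nat.land N (Nat.mul a O)) (Nat.mul a O)) C) T) T

theorem nl_spec {h n a : ℕ} (F : List ℕ) (hn : F.length = n) (hF : ∀ f ∈ F, f < 2 ^ h) (ha : a < 2 ^ h)
    (hh : nl a (ones (h + 1) n) (Nat.mul (Nat.sub (Nat.pow 2 h) 1) (ones (h + 1) n))
      (Nat.mul (Nat.pow 2 h) (ones (h + 1) n)) (enc (h + 1) F) = true) : ∀ f ∈ F, Nat.land a f ≠ a := by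
  subst hn
  have hp : (2 : ℕ) ^ h < 2 ^ (h + 1) := Nat.pow_lt_pow_right (by norm_num) (by omega)
  have hpos : 0 < (2 : ℕ) ^ h := by positivity
  have h1 := beq_iff.1 hh
  rw [← enc_ones (by omega)] at h1
  have h2 : ((enc (h + 1) F &&& a * enc (h + 1) (List.replicate F.length 1)) ^^^
      a * enc (h + 1) (List.replicate F.length 1)) + (2 ^ h - 1) * enc (h + 1) (List.replicate F.length 1) &&&
      2 ^ h * enc (h + 1) (List.replicate F.length 1) = 2 ^ h * enc (h + 1) (List.replicate F.length 1) := h1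
  rw [← enc_mul, ← enc_mul, ← enc_mul, enc_and (ha.trans hp) F fun f hf => (hF f hf).trans hp] at h2
  have h3 := enc_xor (w := h + 1) (a := a) (ha.trans hp) (F.map fun f => f &&& a) (by
    intro f hf
    obtain ⟨g, hg, rfl⟩ := List.mem_map.1 hf
    exact lt_of_le_of_lt Nat.and_le_left ((hF g hg).trans hp))
  rw [List.length_map] at h3
  rw [h3] at h2
  have h4 := enc_add (h + 1) (2 ^ h - 1) ((F.map fun f => f &&& a).map fun f => f ^^^ a)
  rw [List.length_map, List.length_map] at h4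
  rw [h4] at h2
  have hb : ∀ f ∈ (((F.map fun f => f &&& a).map fun f => f ^^^ a).map fun f => f + (2 ^ h - 1)),
      f < 2 ^ (h + 1) := by
    intro f hf
    rw [List.map_map, List.map_map] at hf
    obtain ⟨g, hg, rfl⟩ := List.mem_map.1 hf
    have h5 : (g &&& a) ^^^ a < 2 ^ h := Nat.xor_lt_two_pow (lt_of_le_of_lt Nat.and_le_left (hF g hg)) ha
    show ((g &&& a) ^^^ a) + (2 ^ h - 1) < 2 ^ (h + 1)
    rw [pow_succ]
    omega
  have h5 := enc_and (w := h + 1) (a := 2 ^ h) hp _ hb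
  rw [List.length_map, List.length_map, List.length_map] at h5
  rw [h5] at h2
  have h6 := enc_inj _ _ (by
    intro f hf
    obtain ⟨g, hg, rfl⟩ := List.mem_map.1 hf
    exact lt_of_le_of_lt Nat.and_le_left (hb g hg)) (by
    intro f hf
    rw [(List.mem_replicate.1 hf).2]
    exact hp) (by simp) h2
  intro f hf e
  have h7 : (((f &&& a) ^^^ a) + (2 ^ h - 1)) &&& 2 ^ h ∈ List.replicate F.length (2 ^ h) := by
    rw [← h6, List.map_map, List.map_map, List.map_map]
    exact List.mem_map.2 ⟨f, hf, rfl⟩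
  have h8 := (List.mem_replicate.1 h7).2
  have e' : f &&& a = a := by rw [Nat.and_comm]; exact e
  rw [e', Nat.xor_self, zero_add, Nat.and_two_pow, Nat.testBit_two_pow_sub_one] at h8
  simp at h8
  omega

theorem enc_get {w : ℕ} : ∀ (F : List ℕ), (∀ f ∈ F, f < 2 ^ w) → ∀ p, p < F.length →
    Nat.land (Nat.shiftRight (enc w F) (Nat.mul w p)) (Nat.sub (Nat.pow 2 w) 1) = F.getD p 0
  | [], _, p, hp => by simp at hp
  | f :: F, h, 0, _ => by
    show ((2 ^ w * enc w F + f) >>> (w * 0)) &&& (2 ^ w - 1) = _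
    rw [mul_zero, Nat.shiftRight_zero, Nat.and_two_pow_sub_one_eq_mod, List.getD_cons_zero]
    simp [Nat.mod_eq_of_lt (h f List.mem_cons_self)]
  | f :: F, h, p + 1, hp => by
    have e : (2 ^ w * enc w F + f) >>> (w * (p + 1)) = enc w F >>> (w * p) := by
      have h1 : w * (p + 1) = w + w * p := by ring
      rw [h1, Nat.shiftRight_add]
      congr 1
      rw [Nat.shiftRight_eq_div_pow, Nat.mul_add_div (by positivity), Nat.div_eq_of_lt (h f List.mem_cons_self),
        add_zero]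
    have ih := enc_get F (fun g hg => h g (List.mem_cons_of_mem _ hg)) p (by simpa using hp)
    have ih' : (enc w F >>> (w * p)) &&& (2 ^ w - 1) = F.getD p 0 := ih
    show ((2 ^ w * enc w F + f) >>> (w * (p + 1))) &&& (2 ^ w - 1) = _
    rw [e, ih', List.getD_cons_succ]

theorem enc_set {w x : ℕ} (hx : x < 2 ^ w) : ∀ (F : List ℕ), (∀ f ∈ F, f < 2 ^ w) → ∀ p, p < F.length →
    Nat.xor (enc w F) (Nat.shiftLeft x (Nat.mul w p)) = enc w (F.set p (F.getD p 0 ^^^ x))
  | [], _, p, hp => by simp at hp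
  | f :: F, h, 0, _ => by
    show (2 ^ w * enc w F + f) ^^^ (x <<< (w * 0)) = _
    rw [mul_zero, Nat.shiftLeft_zero, List.set_cons_zero, List.getD_cons_zero]
    have e : x = 2 ^ w * 0 + x := by ring
    conv_lhs => rw [e]
    rw [xor_lane (h f List.mem_cons_self) hx, Nat.xor_zero]
    rfl
  | f :: F, h, p + 1, hp => by
    have e : x <<< (w * (p + 1)) = 2 ^ w * (x <<< (w * p)) + 0 := by
      rw [Nat.shiftLeft_eq, Nat.shiftLeft_eq]
      have h1 : w * (p + 1) = w + w * p := by ring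
      rw [h1, pow_add]
      ring
    have ih := enc_set hx F (fun g hg => h g (List.mem_cons_of_mem _ hg)) p (by simpa using hp)
    have ih' : enc w F ^^^ (x <<< (w * p)) = enc w (F.set p (F.getD p 0 ^^^ x)) := ih
    show (2 ^ w * enc w F + f) ^^^ (x <<< (w * (p + 1))) = _
    rw [e, xor_lane (h f List.mem_cons_self) (by positivity), ih', Nat.xor_zero, List.set_cons_succ,
      List.getD_cons_succ]
    rfl

/-! ### The flip of a list -/

theorem flip_core {k : ℕ} (M a b : ℕ) (F F' : List ℕ) (hF : ∀ f ∈ F, f < 2 ^ M) (hG : Good k (XF (M + 1) F))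
    (h1 : Nat.land a b = 0) (ha0 : a ≠ 0) (hb0 : b ≠ 0) (ha : a < 2 ^ M) (hb : b < 2 ^ M)
    (hA : ∀ f ∈ F, Nat.land b f ≠ b) (hB : ∀ f ∈ F', Nat.land a f ≠ a)
    (hC : ∀ f ∈ F, f ∈ F' ∨ f = 0 ∨ ∃ j, b.testBit j = true ∧ f = Nat.xor (Nat.lor a b) (Nat.pow 2 j))
    (hD : ∀ f ∈ F', f ∈ F ∨ f = 0 ∨ ∃ j, a.testBit j = true ∧ f = Nat.xor (Nat.lor a b) (Nat.pow 2 j))
    (hE : ∀ j, b.testBit j = true → Nat.xor (Nat.lor a b) (Nat.pow 2 j) ∈ F)
    (hG' : ∀ j, a.testBit j = true → Nat.xor (Nat.lor a b) (Nat.pow 2 j) ∈ F') :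
    (∀ f ∈ F', f < 2 ^ M) ∧ Good k (XF (M + 1) F') := by
  have hpow : (2 : ℕ) ^ M ≤ 2 ^ (M + 1) := Nat.pow_le_pow_right (by norm_num) (by omega)
  have ha' : a < 2 ^ (M + 1) := ha.trans_le hpow
  have hb' : b < 2 ^ (M + 1) := hb.trans_le hpow
  have hlast : ∀ f, f < 2 ^ M → Fin.last M ∉ ms (M + 1) f := by
    intro f hf h'
    rw [mem_ms, Fin.val_last, Nat.testBit_lt_two_pow hf] at h'
    exact Bool.noConfusion h'
  have hlt : ∀ x : ℕ, ∀ f, f < 2 ^ M → f.testBit x = true → x < M := by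
    intro x f hf h'
    by_contra h''
    rw [Nat.testBit_lt_two_pow (hf.trans_le (Nat.pow_le_pow_right (by norm_num) (not_lt.1 h'')))] at h'
    exact Bool.noConfusion h'
  have hα : (ms (M + 1) a).Nonempty := by
    obtain ⟨i, hi⟩ := Nat.exists_testBit_of_ne_zero ha0
    have := hlt i a ha hi
    exact ⟨⟨i, by omega⟩, mem_ms.2 hi⟩
  have hab : ms (M + 1) (Nat.lor a b) = ms (M + 1) a ∪ ms (M + 1) b := ms_or
  have hxb : ∀ x : Fin (M + 1), b.testBit x = true →
      ms (M + 1) (Nat.xor (Nat.lor a b) (Nat.pow 2 x)) = (ms (M + 1) a ∪ ms (M + 1) b).erase x := by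
    intro x hx
    rw [ms_xor x.2 (show (Nat.lor a b).testBit x = true by
      show (a ||| b).testBit x = true
      rw [Nat.testBit_or, hx, Bool.or_true]), hab]
  have hxa : ∀ x : Fin (M + 1), a.testBit x = true →
      ms (M + 1) (Nat.xor (Nat.lor a b) (Nat.pow 2 x)) = (ms (M + 1) a ∪ ms (M + 1) b).erase x := by
    intro x hx
    rw [ms_xor x.2 (show (Nat.lor a b).testBit x = true by
      show (a ||| b).testBit x = true
      rw [Nat.testBit_or, hx, Bool.true_or]), hab]
  have hz : ∀ T : Finset (Fin (M + 1)), T ⊆ ms (M + 1) 0 → T = ∅ := by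
    intro T hT
    rw [← Finset.subset_empty]
    intro i hi
    have := mem_ms.1 (hT hi)
    rw [Nat.zero_testBit] at this
    exact Bool.noConfusion this
  obtain ⟨jb, hjb⟩ := Nat.exists_testBit_of_ne_zero hb0
  obtain ⟨ja, hja⟩ := Nat.exists_testBit_of_ne_zero ha0
  have hflip : Flip (XF (M + 1) F) (ms (M + 1) a) (ms (M + 1) b) := by
    constructor
    · exact hα
    · exact ms_disj h1
    · refine ⟨_, hE jb hjb, ?_⟩
      rw [hxb ⟨jb, by have := hlt jb b hb hjb; omega⟩ hjb]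
      intro x hx
      refine Finset.mem_erase.2 ⟨fun e => ?_, Finset.mem_union_left _ hx⟩
      exact Finset.disjoint_left.1 (ms_disj h1) hx (e ▸ mem_ms.2 hjb)
    · intro S hS
      constructor
      · rintro ⟨f, h11, h12⟩
        have h13 : ms (M + 1) a ⊆ ms (M + 1) f := Finset.subset_union_left.trans h12
        rcases hC f h11 with h' | rfl | ⟨j, hj, rfl⟩
        · exact absurd (of_sub ha' h13) (hB f h')
        · exact absurd (of_sub ha' h13) (fun e => ha0 (by
            have e' : a &&& 0 = a := e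
            rw [Nat.and_zero] at e'
            exact e'.symm))
        · have hjM := hlt j b hb hj
          rw [hxb ⟨j, by omega⟩ hj] at h12
          refine lt_of_le_of_ne (fun x hx => ?_) fun e => ?_
          · have := Finset.mem_erase.1 (h12 (Finset.mem_union_right _ hx))
            rcases Finset.mem_union.1 this.2 with h' | h'
            · exact absurd hx (Finset.disjoint_left.1 hS h')
            · exact h'
          · have h14 : (⟨j, by omega⟩ : Fin (M + 1)) ∈ S := by rw [e]; exact mem_ms.2 hj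
            exact Finset.notMem_erase _ _ (h12 (Finset.mem_union_right _ h14))
      · intro hSb
        obtain ⟨x, hx, hxS⟩ := Finset.exists_of_ssubset hSb
        have hx' := mem_ms.1 hx
        refine ⟨_, hE x hx', ?_⟩
        rw [hxb x hx']
        intro y hy
        rw [Finset.mem_erase, Finset.mem_union]
        rcases Finset.mem_union.1 hy with h' | h'
        · refine ⟨fun e => ?_, Or.inl h'⟩
          exact Finset.disjoint_left.1 (ms_disj h1) h' (e ▸ hx)
        · exact ⟨fun e => hxS (e ▸ h'), Or.inr (hSb.1 h')⟩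
    · rintro ⟨f, h11, h12⟩
      exact hA f h11 (of_sub hb' h12)
  have hnew : XF (M + 1) F' = flip (XF (M + 1) F) (ms (M + 1) a) (ms (M + 1) b) := by
    ext T
    constructor
    · rintro ⟨f, h11, h12⟩
      refine ⟨fun h'' => hB f h11 (of_sub ha' (h''.trans h12)), ?_⟩
      rcases hD f h11 with h' | rfl | ⟨j, h14, rfl⟩
      · exact Or.inl ⟨f, h', h12⟩
      · rw [hz T h12]
        exact Or.inr (Finset.empty_subset _)
      · have hjM := hlt j a ha h14
        rw [hxa ⟨j, by omega⟩ h14] at h12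
        exact Or.inr (h12.trans (Finset.erase_subset _ _))
    · rintro ⟨h11, h12⟩
      have key : T ⊆ ms (M + 1) a ∪ ms (M + 1) b → T ∈ XF (M + 1) F' := by
        intro h13
        obtain ⟨x, hx, hxT⟩ := Finset.not_subset.1 h11
        have hx' := mem_ms.1 hx
        refine ⟨_, hG' x hx', ?_⟩
        rw [hxa x hx']
        intro y hy
        exact Finset.mem_erase.2 ⟨fun e => hxT (e ▸ hy), h13 hy⟩
      rcases h12 with ⟨f, h13, h14⟩ | h12
      · rcases hC f h13 with h' | rfl | ⟨j, hj, rfl⟩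
        · exact ⟨f, h', h14⟩
        · apply key
          rw [hz T h14]
          exact Finset.empty_subset _
        · apply key
          have hjM := hlt j b hb hj
          rw [hxb ⟨j, by omega⟩ hj] at h14
          exact h14.trans (Finset.erase_subset _ _)
      · exact key h12
  refine ⟨?_, ?_⟩
  · intro f hf
    rcases hD f hf with h' | rfl | ⟨j, h14, rfl⟩
    · exact hF f h'
    · positivity
    · exact Nat.xor_lt_two_pow (Nat.or_lt_two_pow ha hb) (Nat.pow_lt_pow_right (by norm_num) (hlt j a ha h14))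
  · rw [hnew]
    refine hG.flip hflip (v := Fin.last M) ?_ (hlast b hb)
    rintro T ⟨f, h11, h12⟩ h13
    exact hlast f (hF f h11) (h12 h13)

/-! ### The Boolean functions -/

/-- the changes of the lanes -/
inductive Sl
  /-- the end -/
  | n : Sl
  /-- change in the lane `p`: the old facet `ab \ jo` (or zero) is replaced by the new facet `ab \ jn` (or zero) -/
  | c : ℕ → ℕ → ℕ → Sl → Sl

/-- the facet, or zero if `j` does not belong to `b` -/
def vl (b ab j : ℕ) : ℕ :=
  Bool.rec (motive := fun _ => ℕ) (Nat.xor ab (Nat.pow 2 j)) 0 (Nat.beq (Nat.land b (Nat.pow 2 j)) 0)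

/-- performs the changes -/
def us (w msk n a b ab : ℕ) (k : ℕ → ℕ → ℕ → Bool) (s : Sl) : ℕ → ℕ → ℕ → Bool :=
  Sl.rec (motive := fun _ => ℕ → ℕ → ℕ → Bool) (fun N bo an => k N bo an)
    (fun p jo jn _ ih N bo an => bc (Nat.ble (Nat.succ p) n)
      (bc (Nat.beq (Nat.land (Nat.shiftRight N (Nat.mul w p)) msk) (vl b ab jo))
        (ih (Nat.xor N (Nat.shiftLeft (Nat.xor (vl b ab jo) (vl a ab jn)) (Nat.mul w p)))
          (Nat.lor bo (Nat.land b (Nat.pow 2 jo))) (Nat.lor an (Nat.land a (Nat.pow 2 jn)))) false) false) s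

/-- one flip -/
def st2 (P w msk n O C T a b : ℕ) (s : Sl) (k : ℕ → Bool) (N : ℕ) : Bool :=
  bc (Nat.beq (Nat.land a b) 0) (bc (Nat.beq a 0) false (bc (Nat.beq b 0) false (bc (Nat.ble P a) false
    (bc (Nat.ble P b) false (bc (nl b O C T N) (us w msk n a b (Nat.lor a b)
      (fun N' bo an => bc (Nat.beq bo b) (bc (Nat.beq an a) (bc (nl a O C T N') (k N') false) false) false)
      s N 0 0) false))))) false

/-- lists of flips -/
inductive Mw
  /-- the end -/
  | n : Mw
  /-- a flip -/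
  | c : ℕ → ℕ → Sl → Mw → Mw

/-- a list of flips -/
def run2 (P w msk n O C T : ℕ) (k : ℕ → Bool) (L : Mw) : ℕ → Bool :=
  Mw.rec (motive := fun _ => ℕ → Bool) (fun N => k N) (fun a b s _ ih N => st2 P w msk n O C T a b s ih N) L

/-- the function which is to be evaluated -/
def go (M h n : ℕ) (k : ℕ → Bool) (L : Mw) (N : ℕ) : Bool :=
  bc (Nat.ble M h) (run2 (Nat.pow 2 M) (Nat.succ h) (Nat.sub (Nat.pow 2 (Nat.succ h)) 1) n (ones (Nat.succ h) n)
    (Nat.mul (Nat.sub (Nat.pow 2 h) 1) (ones (Nat.succ h) n)) (Nat.mul (Nat.pow 2 h) (ones (Nat.succ h) n)) k L N)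
    false

theorem vl_cases (b ab j : ℕ) : (vl b ab j = 0 ∧ b.testBit j = false) ∨
    (vl b ab j = Nat.xor ab (Nat.pow 2 j) ∧ b.testBit j = true) := by
  unfold vl
  cases h : Nat.beq (Nat.land b (Nat.pow 2 j)) 0
  · right
    refine ⟨rfl, ?_⟩
    by_contra h5
    rw [Bool.not_eq_true] at h5
    rw [beq_iff.2 (land_pow.2 h5)] at h
    exact Bool.noConfusion h
  · left
    exact ⟨rfl, land_pow.1 (beq_iff.1 h)⟩

theorem testBit_land_pow {b j i : ℕ} : (Nat.land b (Nat.pow 2 j)).testBit i = true ↔ b.testBit i = true ∧ i = j := by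
  show (b &&& 2 ^ j).testBit i = true ↔ _
  rw [Nat.testBit_and, Nat.testBit_two_pow, Bool.and_eq_true, decide_eq_true_iff]
  constructor
  · rintro ⟨h1, h2⟩
    exact ⟨h1, h2.symm⟩
  · rintro ⟨h1, h2⟩
    exact ⟨h1, h2.symm⟩

theorem us_spec {h n a b : ℕ} (h1 : Nat.land a b = 0) (ha0 : a ≠ 0) (hb0 : b ≠ 0) (ha : a < 2 ^ h) (hb : b < 2 ^ h)
    (k : ℕ → ℕ → ℕ → Bool) (F0 : List ℕ) (s : Sl) : ∀ (F : List ℕ) (bo an : ℕ), F.length = n →
    (∀ f ∈ F, f < 2 ^ h) →
    (∀ f ∈ F0, f ∈ F ∨ f = 0 ∨ ∃ j, b.testBit j = true ∧ f = Nat.xor (Nat.lor a b) (Nat.pow 2 j)) →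
    (∀ f ∈ F, f ∈ F0 ∨ f = 0 ∨ ∃ j, a.testBit j = true ∧ f = Nat.xor (Nat.lor a b) (Nat.pow 2 j)) →
    (∀ j, bo.testBit j = true → Nat.xor (Nat.lor a b) (Nat.pow 2 j) ∈ F0) →
    (∀ j, an.testBit j = true → a.testBit j = true ∧ Nat.xor (Nat.lor a b) (Nat.pow 2 j) ∈ F) →
    us (h + 1) (Nat.sub (Nat.pow 2 (h + 1)) 1) n a b (Nat.lor a b) k s (enc (h + 1) F) bo an = true →
    ∃ (F' : List ℕ) (bo' an' : ℕ), k (enc (h + 1) F') bo' an' = true ∧ F'.length = n ∧
    (∀ f ∈ F', f < 2 ^ h) ∧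
    (∀ f ∈ F0, f ∈ F' ∨ f = 0 ∨ ∃ j, b.testBit j = true ∧ f = Nat.xor (Nat.lor a b) (Nat.pow 2 j)) ∧
    (∀ f ∈ F', f ∈ F0 ∨ f = 0 ∨ ∃ j, a.testBit j = true ∧ f = Nat.xor (Nat.lor a b) (Nat.pow 2 j)) ∧
    (∀ j, bo'.testBit j = true → Nat.xor (Nat.lor a b) (Nat.pow 2 j) ∈ F0) ∧
    (∀ j, an'.testBit j = true → Nat.xor (Nat.lor a b) (Nat.pow 2 j) ∈ F') := by
  have hp : (2 : ℕ) ^ h < 2 ^ (h + 1) := Nat.pow_lt_pow_right (by norm_num) (by omega)
  have hpos : 0 < (2 : ℕ) ^ h := by positivity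
  have habl : Nat.lor a b < 2 ^ h := Nat.or_lt_two_pow ha hb
  have hlt : ∀ x : ℕ, ∀ f, f < 2 ^ h → f.testBit x = true → x < h := by
    intro x f hf h'
    by_contra h''
    rw [Nat.testBit_lt_two_pow (hf.trans_le (Nat.pow_le_pow_right (by norm_num) (not_lt.1 h'')))] at h'
    exact Bool.noConfusion h'
  have hdisj : ∀ j, a.testBit j = true → b.testBit j = true → False := by
    intro j h2 h3
    have h4 : (a &&& b).testBit j = true := by rw [Nat.testBit_and, h2, h3]; rfl
    have h' : a &&& b = 0 := h1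
    rw [h', Nat.zero_testBit] at h4
    exact Bool.noConfusion h4
  have hxor : ∀ i j, Nat.xor (Nat.lor a b) (Nat.pow 2 i) = Nat.xor (Nat.lor a b) (Nat.pow 2 j) → i = j := by
    intro i j e
    have e' : (a ||| b) ^^^ 2 ^ i = (a ||| b) ^^^ 2 ^ j := e
    exact Nat.pow_right_injective (le_refl 2) (Nat.xor_right_inj.1 e')
  have hne : ∀ i, Nat.xor (Nat.lor a b) (Nat.pow 2 i) ≠ 0 := by
    intro i e
    have e' : (a ||| b) = 2 ^ i := Nat.xor_eq_zero_iff.1 e
    obtain ⟨x, hx⟩ := Nat.exists_testBit_of_ne_zero ha0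
    obtain ⟨y, hy⟩ := Nat.exists_testBit_of_ne_zero hb0
    have h2 : (a ||| b).testBit x = true := by rw [Nat.testBit_or, hx, Bool.true_or]
    have h3 : (a ||| b).testBit y = true := by rw [Nat.testBit_or, hy, Bool.or_true]
    rw [e', Nat.testBit_two_pow, decide_eq_true_iff] at h2 h3
    rw [← h2, h3] at hx
    exact hdisj _ hx hy
  induction s with
  | n =>
    intro F bo an h2 h3 h4 h5 h6 h7 h8
    exact ⟨F, bo, an, h8, h2, h3, h4, h5, h6, fun j hj => (h7 j hj).2⟩
  | c p jo jn s ih =>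
    intro F bo an h2 h3 h4 h5 h6 h7 h8
    have h8' : bc (Nat.ble (Nat.succ p) n)
      (bc (Nat.beq (Nat.land (Nat.shiftRight (enc (h + 1) F) (Nat.mul (h + 1) p)) (Nat.sub (Nat.pow 2 (h + 1)) 1))
          (vl b (Nat.lor a b) jo))
        (us (h + 1) (Nat.sub (Nat.pow 2 (h + 1)) 1) n a b (Nat.lor a b) k s
          (Nat.xor (enc (h + 1) F)
            (Nat.shiftLeft (Nat.xor (vl b (Nat.lor a b) jo) (vl a (Nat.lor a b) jn)) (Nat.mul (h + 1) p)))
          (Nat.lor bo (Nat.land b (Nat.pow 2 jo))) (Nat.lor an (Nat.land a (Nat.pow 2 jn)))) false) false = true := h8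
    obtain ⟨h9, h8'⟩ := cond_false' h8'
    obtain ⟨h10, h8'⟩ := cond_false' h8'
    have hpn : p < F.length := by
      rw [h2]
      exact Nat.le_of_ble_eq_true h9
    rw [beq_iff, enc_get F (fun f hf => (h3 f hf).trans hp) p hpn] at h10
    have hvb : vl b (Nat.lor a b) jo < 2 ^ h := by
      rcases vl_cases b (Nat.lor a b) jo with ⟨e, -⟩ | ⟨e, e'⟩
      · rw [e]; exact hpos
      · rw [e]; exact Nat.xor_lt_two_pow habl (Nat.pow_lt_pow_right (by norm_num) (hlt jo b hb e'))
    have hva : vl a (Nat.lor a b) jn < 2 ^ h := by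
      rcases vl_cases a (Nat.lor a b) jn with ⟨e, -⟩ | ⟨e, e'⟩
      · rw [e]; exact hpos
      · rw [e]; exact Nat.xor_lt_two_pow habl (Nat.pow_lt_pow_right (by norm_num) (hlt jn a ha e'))
    have hFp : F.getD p 0 ∈ F := by
      rw [List.getD_eq_getElem _ _ hpn]
      exact List.getElem_mem hpn
    rw [enc_set (by
      show _ < 2 ^ (h + 1)
      exact (Nat.xor_lt_two_pow hvb hva).trans hp) F (fun f hf => (h3 f hf).trans hp) p hpn, h10] at h8'
    have hx : vl b (Nat.lor a b) jo ^^^ Nat.xor (vl b (Nat.lor a b) jo) (vl a (Nat.lor a b) jn) =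
        vl a (Nat.lor a b) jn := by
      show vl b (Nat.lor a b) jo ^^^ (vl b (Nat.lor a b) jo ^^^ vl a (Nat.lor a b) jn) = _
      rw [← Nat.xor_assoc, Nat.xor_self, Nat.zero_xor]
    rw [hx] at h8'
    rw [h10] at hFp
    have hmem1 : ∀ f, f ∈ F.set p (vl a (Nat.lor a b) jn) → f ∈ F ∨ f = vl a (Nat.lor a b) jn :=
      fun f hf => List.mem_or_eq_of_mem_set hf
    have hmem2 : ∀ f, f ∈ F → f ∈ F.set p (vl a (Nat.lor a b) jn) ∨ f = vl b (Nat.lor a b) jo := by
      intro f hf
      obtain ⟨i, hi, rfl⟩ := List.mem_iff_getElem.1 hf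
      by_cases e : i = p
      · right
        subst e
        rw [← h10, List.getD_eq_getElem _ _ hi]
      · left
        rw [List.mem_iff_getElem]
        refine ⟨i, by rw [List.length_set]; exact hi, ?_⟩
        rw [List.getElem_set_ne (Ne.symm e)]
    refine ih (F.set p (vl a (Nat.lor a b) jn)) _ _ (by rw [List.length_set, h2]) ?_ ?_ ?_ ?_ ?_ h8'
    · intro f hf
      rcases hmem1 f hf with h' | rfl
      · exact h3 f h'
      · exact hva
    · intro f hf
      rcases h4 f hf with h' | h' | h'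
      · rcases hmem2 f h' with h'' | rfl
        · exact Or.inl h''
        · rcases vl_cases b (Nat.lor a b) jo with ⟨e, -⟩ | ⟨e, e'⟩
          · exact Or.inr (Or.inl e)
          · exact Or.inr (Or.inr ⟨jo, e', e⟩)
      · exact Or.inr (Or.inl h')
      · exact Or.inr (Or.inr h')
    · intro f hf
      rcases hmem1 f hf with h' | rfl
      · exact h5 f h'
      · rcases vl_cases a (Nat.lor a b) jn with ⟨e, -⟩ | ⟨e, e'⟩
        · exact Or.inr (Or.inl e)
        · exact Or.inr (Or.inr ⟨jn, e', e⟩)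
    · intro j hj
      have hj' : (bo ||| Nat.land b (Nat.pow 2 jo)).testBit j = true := hj
      rw [Nat.testBit_or, Bool.or_eq_true, testBit_land_pow] at hj'
      rcases hj' with h' | ⟨h', rfl⟩
      · exact h6 j h'
      · rcases vl_cases b (Nat.lor a b) j with ⟨-, e⟩ | ⟨e, -⟩
        · rw [e] at h'
          exact Bool.noConfusion h'
        · rw [e] at hFp
          rcases h5 _ hFp with h'' | h'' | ⟨i, hi, h''⟩
          · exact h''
          · exact absurd h'' (hne j)
          · have := hxor _ _ h''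
            subst this
            exact absurd h' (fun h' => hdisj _ hi h')
    · intro j hj
      have hj' : (an ||| Nat.land a (Nat.pow 2 jn)).testBit j = true := hj
      rw [Nat.testBit_or, Bool.or_eq_true, testBit_land_pow] at hj'
      rcases hj' with h' | ⟨h', rfl⟩
      · refine ⟨(h7 j h').1, ?_⟩
        rcases hmem2 _ (h7 j h').2 with h'' | h''
        · exact h''
        · rcases vl_cases b (Nat.lor a b) jo with ⟨e, -⟩ | ⟨e, e'⟩
          · rw [e] at h''
            exact absurd h'' (hne j)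
          · rw [e] at h''
            have := hxor _ _ h''
            subst this
            exact absurd e' (fun e' => hdisj _ (h7 j h').1 e')
      · refine ⟨h', ?_⟩
        rcases vl_cases a (Nat.lor a b) j with ⟨-, e⟩ | ⟨e, -⟩
        · rw [e] at h'
          exact Bool.noConfusion h'
        · rw [List.mem_iff_getElem]
          refine ⟨p, by rw [List.length_set]; exact hpn, ?_⟩
          rw [List.getElem_set_self, e]

theorem run2_spec {k : ℕ} (M h n : ℕ) (hMh : M ≤ h) (c : ℕ → Bool) (L : Mw) : ∀ (F : List ℕ), F.length = n →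
    (∀ f ∈ F, f < 2 ^ M) → Good k (XF (M + 1) F) →
    run2 (2 ^ M) (h + 1) (Nat.sub (Nat.pow 2 (h + 1)) 1) n (ones (h + 1) n)
      (Nat.mul (Nat.sub (Nat.pow 2 h) 1) (ones (h + 1) n)) (Nat.mul (Nat.pow 2 h) (ones (h + 1) n)) c L
      (enc (h + 1) F) = true →
    ∃ F' : List ℕ, F'.length = n ∧ (∀ f ∈ F', f < 2 ^ M) ∧ Good k (XF (M + 1) F') ∧ c (enc (h + 1) F') = true := by
  have hp : (2 : ℕ) ^ M ≤ 2 ^ h := Nat.pow_le_pow_right (by norm_num) hMh
  induction L with
  | n =>
    intro F h1 h2 h3 h4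
    exact ⟨F, h1, h2, h3, h4⟩
  | c a b s L ih =>
    intro F h1 h2 h3 h4
    have h4' : st2 (2 ^ M) (h + 1) (Nat.sub (Nat.pow 2 (h + 1)) 1) n (ones (h + 1) n)
      (Nat.mul (Nat.sub (Nat.pow 2 h) 1) (ones (h + 1) n)) (Nat.mul (Nat.pow 2 h) (ones (h + 1) n)) a b s
      (run2 (2 ^ M) (h + 1) (Nat.sub (Nat.pow 2 (h + 1)) 1) n (ones (h + 1) n)
      (Nat.mul (Nat.sub (Nat.pow 2 h) 1) (ones (h + 1) n)) (Nat.mul (Nat.pow 2 h) (ones (h + 1) n)) c L)
      (enc (h + 1) F) = true := h4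
    unfold st2 at h4'
    obtain ⟨a1, h4'⟩ := cond_false' h4'
    obtain ⟨a2, h4'⟩ := cond_false'' h4'
    obtain ⟨a3, h4'⟩ := cond_false'' h4'
    obtain ⟨a4, h4'⟩ := cond_false'' h4'
    obtain ⟨a5, h4'⟩ := cond_false'' h4'
    obtain ⟨a6, h4'⟩ := cond_false' h4'
    have b1 : Nat.land a b = 0 := beq_iff.1 a1
    have ha0 : a ≠ 0 := fun e => by rw [beq_iff.2 e] at a2; exact Bool.noConfusion a2
    have hb0 : b ≠ 0 := fun e => by rw [beq_iff.2 e] at a3; exact Bool.noConfusion a3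
    have ha : a < 2 ^ M := by
      by_contra h'
      rw [ble_of (not_lt.1 h')] at a4
      exact Bool.noConfusion a4
    have hb : b < 2 ^ M := by
      by_contra h'
      rw [ble_of (not_lt.1 h')] at a5
      exact Bool.noConfusion a5
    have hFh : ∀ f ∈ F, f < 2 ^ h := fun f hf => (h2 f hf).trans_le hp
    have hA := nl_spec F h1 hFh (hb.trans_le hp) a6
    obtain ⟨F', bo, an, c1, c2, c3, c4, c5, c6, c7⟩ := us_spec b1 ha0 hb0 (ha.trans_le hp) (hb.trans_le hp) _ F s F 0 0
      h1 hFh (fun f hf => Or.inl hf) (fun f hf => Or.inl hf)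
      (fun j hj => by rw [Nat.zero_testBit] at hj; exact Bool.noConfusion hj)
      (fun j hj => by rw [Nat.zero_testBit] at hj; exact Bool.noConfusion hj) h4'
    obtain ⟨d1, c1a⟩ := cond_false' c1
    obtain ⟨d2, c1b⟩ := cond_false' c1a
    obtain ⟨d3, c1c⟩ := cond_false' c1b
    rw [beq_iff] at d1 d2
    subst d1
    subst d2
    have hB := nl_spec F' c2 c3 (ha.trans_le hp) d3
    obtain ⟨e1, e2⟩ := flip_core M an bo F F' h2 h3 b1 ha0 hb0 ha hb hA hB c4 c5 c6 c7
    exact ih F' c2 e1 e2 c1c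

theorem go_spec {k : ℕ} (M h n : ℕ) (c : ℕ → Bool) (L : Mw) (F : List ℕ) (N : ℕ) (hN : enc (h + 1) F = N)
    (h1 : F.length = n) (h2 : ∀ f ∈ F, f < 2 ^ M) (h3 : Good k (XF (M + 1) F)) (h4 : go M h n c L N = true) :
    ∃ F' : List ℕ, F'.length = n ∧ (∀ f ∈ F', f < 2 ^ M) ∧ Good k (XF (M + 1) F') ∧ c (enc (h + 1) F') = true := by
  subst hN
  unfold go at h4
  obtain ⟨h5, h6⟩ := cond_false' h4
  exact run2_spec M h n (Nat.le_of_ble_eq_true h5) c L F h1 h2 h3 h6

end Pool.Agent.H944.FS
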