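import Pool.Agent.H944.FS8
import Pool.Agent.H944.FS9

/-!
# Stellar moves, part 10: the form of the certificates
-/

set_option autoImplicit false

noncomputable section

namespace Pool.Agent.H944.FS

open Module Pool.Agent.W907.SG
open Pool.Agent.N496.LT.Lt (Sph Dbl)

/-- some lane contains `a` -/
theorem nl_false {h n a : ℕ} (F : List ℕ) (hn : F.length = n) (hF : ∀ f ∈ F, f < 2 ^ h) (ha : a < 2 ^ h)
    (hh : nl a (ones (h + 1) n) (Nat.mul (Nat.sub (Nat.pow 2 h) 1) (ones (h + 1) n))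
      (Nat.mul (Nat.pow 2 h) (ones (h + 1) n)) (enc (h + 1) F) = false) : ∃ f ∈ F, Nat.land a f = a := by
  by_contra hcon
  push Not at hcon
  subst hn
  have hp : (2 : ℕ) ^ h < 2 ^ (h + 1) := Nat.pow_lt_pow_right (by norm_num) (by omega)
  have hpos : 0 < (2 : ℕ) ^ h := by positivity
  have h1 : ¬ (Nat.beq (Nat.land (Nat.add (Nat.xor (Nat.land (enc (h + 1) F) (Nat.mul a (ones (h + 1) F.length)))
      (Nat.mul a (ones (h + 1) F.length))) (Nat.mul (Nat.sub (Nat.pow 2 h) 1) (ones (h + 1) F.length)))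
      (Nat.mul (Nat.pow 2 h) (ones (h + 1) F.length))) (Nat.mul (Nat.pow 2 h) (ones (h + 1) F.length)) = true) := by
    intro e
    have e' : nl a (ones (h + 1) F.length) (Nat.mul (Nat.sub (Nat.pow 2 h) 1) (ones (h + 1) F.length))
      (Nat.mul (Nat.pow 2 h) (ones (h + 1) F.length)) (enc (h + 1) F) = true := e
    rw [hh] at e'
    exact Bool.noConfusion e'
  apply h1
  rw [beq_iff]
  rw [← enc_ones (by omega)]
  show ((enc (h + 1) F &&& a * enc (h + 1) (List.replicate F.length 1)) ^^^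
      a * enc (h + 1) (List.replicate F.length 1)) + (2 ^ h - 1) * enc (h + 1) (List.replicate F.length 1) &&&
      2 ^ h * enc (h + 1) (List.replicate F.length 1) = 2 ^ h * enc (h + 1) (List.replicate F.length 1)
  rw [← enc_mul, ← enc_mul, ← enc_mul, enc_and (ha.trans hp) F fun f hf => (hF f hf).trans hp]
  have h3 := enc_xor (w := h + 1) (a := a) (ha.trans hp) (F.map fun f => f &&& a) (by
    intro f hf
    obtain ⟨g, hg, rfl⟩ := List.mem_map.1 hf
    exact lt_of_le_of_lt Nat.and_le_left ((hF g hg).trans hp))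
  rw [List.length_map] at h3
  rw [h3]
  have h4 := enc_add (h + 1) (2 ^ h - 1) ((F.map fun f => f &&& a).map fun f => f ^^^ a)
  rw [List.length_map, List.length_map] at h4
  rw [h4]
  have hx : ∀ g ∈ F, (g &&& a) ^^^ a < 2 ^ h := fun g hg =>
    Nat.xor_lt_two_pow (lt_of_le_of_lt Nat.and_le_left (hF g hg)) ha
  have hb : ∀ f ∈ (((F.map fun f => f &&& a).map fun f => f ^^^ a).map fun f => f + (2 ^ h - 1)),
      f < 2 ^ (h + 1) := by
    intro f hf
    rw [List.map_map, List.map_map] at hf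
    obtain ⟨g, hg, rfl⟩ := List.mem_map.1 hf
    have h5 := hx g hg
    show ((g &&& a) ^^^ a) + (2 ^ h - 1) < 2 ^ (h + 1)
    rw [pow_succ]
    omega
  have h5 := enc_and (w := h + 1) (a := 2 ^ h) hp _ hb
  rw [List.length_map, List.length_map, List.length_map] at h5
  rw [h5]
  congr 1
  rw [List.eq_replicate_iff]
  refine ⟨by simp, fun f hf => ?_⟩
  rw [List.map_map, List.map_map, List.map_map] at hf
  obtain ⟨g, hg, rfl⟩ := List.mem_map.1 hf
  show (((g &&& a) ^^^ a) + (2 ^ h - 1)) &&& 2 ^ h = 2 ^ h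
  have h6 : (g &&& a) ^^^ a ≠ 0 := by
    intro e
    have e2 : g &&& a = a := Nat.xor_eq_zero_iff.1 e
    apply hcon g hg
    show a &&& g = a
    rw [Nat.and_comm]
    exact e2
  obtain ⟨x, hx'⟩ : ∃ x, x = (g &&& a) ^^^ a := ⟨_, rfl⟩
  have hxlt : x < 2 ^ h := hx' ▸ hx g hg
  rw [← hx'] at h6 ⊢
  have h7 : x + (2 ^ h - 1) = 2 ^ h * 1 + (x - 1) := by omega
  rw [Nat.and_two_pow, h7, Nat.testBit_two_pow_mul_add _ (by omega)]
  simp

/-- the state of the computation -/
def Gd (M h n k N : ℕ) : Prop :=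
  ∃ F : List ℕ, enc (h + 1) F = N ∧ F.length = n ∧ (∀ f ∈ F, f < 2 ^ M) ∧ Good k (XF (M + 1) F)

theorem Gd.go {M h n k N N' : ℕ} (hN : Gd M h n k N) {L : Mw} (h4 : go M h n (fun N => Nat.beq N N') L N = true) :
    Gd M h n k N' := by
  obtain ⟨F, h1, h2, h3, h5⟩ := hN
  obtain ⟨F', h6, h7, h8, h9⟩ := go_spec M h n _ L F N h1 h2 h3 h5 h4
  exact ⟨F', beq_iff.1 h9, h6, h7, h8⟩

/-- the boundary of the simplex with `k + 1` vertices -/
def st0 (k n : ℕ) : List ℕ :=
  ((List.range (k + 1)).map fun j => Nat.xor (Nat.sub (Nat.pow 2 (k + 1)) 1) (Nat.pow 2 j)) ++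
    List.replicate (n - (k + 1)) 0

theorem Gd.start {M h n k : ℕ} (hk : k + 1 ≤ M) (hn : k + 1 ≤ n) : Gd M h n k (enc (h + 1) (st0 k n)) := by
  have hM : (2 : ℕ) ^ (k + 1) ≤ 2 ^ M := Nat.pow_le_pow_right (by norm_num) hk
  have hpos : 0 < (2 : ℕ) ^ (k + 1) := by positivity
  have hbit : ∀ i, (2 ^ (k + 1) - 1).testBit i = decide (i < k + 1) := fun i => Nat.testBit_two_pow_sub_one _ _
  refine ⟨st0 k n, rfl, ?_, ?_, ?_⟩
  · unfold st0
    rw [List.length_append, List.length_map, List.length_range, List.length_replicate]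
    omega
  · intro f hf
    unfold st0 at hf
    rcases List.mem_append.1 hf with hf | hf
    · obtain ⟨j, hj, rfl⟩ := List.mem_map.1 hf
      rw [List.mem_range] at hj
      refine Nat.xor_lt_two_pow ?_ (Nat.pow_lt_pow_right (by norm_num) (by omega))
      show 2 ^ (k + 1) - 1 < 2 ^ M
      omega
    · rw [(List.mem_replicate.1 hf).2]
      positivity
  · have hΩ : (ms (M + 1) (2 ^ (k + 1) - 1)).card = k + 1 := by
      have : ms (M + 1) (2 ^ (k + 1) - 1) = Finset.univ.filter fun i : Fin (M + 1) => (i : ℕ) < k + 1 := by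
        ext i
        rw [mem_ms, hbit, decide_eq_true_iff, Finset.mem_filter]
        exact ⟨fun h => ⟨Finset.mem_univ _, h⟩, fun h => h.2⟩
      rw [this]
      have e : (Finset.univ.filter fun i : Fin (M + 1) => (i : ℕ) < k + 1) =
          Finset.univ.image (Fin.castLE (show k + 1 ≤ M + 1 by omega)) := by
        ext i
        rw [Finset.mem_filter, Finset.mem_image]
        constructor
        · rintro ⟨-, h⟩
          exact ⟨⟨i, h⟩, Finset.mem_univ _, rfl⟩
        · rintro ⟨j, -, rfl⟩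
          exact ⟨Finset.mem_univ _, j.2⟩
      rw [e, Finset.card_image_of_injective _ (Fin.castLE_injective _), Finset.card_univ, Fintype.card_fin]
    have hX : XF (M + 1) (st0 k n) = bdS (ms (M + 1) (2 ^ (k + 1) - 1)) := by
      ext T
      constructor
      · rintro ⟨f, hf, hT⟩
        unfold st0 at hf
        rcases List.mem_append.1 hf with hf | hf
        · obtain ⟨j, hj, rfl⟩ := List.mem_map.1 hf
          rw [List.mem_range] at hj
          have hb : (2 ^ (k + 1) - 1).testBit j = true := by rw [hbit, decide_eq_true_iff]; exact hj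
          have e := ms_xor (m := M + 1) (j := j) (by omega) hb
          have hT' : T ⊆ (ms (M + 1) (2 ^ (k + 1) - 1)).erase ⟨j, by omega⟩ := by rw [← e]; exact hT
          exact lt_of_le_of_lt hT' (Finset.erase_ssubset (mem_ms.2 hb))
        · rw [(List.mem_replicate.1 hf).2, ms_zero] at hT
          refine lt_of_le_of_lt hT ?_
          rw [Finset.empty_ssubset, ← Finset.card_pos, hΩ]
          omega
      · intro hT
        have hT' : T ⊂ ms (M + 1) (2 ^ (k + 1) - 1) := hT
        obtain ⟨x, hx, hxT⟩ := Finset.exists_of_ssubset hT'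
        have hb := mem_ms.1 hx
        have hxk : (x : ℕ) < k + 1 := by
          rw [hbit, decide_eq_true_iff] at hb
          exact hb
        refine ⟨Nat.xor (Nat.sub (Nat.pow 2 (k + 1)) 1) (Nat.pow 2 x), ?_, ?_⟩
        · unfold st0
          exact List.mem_append_left _ (List.mem_map.2 ⟨x, List.mem_range.2 hxk, rfl⟩)
        · have e := ms_xor (m := M + 1) (j := x) x.2 hb
          have e' : ms (M + 1) (Nat.xor (Nat.sub (Nat.pow 2 (k + 1)) 1) (Nat.pow 2 x)) =
            (ms (M + 1) (2 ^ (k + 1) - 1)).erase x := e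
          rw [e']
          intro y hy
          exact Finset.mem_erase.2 ⟨fun e => hxT (e ▸ hy), hT'.1 hy⟩
    rw [hX]
    exact Good_bdS _ k hΩ

/-- the test of membership -/
def tst (h n N s : ℕ) : Bool :=
  bc (Nat.ble (Nat.pow 2 h) s) false (bc (nl s (ones (Nat.succ h) n)
    (Nat.mul (Nat.sub (Nat.pow 2 h) 1) (ones (Nat.succ h) n)) (Nat.mul (Nat.pow 2 h) (ones (Nat.succ h) n)) N)
    false true)

/-- The form of the certificates: `rows` are the rows of the adjacency matrix of the graph, `jt` and `jf` are the two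
lifts of the vertices, `U` is the list of the undoubled vertices, `zl` is the list of the simplices of the cycle with
their coefficients, `κ` is the list of the colours. -/
theorem cert {d p : ℕ} [Fact p.Prime] (M h n N : ℕ) (hG : Gd M h n (2 * d + 1) N) (hMh : M ≤ h)
    (rows : List ℕ) (m : ℕ) (jt jf κ : List ℕ) (Um : ℕ) (zl : List (ℕ × ℤ)) (used : ℕ)
    (c1 : ck (M + 1) (fun i => rows.getD i 0) (tst h n N) (d + 1) 0 used = true)
    (c2 : ∀ i < M + 1, used.testBit i = false → rows.getD i 0 = 0)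
    (c3 : ∀ v < m, jt.getD v 0 < M + 1 ∧ jf.getD v 0 < M + 1 ∧ used.testBit (jt.getD v 0) = true ∧
      used.testBit (jf.getD v 0) = true ∧ κ.getD v 0 < d + 1)
    (c4 : ∀ v < m, ∀ w < m, v ≠ w → jt.getD v 0 ≠ jt.getD w 0 ∧ jt.getD v 0 ≠ jf.getD w 0 ∧ jf.getD v 0 ≠ jt.getD w 0 ∧
      jf.getD v 0 ≠ jf.getD w 0)
    (c5 : ∀ v < m, Um.testBit v = true → jt.getD v 0 = jf.getD v 0)
    (c6 : ∀ v < m, Um.testBit v = false → jt.getD v 0 ≠ jf.getD v 0 ∧
      (rows.getD (jt.getD v 0) 0).testBit (jf.getD v 0) = false)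
    (c7 : ∀ v < m, ∀ w < m, Um.testBit v = true → Um.testBit w = true → v ≠ w →
      (rows.getD (jt.getD v 0) 0).testBit (jt.getD w 0) = true)
    (c8 : ∀ q ∈ zl, q.1 < 2 ^ m ∧ ((List.range m).filter fun i => q.1.testBit i).length = d + 1 ∧
      ∀ v < m, ∀ w < m, q.1.testBit v = true → q.1.testBit w = true → v ≠ w →
        (rows.getD (jt.getD v 0) 0).testBit (jt.getD w 0) = true ∧
        (rows.getD (jt.getD v 0) 0).testBit (jf.getD w 0) = true ∧
        (rows.getD (jf.getD v 0) 0).testBit (jt.getD w 0) = true ∧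
        (rows.getD (jf.getD v 0) 0).testBit (jf.getD w 0) = true)
    (c9 : ∀ r ∈ zl.flatMap (fl m), (p : ℤ) ∣ fs (zl.flatMap (fl m)) r.1)
    (c10 : ∃ q ∈ zl, ¬ (p : ℤ) ∣ fs zl q.1)
    (c11 : ∀ v < m, ∀ w < m, κ.getD v 0 = κ.getD w 0 → (rows.getD (jt.getD v 0) 0).testBit (jt.getD w 0) = false ∧
        (rows.getD (jt.getD v 0) 0).testBit (jf.getD w 0) = false ∧
        (rows.getD (jf.getD v 0) 0).testBit (jt.getD w 0) = false ∧
        (rows.getD (jf.getD v 0) 0).testBit (jf.getD w 0) = false) :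
    ∃ (N : ℕ) (H : SimpleGraph (Fin N)), Good (2 * d + 1) (cl H) ∧ ∃ (Z : Dbl (ZMod p) H d) (κ' : Fin Z.n → Fin (d + 1)),
      Z.U.card = (ms m Um).card ∧ ∀ v w a b, H.Adj (Z.j v a) (Z.j w b) → κ' v ≠ κ' w := by
  obtain ⟨F, e1, e2, e3, e4⟩ := hG
  obtain ⟨row, hrow⟩ : ∃ row : ℕ → ℕ, row = fun i => rows.getD i 0 := ⟨_, rfl⟩
  have hr : ∀ i, rows.getD i 0 = row i := fun i => by rw [hrow]
  rw [← hrow] at c1
  simp only [hr] at c2 c6 c7 c8 c11
  have hFh : ∀ f ∈ F, f < 2 ^ h := fun f hf => (e3 f hf).trans_le (Nat.pow_le_pow_right (by norm_num) hMh)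
  have ht : ∀ s, tst h n N s = true → ms (M + 1) s ∈ XF (M + 1) F := by
    intro s hs
    unfold tst at hs
    obtain ⟨g1, g2⟩ := cond_false'' hs
    have hs' : s < 2 ^ h := by
      by_contra h'
      have g1' : Nat.ble (2 ^ h) s = false := g1
      rw [ble_of (not_lt.1 h')] at g1'
      exact Bool.noConfusion g1'
    have g3 : nl s (ones (h + 1) n) (Nat.mul (Nat.sub (Nat.pow 2 h) 1) (ones (h + 1) n))
      (Nat.mul (Nat.pow 2 h) (ones (h + 1) n)) (enc (h + 1) F) = false := by
      rw [e1]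
      exact (cond_false'' g2).1
    obtain ⟨f, g4, g5⟩ := nl_false F e2 hFh hs' g3
    exact ⟨f, g4, sub_of g5⟩
  -- all the subsets of the used vertices which are cliques belong to `X`
  have hcl : ∀ T : Finset (Fin (M + 1)), T ⊆ ms (M + 1) used → (GR (M + 1) row).IsClique (T : Set (Fin (M + 1))) →
      T ∈ XF (M + 1) F := by
    intro T hT hT2
    have := ck_spec ht _ _ _ c1 T hT hT2
    rwa [ms_zero, Finset.empty_union] at this
  -- membership of the vertices
  have hv1 : ∀ i : Fin (M + 1), used.testBit i = true → {i} ∈ XF (M + 1) F := by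
    intro i hi
    exact hcl {i} (by rw [Finset.singleton_subset_iff]; exact mem_ms.2 hi) (by simp)
  have hemp : ∅ ∈ XF (M + 1) F := by
    apply hcl ∅ (Finset.empty_subset _)
    simp
  have hA : ∀ T : Finset (Fin (M + 1)), (GR (M + 1) row).IsClique (T : Set (Fin (M + 1))) →
      (∀ u ∈ T, {u} ∈ XF (M + 1) F) → T ∈ XF (M + 1) F := by
    intro T hT hT2
    by_cases h1 : T ⊆ ms (M + 1) used
    · exact hcl T h1 hT
    · obtain ⟨x, hx, hx2⟩ := Finset.not_subset.1 h1
      have h2 : used.testBit x = false := by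
        rw [mem_ms, Bool.not_eq_true] at hx2
        exact hx2
      have h3 := c2 x x.2 h2
      have h4 : T = {x} := by
        rw [Finset.eq_singleton_iff_unique_mem]
        refine ⟨hx, fun y hy => ?_⟩
        by_contra h5
        have h6 := hT hx hy (Ne.symm h5)
        have h7 := h6.2.1
        rw [h3, Nat.zero_testBit] at h7
        exact Bool.noConfusion h7
      rw [h4]
      exact hT2 x hx
  let jj : Fin m → Bool → Fin (M + 1) := fun v a =>
    if a = true then ⟨jt.getD v 0, (c3 v v.2).1⟩ else ⟨jf.getD v 0, (c3 v v.2).2.1⟩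
  have jT : ∀ v : Fin m, jj v true = ⟨jt.getD v 0, (c3 v v.2).1⟩ := fun v => if_pos rfl
  have jF : ∀ v : Fin m, jj v false = ⟨jf.getD v 0, (c3 v v.2).2.1⟩ := fun v => if_neg (by simp)
  -- the cycle
  have hzlt : ∀ q ∈ zl, q.1 < 2 ^ m := fun q hq => (c8 q hq).1
  have hcard : ∀ q ∈ zl, (ms m q.1).card = d + 1 := by
    intro q hq
    rw [← (c8 q hq).2.1]
    have h1 : (ms m q.1).card = ((Finset.range m).filter fun i => q.1.testBit i = true).card := by
      refine Finset.card_bij (fun u _ => (u : ℕ)) ?_ ?_ ?_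
      · intro u hu
        rw [Finset.mem_filter, Finset.mem_range]
        exact ⟨u.2, mem_ms.1 hu⟩
      · intro u _ w _ h
        exact Fin.ext h
      · intro i hi
        rw [Finset.mem_filter, Finset.mem_range] at hi
        exact ⟨⟨i, hi.1⟩, mem_ms.2 hi.2, rfl⟩
    have h2 : (Finset.range m).filter (fun i => q.1.testBit i = true) =
        ((List.range m).filter fun i => q.1.testBit i).toFinset := by
      ext i
      simp
    rw [h1, h2, List.toFinset_card_of_nodup (List.nodup_range.filter _)]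
  refine final (M + 1) (XF (M + 1) F) e4 (GR (M + 1) row) hA m jj ?_ ?_ (ms m Um) ?_ ?_ ?_ (zc p m zl) ?_ ?_
    (zc_cyc p m zl hzlt c9) ?_ (fun v => ⟨κ.getD v 0, (c3 v v.2).2.2.2.2⟩) ?_
  · intro v a
    cases a
    · rw [jF]
      exact hv1 _ (c3 v v.2).2.2.2.1
    · rw [jT]
      exact hv1 _ (c3 v v.2).2.2.1
  · intro v w hvw a b
    have h1 := c4 v v.2 w w.2 fun e => hvw (Fin.ext e)
    cases a <;> cases b
    · rw [jF, jF]; exact fun e => h1.2.2.2 (congrArg Fin.val e)
    · rw [jF, jT]; exact fun e => h1.2.2.1 (congrArg Fin.val e)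
    · rw [jT, jF]; exact fun e => h1.2.1 (congrArg Fin.val e)
    · rw [jT, jT]; exact fun e => h1.1 (congrArg Fin.val e)
  · intro v hv
    rw [jT, jF]
    exact Fin.ext (c5 v v.2 (mem_ms.1 hv))
  · intro v hv
    rw [mem_ms, Bool.not_eq_true] at hv
    have h1 := c6 v v.2 hv
    rw [jT, jF]
    refine ⟨fun e => h1.1 (congrArg Fin.val e), fun e => ?_⟩
    have h2 := e.2.1
    have h3 : (row (jt.getD v 0)).testBit (jf.getD v 0) = true := h2
    rw [h1.2] at h3
    exact Bool.noConfusion h3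
  · intro v hv w hw hvw
    have hne : (v : ℕ) ≠ w := fun e => hvw (Fin.ext e)
    have h1 := c7 v v.2 w w.2 (mem_ms.1 hv) (mem_ms.1 hw) hne
    have h2 := c7 w w.2 v v.2 (mem_ms.1 hw) (mem_ms.1 hv) (Ne.symm hne)
    rw [jT, jT]
    exact ⟨fun e => (c4 v v.2 w w.2 hne).1 (congrArg Fin.val e), h1, h2⟩
  · obtain ⟨q, hq, hq2⟩ := c10
    intro e
    have e2 : zc p m zl (ms m q.1) = 0 := by rw [e]; rfl
    apply hq2
    rw [← CharP.intCast_eq_zero_iff (ZMod p) p]
    refine Eq.trans ?_ e2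
    unfold fs zc
    have key : ∀ l : List (ℕ × ℤ), (∀ s ∈ l, s.1 < 2 ^ m) →
        (((l.map fun s => if s.1 = q.1 then s.2 else 0).sum : ℤ) : ZMod p) =
        (l.map fun s => if ms m s.1 = ms m q.1 then (s.2 : ZMod p) else 0).sum := by
      intro l
      induction l with
      | nil => intro _; simp
      | cons s l ih =>
        intro hl
        rw [List.map_cons, List.sum_cons, List.map_cons, List.sum_cons, Int.cast_add,
          ih fun s hs => hl s (List.mem_cons_of_mem _ hs)]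
        congr 1
        by_cases h2 : s.1 = q.1
        · rw [if_pos h2, if_pos (by rw [h2])]
        · rw [if_neg h2, if_neg fun h3 => h2 (ms_inj (hl s List.mem_cons_self) (hzlt q hq) h3), Int.cast_zero]
    exact key _ hzlt
  · intro σ hσ
    obtain ⟨q, hq, rfl⟩ := zc_mem hσ
    exact hcard q hq
  · intro σ hσ v hv w hw hvw a b
    obtain ⟨q, hq, rfl⟩ := zc_mem hσ
    have hne : (v : ℕ) ≠ w := fun e => hvw (Fin.ext e)
    obtain ⟨g1, g2, g3, g4⟩ := (c8 q hq).2.2 v v.2 w w.2 (mem_ms.1 hv) (mem_ms.1 hw) hne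
    obtain ⟨k1, k2, k3, k4⟩ := (c8 q hq).2.2 w w.2 v v.2 (mem_ms.1 hw) (mem_ms.1 hv) (Ne.symm hne)
    have h1 := c4 v v.2 w w.2 hne
    cases a <;> cases b
    · rw [jF, jF]; exact ⟨fun e => h1.2.2.2 (congrArg Fin.val e), g4, k4⟩
    · rw [jF, jT]; exact ⟨fun e => h1.2.2.1 (congrArg Fin.val e), g3, k2⟩
    · rw [jT, jF]; exact ⟨fun e => h1.2.1 (congrArg Fin.val e), g2, k3⟩
    · rw [jT, jT]; exact ⟨fun e => h1.1 (congrArg Fin.val e), g1, k1⟩
  · intro v w a b hadj e
    have e' : κ.getD v 0 = κ.getD w 0 := congrArg Fin.val e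
    obtain ⟨g1, g2, g3, g4⟩ := c11 v v.2 w w.2 e'
    have h2 := hadj.2.1
    cases a <;> cases b
    · rw [jF, jF] at h2
      have h3 : (row (jf.getD v 0)).testBit (jf.getD w 0) = true := h2
      rw [g4] at h3; exact Bool.noConfusion h3
    · rw [jF, jT] at h2
      have h3 : (row (jf.getD v 0)).testBit (jt.getD w 0) = true := h2
      rw [g3] at h3; exact Bool.noConfusion h3
    · rw [jT, jF] at h2
      have h3 : (row (jt.getD v 0)).testBit (jf.getD w 0) = true := h2
      rw [g2] at h3; exact Bool.noConfusion h3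
    · rw [jT, jT] at h2
      have h3 : (row (jt.getD v 0)).testBit (jt.getD w 0) = true := h2
      rw [g1] at h3; exact Bool.noConfusion h3

end Pool.Agent.H944.FS
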