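import Pool.Agent.H944.FS1

/-!
# Stellar moves and homology of families of simplices, part 2: stellar subdivisions and flips
-/

set_option autoImplicit false

noncomputable section

namespace Pool.Agent.H944.FS

open Module Pool.Agent.W907.SG

section cx

variable {V : Type} [DecidableEq V]

/-- simplicial complexes -/
def IsCx (X : Set (Finset V)) : Prop := ∀ S T, T ∈ X → S ⊆ T → S ∈ X

omit [DecidableEq V] in
theorem IsCx.cvx {X : Set (Finset V)} (hX : IsCx X) : Cvx X := fun _ T R _ hR _ h => hX T R hR h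

/-- the open star of a simplex -/
def up (X : Set (Finset V)) (S : Finset V) : Set (Finset V) := {T | T ∈ X ∧ S ⊆ T}

omit [DecidableEq V] in
theorem IsCx.up_cvx {X : Set (Finset V)} (hX : IsCx X) (S : Finset V) : Cvx (up X S) :=
  fun _ _ _ hS hR h1 h2 => ⟨hX _ _ hR.1 h2, hS.2.trans h1⟩

/-- the stellar subdivision at the simplex `σ` with the new vertex `v` -/
def star (X : Set (Finset V)) (σ : Finset V) (v : V) : Set (Finset V) :=
  {T | (v ∉ T ∧ T ∈ X ∧ ¬ σ ⊆ T) ∨ (v ∈ T ∧ T.erase v ∪ σ ∈ X ∧ ¬ σ ⊆ T.erase v)}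

theorem star_not {X : Set (Finset V)} {σ T : Finset V} {v : V} (h : v ∉ T) :
    T ∈ star X σ v ↔ T ∈ X ∧ ¬ σ ⊆ T := by
  unfold star
  simp [h]

theorem star_mem {X : Set (Finset V)} {σ T : Finset V} {v : V} (h : v ∈ T) :
    T ∈ star X σ v ↔ T.erase v ∪ σ ∈ X ∧ ¬ σ ⊆ T.erase v := by
  unfold star
  simp [h]

theorem IsCx.star {X : Set (Finset V)} (hX : IsCx X) (σ : Finset V) (v : V) : IsCx (star X σ v) := by
  intro S T hT hST
  by_cases hvT : v ∈ T
  · rw [star_mem hvT] at hT
    by_cases hvS : v ∈ S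
    · rw [star_mem hvS]
      exact ⟨hX _ _ hT.1 (Finset.union_subset_union_left (Finset.erase_subset_erase v hST)),
        fun h => hT.2 (h.trans (Finset.erase_subset_erase v hST))⟩
    · rw [star_not hvS]
      have h1 : S ⊆ T.erase v := fun x hx => Finset.mem_erase.2 ⟨fun e => hvS (e ▸ hx), hST hx⟩
      exact ⟨hX _ _ hT.1 (h1.trans Finset.subset_union_left), fun h => hT.2 (h.trans h1)⟩
  · rw [star_not hvT] at hT
    have hvS : v ∉ S := fun h => hvT (hST h)
    rw [star_not hvS]
    exact ⟨hX _ _ hT.1 hST, fun h => hT.2 (h.trans hST)⟩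

/-- the data of a bistellar flip -/
structure Flip (X : Set (Finset V)) (α β : Finset V) : Prop where
  ne : α.Nonempty
  disj : Disjoint α β
  mem : α ∈ X
  link : ∀ R, Disjoint α R → (α ∪ R ∈ X ↔ R ⊂ β)
  notMem : β ∉ X

/-- the result of the flip -/
def flip (X : Set (Finset V)) (α β : Finset V) : Set (Finset V) :=
  {T | ¬ α ⊆ T ∧ (T ∈ X ∨ T ⊆ α ∪ β)}

theorem flip_star {X : Set (Finset V)} (hX : IsCx X) {α β : Finset V} (h : Flip X α β) (v : V)
    (hv : ∀ T ∈ X, v ∉ T) : star (flip X α β) β v = star X α v := by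
  have hvα : v ∉ α := hv α h.mem
  ext T
  by_cases hvT : v ∈ T
  · rw [star_mem hvT, star_mem hvT]
    set T0 := T.erase v with hT0
    have e1 : (T0 ∪ α ∈ X ↔ T0 \ α ⊂ β) := by
      rw [← h.link (T0 \ α) Finset.disjoint_sdiff, Finset.union_sdiff_self_eq_union, Finset.union_comm]
    rw [e1]
    constructor
    · rintro ⟨⟨h1, h2⟩, h3⟩
      have h4 : T0 ∪ β ⊆ α ∪ β := by
        rcases h2 with h2 | h2
        · exact absurd (hX _ _ h2 Finset.subset_union_right) h.notMem
        · exact h2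
      refine ⟨⟨?_, ?_⟩, fun h5 => h1 (h5.trans Finset.subset_union_left)⟩
      · intro x hx
        rw [Finset.mem_sdiff] at hx
        have := h4 (Finset.mem_union_left _ hx.1)
        rw [Finset.mem_union] at this
        exact this.resolve_left hx.2
      · intro h5
        exact h3 (h5.trans Finset.sdiff_subset)
    · rintro ⟨h1, h2⟩
      have h6 : T0 ⊆ α ∪ β := by
        intro x hx
        by_cases hxα : x ∈ α
        · exact Finset.mem_union_left _ hxα
        · exact Finset.mem_union_right _ (h1.1 (Finset.mem_sdiff.2 ⟨hx, hxα⟩))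
      refine ⟨⟨fun h5 => h2 fun x hx => ?_, Or.inr ?_⟩, fun h5 => h1.2 fun x hx => ?_⟩
      · have := h5 hx
        rw [Finset.mem_union] at this
        exact this.resolve_right fun h7 => Finset.disjoint_left.1 h.disj hx h7
      · exact Finset.union_subset h6 Finset.subset_union_right
      · exact Finset.mem_sdiff.2 ⟨h5 hx, fun h7 => Finset.disjoint_left.1 h.disj h7 hx⟩
  · rw [star_not hvT, star_not hvT]
    constructor
    · rintro ⟨⟨h1, h2⟩, h3⟩
      refine ⟨?_, h1⟩
      rcases h2 with h2 | h2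
      · exact h2
      · have h4 : α ∪ (T ∩ β) ∈ X := by
          rw [h.link _ (Disjoint.mono_right Finset.inter_subset_right h.disj)]
          exact ⟨Finset.inter_subset_right, fun h5 => h3 (h5.trans Finset.inter_subset_left)⟩
        refine hX _ _ h4 fun x hx => ?_
        have := h2 hx
        rw [Finset.mem_union] at this ⊢
        exact this.imp id fun h6 => Finset.mem_inter.2 ⟨hx, h6⟩
    · rintro ⟨h1, h2⟩
      exact ⟨⟨h2, Or.inl h1⟩, fun h3 => h.notMem (hX _ _ h1 h3)⟩

theorem IsCx.flip {X : Set (Finset V)} (hX : IsCx X) (α β : Finset V) : IsCx (flip X α β) := by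
  rintro S T ⟨h1, h2⟩ h3
  exact ⟨fun h => h1 (h.trans h3), h2.imp (fun h => hX _ _ h h3) fun h => h3.trans h⟩

end cx

variable {V : Type} [Fintype V] [LinearOrder V]

/-- homology manifold with the homology of the sphere -/
def HS (k : ℕ) (X : Set (Finset V)) : Prop := ∀ S ∈ X, ∀ i, rb (up X S) i = if i = k then 1 else 0

theorem rb_starA {X : Set (Finset V)} (hX : IsCx X) {σ S : Finset V} {v : V} (hv : ∀ T ∈ X, v ∉ T)
    (hS : S ∈ X) (hσS : ¬ σ ⊆ S) (i : ℕ) : rb (up X S) i = rb (up (star X σ v) S) i := by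
  obtain ⟨x, hxσ, hxS⟩ := Finset.not_subset.1 hσS
  set C : Set (Finset V) := {T | T ∈ X ∧ S ⊆ T ∧ T ∪ σ ∉ X} with hC
  have hvS := hv S hS
  have e1 : rb (up X S) i = rb C i := by
    have hU : Up C (up X S) := by
      refine ⟨fun T hT => ⟨hT.1, hT.2.1⟩, fun T T' hT hT' h => ?_⟩
      exact ⟨hT'.1, hT'.2, fun h' => hT.2.2 (hX _ _ h' (Finset.union_subset_union_left h))⟩
    refine rb_upper (hX.up_cvx S) hU ?_ i
    have e : up X S \ C = {T | T ∈ X ∧ S ⊆ T ∧ T ∪ σ ∈ X} := by
      ext T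
      simp only [up, hC, Set.mem_sdiff, Set.mem_ofPred_eq]
      tauto
    rw [e]
    refine acy_cone x ?_ ?_
    · rintro T ⟨h1, h2, h3⟩
      refine ⟨hX _ _ h3 (Finset.insert_subset (Finset.mem_union_right _ hxσ) Finset.subset_union_left),
        h2.trans (Finset.subset_insert _ _), ?_⟩
      have : insert x T ∪ σ = T ∪ σ := by
        rw [Finset.insert_union, Finset.insert_eq_of_mem (Finset.mem_union_right _ hxσ)]
      rw [this]
      exact h3
    · rintro T ⟨h1, h2, h3⟩
      exact ⟨hX _ _ h1 (Finset.erase_subset _ _), fun y hy => Finset.mem_erase.2 ⟨fun e => hxS (e ▸ hy), h2 hy⟩,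
        hX _ _ h3 (Finset.union_subset_union_left (Finset.erase_subset _ _))⟩
  have e2 : rb (up (star X σ v) S) i = rb C i := by
    refine rb_upper ((hX.star σ v).up_cvx S) ⟨fun T hT => ⟨?_, hT.2.1⟩, fun T T' hT hT' h => ?_⟩ ?_ i
    · rw [star_not (hv T hT.1)]
      refine ⟨hT.1, fun h => hT.2.2 ?_⟩
      rw [Finset.union_eq_left.2 h]
      exact hT.1
    · obtain ⟨h1, h2⟩ := hT'
      have hvT : v ∉ T := hv T hT.1
      by_cases hvT' : v ∈ T'
      · rw [star_mem hvT'] at h1
        exact absurd (hX _ _ h1.1 (Finset.union_subset_union_left fun y hy =>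
          Finset.mem_erase.2 ⟨fun e => hvT (e ▸ hy), h hy⟩)) hT.2.2
      · rw [star_not hvT'] at h1
        exact ⟨h1.1, h2, fun h3 => hT.2.2 (hX _ _ h3 (Finset.union_subset_union_left h))⟩
    · refine acy_cone v ?_ ?_
      · rintro T ⟨⟨h1, h2⟩, h3⟩
        have hn : insert v T ∉ C := fun h => hv _ h.1 (Finset.mem_insert_self _ _)
        refine ⟨⟨?_, h2.trans (Finset.subset_insert _ _)⟩, hn⟩
        by_cases hvT : v ∈ T
        · rwa [Finset.insert_eq_of_mem hvT]
        · rw [star_mem (Finset.mem_insert_self _ _), Finset.erase_insert hvT]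
          rw [star_not hvT] at h1
          refine ⟨?_, h1.2⟩
          by_contra h4
          exact h3 ⟨h1.1, h2, h4⟩
      · rintro T ⟨⟨h1, h2⟩, h3⟩
        by_cases hvT : v ∈ T
        · have h1' := (star_mem hvT).1 h1
          refine ⟨⟨?_, fun y hy => Finset.mem_erase.2 ⟨fun e => hvS (e ▸ hy), h2 hy⟩⟩, fun h => h.2.2 h1'.1⟩
          rw [star_not (Finset.notMem_erase v T)]
          exact ⟨hX _ _ h1'.1 Finset.subset_union_left, h1'.2⟩
        · rw [Finset.erase_eq_of_notMem hvT]
          exact ⟨⟨h1, h2⟩, h3⟩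
  rw [e1, e2]

theorem rb_starB {X : Set (Finset V)} (hX : IsCx X) {σ S : Finset V} {v : V} (hv : ∀ T ∈ X, v ∉ T)
    (hS : S ∪ σ ∈ X) (hσS : ¬ σ ⊆ S) (i : ℕ) :
    rb (up (star X σ v) (insert v S)) i = rb (up X (S ∪ σ)) i := by
  obtain ⟨x, hxσ, hxS⟩ := Finset.not_subset.1 hσS
  have hvS : v ∉ S := fun h => hv _ hS (Finset.mem_union_left _ h)
  have hvσ : v ∉ σ := fun h => hv _ hS (Finset.mem_union_right _ h)
  have hxv : x ≠ v := fun e => hvσ (e ▸ hxσ)
  set G : Set (Finset V) := {T | v ∈ T ∧ S ⊆ T.erase v ∧ T.erase v ∪ σ ∈ X} with hG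
  set C : Set (Finset V) := {T | v ∈ T ∧ T.erase v ∈ up X (S ∪ σ)} with hC
  have hGc : Cvx G := by
    rintro S' T R ⟨h1, h2, h3⟩ ⟨h4, h5, h6⟩ h7 h8
    exact ⟨h7 h1, h2.trans (Finset.erase_subset_erase v h7),
      hX _ _ h6 (Finset.union_subset_union_left (Finset.erase_subset_erase v h8))⟩
  have hup : Up C G := by
    constructor
    · rintro T ⟨h1, h2, h3⟩
      refine ⟨h1, Finset.subset_union_left.trans h3, ?_⟩
      rw [Finset.union_eq_left.2 (Finset.subset_union_right.trans h3)]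
      exact h2
    · rintro T T' ⟨h1, h2, h3⟩ ⟨h4, h5, h6⟩ h
      have h7 : T.erase v ⊆ T'.erase v := Finset.erase_subset_erase v h
      exact ⟨h4, hX _ _ h6 Finset.subset_union_left, h3.trans h7⟩
  have hac : Acy G := by
    refine acy_cone x ?_ ?_
    · rintro T ⟨h1, h2, h3⟩
      refine ⟨Finset.mem_insert_of_mem h1, h2.trans (Finset.erase_subset_erase v (Finset.subset_insert _ _)), ?_⟩
      have : (insert x T).erase v ∪ σ = T.erase v ∪ σ := by
        rw [Finset.erase_insert_of_ne hxv, Finset.insert_union,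
          Finset.insert_eq_of_mem (Finset.mem_union_right _ hxσ)]
      rw [this]
      exact h3
    · rintro T ⟨h1, h2, h3⟩
      refine ⟨Finset.mem_erase.2 ⟨hxv.symm, h1⟩, fun y hy => ?_,
        hX _ _ h3 (Finset.union_subset_union_left (Finset.erase_subset_erase v (Finset.erase_subset _ _)))⟩
      have := Finset.mem_erase.1 (h2 hy)
      exact Finset.mem_erase.2 ⟨this.1, Finset.mem_erase.2 ⟨fun e => hxS (e ▸ hy), this.2⟩⟩
  have e1 := rb_conn hGc hup hac i
  have e2 := rb_ins (hX.up_cvx (S ∪ σ)) v (fun T hT => hv T hT.1) i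
  have e3 : G \ C = up (star X σ v) (insert v S) := by
    ext T
    constructor
    · rintro ⟨⟨h1, h2, h3⟩, h4⟩
      refine ⟨(star_mem h1).2 ⟨h3, fun h5 => h4 ⟨h1, hX _ _ h3 Finset.subset_union_left,
        Finset.union_subset h2 h5⟩⟩, ?_⟩
      exact Finset.insert_subset h1 (h2.trans (Finset.erase_subset _ _))
    · rintro ⟨h1, h2⟩
      have h3 : v ∈ T := h2 (Finset.mem_insert_self _ _)
      rw [star_mem h3] at h1
      refine ⟨⟨h3, fun y hy => Finset.mem_erase.2 ⟨fun e => hvS (e ▸ hy), h2 (Finset.mem_insert_of_mem hy)⟩, h1.1⟩,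
        fun h4 => h1.2 (Finset.subset_union_right.trans h4.2.2)⟩
  rw [← e3, ← e1, ← e2]

theorem HS_star {X : Set (Finset V)} (hX : IsCx X) {σ : Finset V} (hne : σ.Nonempty) {v : V}
    (hv : ∀ T ∈ X, v ∉ T) (k : ℕ) : HS k X ↔ HS k (star X σ v) := by
  constructor
  · intro h S hS i
    by_cases hvS : v ∈ S
    · have hS' := (star_mem hvS).1 hS
      have h1 := rb_starB hX hv hS'.1 hS'.2 i
      rw [Finset.insert_erase hvS] at h1
      rw [h1]
      exact h _ hS'.1 i
    · have hS' := (star_not hvS).1 hS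
      rw [← rb_starA hX hv hS'.1 hS'.2 i]
      exact h _ hS'.1 i
  · intro h S hS i
    have hvS := hv S hS
    by_cases hσS : σ ⊆ S
    · obtain ⟨x, hx⟩ := hne
      have h1 : S.erase x ∪ σ = S := by
        ext y
        simp only [Finset.mem_union, Finset.mem_erase]
        constructor
        · rintro (h | h)
          · exact h.2
          · exact hσS h
        · intro hy
          by_cases e : y = x
          · right; rw [e]; exact hx
          · left; exact ⟨e, hy⟩
      have h2 : ¬ σ ⊆ S.erase x := fun h => Finset.notMem_erase x S (h hx)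
      have h3 := rb_starB hX hv (show S.erase x ∪ σ ∈ X by rw [h1]; exact hS) h2 i
      rw [h1] at h3
      rw [← h3]
      refine h _ ?_ i
      rw [star_mem (Finset.mem_insert_self _ _), Finset.erase_insert fun h => hvS (Finset.mem_of_mem_erase h)]
      exact ⟨by rw [h1]; exact hS, h2⟩
    · rw [rb_starA hX hv hS hσS i]
      exact h _ ((star_not hvS).2 ⟨hS, hσS⟩) i

theorem rb_single (Ω : Finset V) (j : ℕ) : rb {Ω} j = if j = Ω.card then 1 else 0 := by
  have hb : ∀ i, ∀ c ∈ K {Ω} i, bS {Ω} c = 0 := by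
    intro i c hc
    funext T
    by_cases hT : T ∈ ({Ω} : Set (Finset V))
    · rw [bS_mem hT]
      refine Finset.sum_eq_zero fun v hv => ?_
      rw [hc, smul_zero]
      rintro ⟨h1, -⟩
      rw [Set.mem_singleton_iff] at h1 hT
      rw [hT] at h1 hv
      rw [← h1] at hv
      simp at hv
    · exact bS_not hT
  have h1 : B {Ω} j = ⊥ := by
    rw [eq_bot_iff]
    rintro _ ⟨b, hb', rfl⟩
    rw [hb _ b hb']
    exact Submodule.zero_mem _
  have h2 : Z {Ω} j = K {Ω} j := by
    refine le_antisymm inf_le_left fun c hc => ⟨hc, hb _ c hc⟩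
  unfold rb
  rw [h1, h2, finrank_bot, Nat.sub_zero]
  split_ifs with h
  · have h3 : K {Ω} j = Submodule.span ℝ {(Pi.single Ω 1 : Finset V → ℝ)} := by
      ext c
      rw [Submodule.mem_span_singleton, mem_K]
      constructor
      · intro hc
        refine ⟨c Ω, ?_⟩
        funext T
        by_cases hT : T = Ω
        · subst hT; simp
        · rw [hc T fun h' => hT h'.1]
          simp [hT]
      · rintro ⟨a, rfl⟩ T hT
        have : T ≠ Ω := fun e => hT ⟨e, by rw [e, h]⟩
        simp [this]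
    rw [h3]
    exact finrank_span_singleton (by
      intro e
      have := congrFun e Ω
      simp at this)
  · have h3 : K {Ω} j = ⊥ := by
      rw [eq_bot_iff]
      intro c hc
      funext T
      exact hc T fun h' => h (by
        have e : T = Ω := h'.1
        rw [← h'.2, e])
    rw [h3, finrank_bot]

/-- the boundary of a simplex -/
def bdS (Ω : Finset V) : Set (Finset V) := {T | T ⊂ Ω}

omit [Fintype V] [LinearOrder V] in
theorem IsCx_bdS (Ω : Finset V) : IsCx (bdS Ω) := fun _ _ hT h => lt_of_le_of_lt h hT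

theorem HS_bdS (Ω : Finset V) (k : ℕ) (h : Ω.card = k + 1) : HS k (bdS Ω) := by
  intro S hS i
  have hSΩ : S ⊂ Ω := hS
  obtain ⟨x, hxΩ, hxS⟩ := Finset.exists_of_ssubset hSΩ
  set G : Set (Finset V) := {T | T ⊆ Ω ∧ S ⊆ T} with hG
  have hGc : Cvx G := fun S' T R h1 h2 h3 h4 => ⟨h4.trans h2.1, h1.2.trans h3⟩
  have hup : Up {Ω} G := by
    constructor
    · intro T hT
      rw [Set.mem_singleton_iff] at hT
      subst hT
      exact ⟨subset_rfl, hSΩ.1⟩
    · intro T T' hT hT' h'
      rw [Set.mem_singleton_iff] at hT ⊢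
      subst hT
      exact le_antisymm hT'.1 h'
  have hac : Acy G := by
    refine acy_cone x ?_ ?_
    · rintro T ⟨h1, h2⟩
      exact ⟨Finset.insert_subset hxΩ h1, h2.trans (Finset.subset_insert _ _)⟩
    · rintro T ⟨h1, h2⟩
      exact ⟨(Finset.erase_subset _ _).trans h1, fun y hy => Finset.mem_erase.2 ⟨fun e => hxS (e ▸ hy), h2 hy⟩⟩
  have e1 := rb_conn hGc hup hac i
  have e2 : G \ {Ω} = up (bdS Ω) S := by
    ext T
    constructor
    · rintro ⟨⟨h1, h2⟩, h3⟩
      exact ⟨lt_of_le_of_ne h1 h3, h2⟩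
    · rintro ⟨h1, h2⟩
      have h1' : T ⊂ Ω := h1
      exact ⟨⟨h1'.1, h2⟩, h1'.ne⟩
  rw [← e2, ← e1, rb_single, h]
  simp

end Pool.Agent.H944.FS
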