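import Pool.Agent.H944.FS2

/-!
# Stellar moves, part 3: the realizations
-/

set_option autoImplicit false

noncomputable section

namespace Pool.Agent.H944.FS

open Module

section gen

variable {V : Type} [Fintype V]

open Classical in
/-- the support -/
def spt (x : V → ℝ) : Finset V := Finset.univ.filter fun v => x v ≠ 0

theorem mem_spt {x : V → ℝ} {v : V} : v ∈ spt x ↔ x v ≠ 0 := by
  unfold spt
  simp

/-- the realization -/
def RX (X : Set (Finset V)) : Set (V → ℝ) := {x | (∀ v, 0 ≤ x v) ∧ ∑ v, x v = 1 ∧ spt x ∈ X}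

/-- there is a homeomorphism to the unit sphere (a continuous bijection, the realization is compact) -/
def Emb (k : ℕ) (X : Set (Finset V)) : Prop :=
  ∃ f : (V → ℝ) → EuclideanSpace ℝ (Fin k), ContinuousOn f (RX X) ∧ (∀ x ∈ RX X, ‖f x‖ = 1) ∧
    Set.InjOn f (RX X) ∧ ∀ y, ‖y‖ = 1 → ∃ x ∈ RX X, f x = y

theorem Emb.comp {W : Type} [Fintype W] {k : ℕ} {X : Set (Finset V)} {Y : Set (Finset W)} (h : Emb k X)
    (g : (W → ℝ) → (V → ℝ)) (hc : Continuous g) (hm : ∀ y ∈ RX Y, g y ∈ RX X) (hi : Set.InjOn g (RX Y))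
    (hs : ∀ x ∈ RX X, ∃ y ∈ RX Y, g y = x) : Emb k Y := by
  obtain ⟨f, h1, h2, h3, h4⟩ := h
  refine ⟨f ∘ g, h1.comp hc.continuousOn hm, fun x hx => h2 _ (hm x hx), h3.comp hi hm, fun y hy => ?_⟩
  obtain ⟨x, hx, rfl⟩ := h4 y hy
  obtain ⟨z, hz, rfl⟩ := hs x hx
  exact ⟨z, hz, rfl⟩

end gen

variable {V : Type} [Fintype V] [DecidableEq V]

/-- from the subdivision to the complex -/
def phi (σ : Finset V) (v : V) (x : V → ℝ) : V → ℝ :=
  fun u => if u = v then 0 else x u + (if u ∈ σ then x v / σ.card else 0)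

omit [Fintype V] in
theorem phi_cont (σ : Finset V) (v : V) : Continuous (phi σ v) := by
  refine continuous_pi fun u => ?_
  unfold phi
  by_cases h1 : u = v
  · simp only [h1, if_true]
    exact continuous_const
  · by_cases h2 : u ∈ σ
    · simp only [h1, h2, if_true, if_false]
      fun_prop
    · simp only [h1, h2, if_false]
      fun_prop

theorem sum_ite_mem (σ : Finset V) (a : ℝ) : ∑ u, (if u ∈ σ then a else 0) = σ.card * a := by
  rw [Finset.sum_ite_mem, Finset.univ_inter, Finset.sum_const, nsmul_eq_mul]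

theorem sum_phi {σ : Finset V} {v : V} (hne : σ.Nonempty) (hv : v ∉ σ) (x : V → ℝ) :
    ∑ u, phi σ v x u = ∑ u, x u := by
  have h0 : (σ.card : ℝ) ≠ 0 := by
    have := Finset.card_pos.2 hne
    positivity
  have h1 : ∀ u, phi σ v x u = (x u - (if u = v then x v else 0)) + (if u ∈ σ then x v / σ.card else 0) := by
    intro u
    unfold phi
    by_cases h : u = v
    · subst h; simp [hv]
    · simp [h]
  rw [Finset.sum_congr rfl fun u _ => h1 u, Finset.sum_add_distrib, Finset.sum_sub_distrib, sum_ite_mem,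
    Finset.sum_ite_eq' Finset.univ v, if_pos (Finset.mem_univ v)]
  field_simp
  ring

theorem phi_map {X : Set (Finset V)} (hX : IsCx X) {σ : Finset V} (hσ : σ ∈ X) (hne : σ.Nonempty) {v : V}
    (hv : ∀ T ∈ X, v ∉ T) {x : V → ℝ} (hx : x ∈ RX (star X σ v)) : phi σ v x ∈ RX X := by
  obtain ⟨h1, h2, h3⟩ := hx
  refine ⟨fun u => ?_, ?_, ?_⟩
  · unfold phi
    split_ifs
    · exact le_rfl
    · exact add_nonneg (h1 u) (div_nonneg (h1 v) (Nat.cast_nonneg _))
    · rw [add_zero]; exact h1 u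
  · rw [sum_phi hne (hv σ hσ), h2]
  · by_cases hvT : v ∈ spt x
    · rw [star_mem hvT] at h3
      refine hX _ _ h3.1 fun u hu => ?_
      rw [mem_spt] at hu
      rw [Finset.mem_union, Finset.mem_erase, mem_spt]
      unfold phi at hu
      by_cases e : u = v
      · simp [e] at hu
      · by_cases hs : u ∈ σ
        · right; exact hs
        · left; refine ⟨e, ?_⟩
          simpa [e, hs] using hu
    · rw [star_not hvT] at h3
      rw [mem_spt, not_not] at hvT
      refine hX _ _ h3.1 fun u hu => ?_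
      rw [mem_spt] at hu ⊢
      unfold phi at hu
      rw [hvT] at hu
      by_cases e : u = v
      · simp [e] at hu
      · simpa [e] using hu

theorem star_zero {X : Set (Finset V)} {σ : Finset V} {v : V} (hv : v ∉ σ) {x : V → ℝ}
    (hx : x ∈ RX (star X σ v)) : ∃ u ∈ σ, x u = 0 := by
  obtain ⟨h1, h2, h3⟩ := hx
  by_contra h
  push Not at h
  by_cases hvT : v ∈ spt x
  · rw [star_mem hvT] at h3
    exact h3.2 fun u hu => Finset.mem_erase.2 ⟨fun e => hv (e ▸ hu), mem_spt.2 (h u hu)⟩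
  · rw [star_not hvT] at h3
    exact h3.2 fun u hu => mem_spt.2 (h u hu)

theorem phi_inj {X : Set (Finset V)} {σ : Finset V} (hne : σ.Nonempty) {v : V}
    (hv : v ∉ σ) : Set.InjOn (phi σ v) (RX (star X σ v)) := by
  have h0 : (0 : ℝ) < σ.card := by exact_mod_cast Finset.card_pos.2 hne
  have key : ∀ x ∈ RX (star X σ v), ∀ y ∈ RX (star X σ v), phi σ v x = phi σ v y → y v ≤ x v := by
    intro x hx y hy e
    obtain ⟨u, hu, hxu⟩ := star_zero hv hx
    have huv : u ≠ v := fun e => hv (e ▸ hu)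
    have e1 := congrFun e u
    unfold phi at e1
    simp only [huv, hu, if_true, if_false, hxu, zero_add] at e1
    have h2 := hy.1 u
    have h3 : y v / σ.card ≤ x v / σ.card := by rw [e1]; linarith
    exact (div_le_div_iff_of_pos_right h0).1 h3
  intro x hx y hy e
  have e1 : x v = y v := le_antisymm (key y hy x hx e.symm) (key x hx y hy e)
  funext u
  by_cases h : u = v
  · rw [h, e1]
  · have e2 := congrFun e u
    unfold phi at e2
    simp only [h, if_false, e1] at e2
    exact add_right_cancel e2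

/-- from the complex to the subdivision -/
def psi (σ : Finset V) (hne : σ.Nonempty) (v : V) (y : V → ℝ) : V → ℝ :=
  fun u => if u = v then σ.card * σ.inf' hne y else y u - (if u ∈ σ then σ.inf' hne y else 0)

omit [Fintype V] in
theorem psi_cont (σ : Finset V) (hne : σ.Nonempty) (v : V) : Continuous (psi σ hne v) := by
  have hinf : Continuous fun y : V → ℝ => σ.inf' hne y :=
    Continuous.finset_inf'_apply (f := fun (u : V) (y : V → ℝ) => y u) hne fun i _ => continuous_apply i
  refine continuous_pi fun u => ?_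
  unfold psi
  by_cases h1 : u = v
  · simp only [h1, if_true]
    fun_prop
  · by_cases h2 : u ∈ σ
    · simp only [h1, h2, if_true, if_false]
      fun_prop
    · simp only [h1, h2, if_false]
      fun_prop

omit [Fintype V] in
theorem phi_psi {σ : Finset V} (hne : σ.Nonempty) {v : V} {y : V → ℝ} (hy : y v = 0) :
    phi σ v (psi σ hne v y) = y := by
  have h0 : (σ.card : ℝ) ≠ 0 := by
    have := Finset.card_pos.2 hne
    positivity
  funext u
  unfold phi psi
  by_cases h : u = v
  · simp [h, hy]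
  · by_cases hu : u ∈ σ
    · simp only [h, hu, if_true, if_false]
      field_simp
      ring
    · simp [h, hu]

theorem psi_map {X : Set (Finset V)} (hX : IsCx X) {σ : Finset V} (hσ : σ ∈ X) (hne : σ.Nonempty) {v : V}
    (hv : ∀ T ∈ X, v ∉ T) {y : V → ℝ} (hy : y ∈ RX X) : psi σ hne v y ∈ RX (star X σ v) := by
  obtain ⟨h1, h2, h3⟩ := hy
  have hyv : y v = 0 := by
    by_contra h
    exact hv _ h3 (mem_spt.2 h)
  have hvσ := hv σ hσ
  obtain ⟨m, hm⟩ : ∃ m, m = σ.inf' hne y := ⟨_, rfl⟩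
  have hm0 : 0 ≤ m := by rw [hm]; exact Finset.le_inf' _ _ fun u _ => h1 u
  have hmu : ∀ u ∈ σ, m ≤ y u := fun u hu => by rw [hm]; exact Finset.inf'_le _ hu
  obtain ⟨w, hw, hmw⟩ : ∃ w ∈ σ, y w = m := by
    obtain ⟨w, hw, h⟩ := Finset.exists_mem_eq_inf' hne y
    exact ⟨w, hw, by rw [hm, h]⟩
  have hp : ∀ u, psi σ hne v y u = if u = v then σ.card * m else y u - (if u ∈ σ then m else 0) := by
    intro u
    rw [hm]
    rfl
  have hwv : w ≠ v := fun e => hvσ (e ▸ hw)
  have hw0 : psi σ hne v y w = 0 := by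
    rw [hp, if_neg hwv, if_pos hw, hmw, sub_self]
  refine ⟨fun u => ?_, ?_, ?_⟩
  · rw [hp]
    split_ifs with a b
    · positivity
    · exact sub_nonneg.2 (hmu u b)
    · rw [sub_zero]; exact h1 u
  · have := sum_phi hne hvσ (psi σ hne v y)
    rw [phi_psi hne hyv, h2] at this
    exact this.symm
  · by_cases h0 : m = 0
    · have e : spt (psi σ hne v y) = spt y := by
        ext u
        rw [mem_spt, mem_spt, hp, h0]
        by_cases e : u = v
        · simp [e, hyv]
        · simp [e]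
      rw [star_not (by rw [mem_spt, hp, h0]; simp), e]
      refine ⟨h3, fun h => ?_⟩
      have := mem_spt.1 (h hw)
      exact this (by rw [hmw, h0])
    · have hmp : 0 < m := lt_of_le_of_ne hm0 (Ne.symm h0)
      have hc : (0 : ℝ) < σ.card := by exact_mod_cast Finset.card_pos.2 hne
      rw [star_mem (by rw [mem_spt, hp, if_pos rfl]; positivity)]
      constructor
      · refine hX _ _ h3 fun u hu => ?_
        rw [Finset.mem_union, Finset.mem_erase, mem_spt, hp] at hu
        rw [mem_spt]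
        rcases hu with ⟨h4, h5⟩ | hu
        · rw [if_neg h4] at h5
          by_cases hus : u ∈ σ
          · have := hmu u hus
            intro e
            linarith
          · simpa [hus] using h5
        · have := hmu u hu
          intro e
          linarith
      · intro h
        exact mem_spt.1 (Finset.mem_of_mem_erase (h hw)) hw0

theorem psi_inj {X : Set (Finset V)} {σ : Finset V} (hne : σ.Nonempty) {v : V}
    (hv : ∀ T ∈ X, v ∉ T) : Set.InjOn (psi σ hne v) (RX X) := by
  have hyv : ∀ y ∈ RX X, y v = 0 := by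
    rintro y ⟨-, -, h3⟩
    by_contra h
    exact hv _ h3 (mem_spt.2 h)
  intro x hx y hy e
  rw [← phi_psi hne (hyv x hx), e, phi_psi hne (hyv y hy)]

omit [DecidableEq V] in
theorem RX_zero {X : Set (Finset V)} {v : V} (hv : ∀ T ∈ X, v ∉ T) {y : V → ℝ} (hy : y ∈ RX X) : y v = 0 := by
  by_contra h
  exact hv _ hy.2.2 (mem_spt.2 h)

theorem Emb.to_star {X : Set (Finset V)} (hX : IsCx X) {σ : Finset V} (hσ : σ ∈ X) (hne : σ.Nonempty) {v : V}
    (hv : ∀ T ∈ X, v ∉ T) {k : ℕ} (h : Emb k X) : Emb k (star X σ v) :=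
  h.comp (phi σ v) (phi_cont σ v) (fun _ hy => phi_map hX hσ hne hv hy) (phi_inj hne (hv σ hσ)) fun x hx =>
    ⟨psi σ hne v x, psi_map hX hσ hne hv hx, phi_psi hne (RX_zero hv hx)⟩

theorem Emb.of_star {X : Set (Finset V)} (hX : IsCx X) {σ : Finset V} (hσ : σ ∈ X) (hne : σ.Nonempty) {v : V}
    (hv : ∀ T ∈ X, v ∉ T) {k : ℕ} (h : Emb k (star X σ v)) : Emb k X :=
  h.comp (psi σ hne v) (psi_cont σ hne v) (fun _ hy => psi_map hX hσ hne hv hy) (psi_inj hne hv) fun x hx => by
    have h1 := phi_map hX hσ hne hv hx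
    exact ⟨phi σ v x, h1, phi_inj hne (hv σ hσ) (psi_map hX hσ hne hv h1) hx (phi_psi hne (RX_zero hv h1))⟩

/-- the boundary of a simplex -/
theorem Emb_bdS (Ω : Finset V) (k : ℕ) (h : Ω.card = k + 1) : Emb k (bdS Ω) := by
  obtain ⟨e⟩ : Nonempty (Fin (k + 1) ≃ Ω) := ⟨(Fintype.equivFinOfCardEq (by simpa using h)).symm⟩
  set c : ℝ := 1 / (k + 1) with hc
  have hcp : 0 < c := by rw [hc]; positivity
  let g : (V → ℝ) → EuclideanSpace ℝ (Fin k) := fun x => WithLp.toLp 2 fun i => x (e i.castSucc) - c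
  have hg : Continuous g := by
    refine (PiLp.continuous_toLp 2 _).comp (continuous_pi fun i => ?_)
    fun_prop
  -- properties of points of the realization
  have hsum : ∀ x ∈ RX (bdS Ω), ∑ i : Fin (k + 1), (x (e i) - c) = 0 := by
    rintro x ⟨h1, h2, h3⟩
    have h4 : ∑ i : Fin (k + 1), x (e i) = 1 := by
      rw [← h2, Equiv.sum_comp e (fun u : Ω => x u), Finset.sum_coe_sort Ω x]
      refine Finset.sum_subset (Finset.subset_univ _) fun u _ hu => ?_
      by_contra h5
      have h3' : spt x ⊂ Ω := h3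
      exact hu (h3'.1 (mem_spt.2 h5))
    rw [Finset.sum_sub_distrib, h4]
    simp only [Finset.sum_const, Finset.card_univ, Fintype.card_fin, nsmul_eq_mul, hc]
    push_cast
    field_simp
    ring
  have hzero : ∀ x ∈ RX (bdS Ω), ∃ i, x (e i) = 0 := by
    rintro x ⟨h1, h2, h3⟩
    have h3' : spt x ⊂ Ω := h3
    obtain ⟨u, hu, hux⟩ := Finset.exists_of_ssubset h3'
    refine ⟨e.symm ⟨u, hu⟩, ?_⟩
    rw [Equiv.apply_symm_apply]
    by_contra h5
    exact hux (mem_spt.2 h5)
  have hlast : ∀ x ∈ RX (bdS Ω), ∀ y ∈ RX (bdS Ω), ∀ a : ℝ, (∀ i : Fin k, x (e i.castSucc) - c =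
      a * (y (e i.castSucc) - c)) → ∀ i, x (e i) - c = a * (y (e i) - c) := by
    intro x hx y hy a h5 i
    refine Fin.lastCases ?_ h5 i
    have e1 := hsum x hx
    have e2 := hsum y hy
    rw [Fin.sum_univ_castSucc] at e1 e2
    rw [Finset.sum_congr rfl fun i _ => h5 i, ← Finset.mul_sum] at e1
    linear_combination e1 - a * e2
  have hne : ∀ x ∈ RX (bdS Ω), g x ≠ 0 := by
    intro x hx h0
    have h5 : ∀ i : Fin k, x (e i.castSucc) - c = 0 * (x (e i.castSucc) - c) := by
      intro i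
      rw [zero_mul]
      exact congrFun (congrArg WithLp.ofLp h0) i
    obtain ⟨i, hi⟩ := hzero x hx
    have := hlast x hx x hx 0 h5 i
    rw [hi, zero_mul] at this
    linarith
  refine ⟨fun x => ‖g x‖⁻¹ • g x, ?_, ?_, ?_, ?_⟩
  · refine ContinuousOn.smul (ContinuousOn.inv₀ hg.norm.continuousOn fun x hx => ?_) hg.continuousOn
    exact norm_ne_zero_iff.2 (hne x hx)
  · intro x hx
    rw [norm_smul, norm_inv, norm_norm, inv_mul_cancel₀ (norm_ne_zero_iff.2 (hne x hx))]
  · have key : ∀ x ∈ RX (bdS Ω), ∀ y ∈ RX (bdS Ω), ‖g x‖⁻¹ • g x = ‖g y‖⁻¹ • g y →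
        ∃ a : ℝ, a = ‖g x‖ * ‖g y‖⁻¹ ∧ 1 ≤ a ∧ ∀ i, x (e i) - c = a * (y (e i) - c) := by
      intro x hx y hy h5
      have hx0 := norm_ne_zero_iff.2 (hne x hx)
      have h6 : g x = (‖g x‖ * ‖g y‖⁻¹) • g y := by
        rw [mul_smul, ← h5, smul_smul, mul_inv_cancel₀ hx0, one_smul]
      obtain ⟨a, ha⟩ : ∃ a : ℝ, a = ‖g x‖ * ‖g y‖⁻¹ := ⟨_, rfl⟩
      rw [← ha] at h6
      have h7 := hlast x hx y hy a fun i => congrFun (congrArg WithLp.ofLp h6) i
      have ha0 : 0 ≤ a := by rw [ha]; positivity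
      refine ⟨a, ha, ?_, h7⟩
      obtain ⟨i, hi⟩ := hzero x hx
      have h8 := h7 i
      have h9 := hy.1 (e i)
      rw [hi] at h8
      have h10 : c ≤ a * c := by nlinarith
      nlinarith
    intro x hx y hy h5
    have h5' : ‖g x‖⁻¹ • g x = ‖g y‖⁻¹ • g y := h5
    obtain ⟨a, ha, ha1, h6⟩ := key x hx y hy h5'
    obtain ⟨b, hb, hb1, -⟩ := key y hy x hx h5'.symm
    have hab : a * b = 1 := by
      have hx0 := norm_ne_zero_iff.2 (hne x hx)
      have hy0 := norm_ne_zero_iff.2 (hne y hy)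
      rw [ha, hb]
      field_simp
    have ha2 : a = 1 := by nlinarith
    funext u
    by_cases hu : u ∈ Ω
    · have := h6 (e.symm ⟨u, hu⟩)
      rw [Equiv.apply_symm_apply, ha2, one_mul] at this
      exact sub_left_injective this
    · have hz : ∀ z ∈ RX (bdS Ω), z u = 0 := by
        rintro z ⟨-, -, h3⟩
        by_contra h5
        have h3' : spt z ⊂ Ω := h3
        exact hu (h3'.1 (mem_spt.2 h5))
      rw [hz x hx, hz y hy]
  · intro y hy
    obtain ⟨w, hw⟩ : ∃ w : Fin (k + 1) → ℝ, w = Fin.snoc (fun i => y i) (-∑ i, y i) := ⟨_, rfl⟩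
    have hw1 : ∀ i : Fin k, w i.castSucc = y i := fun i => by rw [hw, Fin.snoc_castSucc]
    have hw2 : w (Fin.last k) = -∑ i, y i := by rw [hw, Fin.snoc_last]
    have hw3 : ∑ i, w i = 0 := by
      rw [Fin.sum_univ_castSucc, hw2, Finset.sum_congr rfl fun i _ => hw1 i]
      ring
    obtain ⟨i0, -, hi0⟩ := Finset.exists_min_image (Finset.univ : Finset (Fin (k + 1))) w ⟨0, Finset.mem_univ _⟩
    have hneg : w i0 < 0 := by
      by_contra h5
      push Not at h5
      have h6 : ∀ i, w i = 0 := by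
        have h7 : ∀ i ∈ (Finset.univ : Finset (Fin (k + 1))), 0 ≤ w i := fun i hi => h5.trans (hi0 i hi)
        exact fun i => (Finset.sum_eq_zero_iff_of_nonneg h7).1 hw3 i (Finset.mem_univ _)
      have h8 : y = 0 := by
        ext i
        rw [← hw1, h6]
        rfl
      rw [h8, norm_zero] at hy
      norm_num at hy
    obtain ⟨t, ht⟩ : ∃ t, t = c / (-w i0) := ⟨_, rfl⟩
    have htp : 0 < t := by rw [ht]; exact div_pos hcp (by linarith)
    have ht0 : c + t * w i0 = 0 := by
      have h0 : w i0 ≠ 0 := hneg.ne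
      rw [ht, div_neg, neg_mul, div_mul_cancel₀ _ h0, add_neg_cancel]
    obtain ⟨x, hx⟩ : ∃ x : V → ℝ, x = fun u => if hu : u ∈ Ω then c + t * w (e.symm ⟨u, hu⟩) else 0 := ⟨_, rfl⟩
    have hxe : ∀ i, x (e i) = c + t * w i := by
      intro i
      rw [hx]
      simp
    have hxn : ∀ u, u ∉ Ω → x u = 0 := by
      intro u hu
      rw [hx]
      simp [hu]
    have hx0 : ∀ i, 0 ≤ x (e i) := by
      intro i
      rw [hxe]
      have h5 := mul_le_mul_of_nonneg_left (hi0 i (Finset.mem_univ _)) htp.le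
      linarith
    have hxR : x ∈ RX (bdS Ω) := by
      refine ⟨fun u => ?_, ?_, ?_⟩
      · by_cases hu : u ∈ Ω
        · have h5 := hx0 (e.symm ⟨u, hu⟩)
          rwa [Equiv.apply_symm_apply] at h5
        · rw [hxn u hu]
      · have h4 : ∑ i : Fin (k + 1), x (e i) = 1 := by
          rw [Finset.sum_congr rfl fun i _ => hxe i, Finset.sum_add_distrib, ← Finset.mul_sum, hw3]
          simp only [Finset.sum_const, Finset.card_univ, Fintype.card_fin, nsmul_eq_mul, hc]
          push_cast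
          field_simp
          ring
        rw [← h4, Equiv.sum_comp e (fun u : Ω => x u), Finset.sum_coe_sort Ω x]
        symm
        refine Finset.sum_subset (Finset.subset_univ _) fun u _ hu => hxn u hu
      · show spt x ⊂ Ω
        rw [Finset.ssubset_iff_of_subset]
        · refine ⟨e i0, (e i0).2, fun h5 => ?_⟩
          rw [mem_spt, hxe, ht0] at h5
          exact h5 rfl
        · intro u hu
          by_contra h5
          exact mem_spt.1 hu (hxn u h5)
    refine ⟨x, hxR, ?_⟩
    have hgx : g x = t • y := by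
      ext i
      show x (e i.castSucc) - c = t * y i
      rw [hxe, hw1]
      ring
    show ‖g x‖⁻¹ • g x = y
    rw [hgx, norm_smul, hy, mul_one, Real.norm_eq_abs, abs_of_pos htp, smul_smul, inv_mul_cancel₀ htp.ne', one_smul]

end Pool.Agent.H944.FS
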