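import Pool.Agent.H944.FS3

/-!
# Stellar moves, part 4: spheres, flips, change of the vertex set
-/

set_option autoImplicit false

noncomputable section

namespace Pool.Agent.H944.FS

open Module Pool.Agent.W907.SG

/-- `PLSph k X`: the simplicial complex `X` is obtained from the boundary of a simplex with `k + 1` vertices by finitely
many stellar subdivisions, inverses of stellar subdivisions and changes of the names of the vertices; hence it is a
combinatorial (piecewise linear) sphere of dimension `k - 1`. -/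
inductive PLSph (k : ℕ) : ∀ {V : Type} [DecidableEq V], Set (Finset V) → Prop
  /-- the boundary of a simplex -/
  | bd {V : Type} [DecidableEq V] (Ω : Finset V) (h : Ω.card = k + 1) : PLSph k (bdS Ω)
  /-- stellar subdivision at the simplex `σ` with the new vertex `v` -/
  | sub {V : Type} [DecidableEq V] (X : Set (Finset V)) (σ : Finset V) (v : V) (hX : IsCx X) (hσ : σ ∈ X)
      (hne : σ.Nonempty) (hv : ∀ T ∈ X, v ∉ T) (h : PLSph k X) : PLSph k (star X σ v)
  /-- inverse of a stellar subdivision -/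
  | weld {V : Type} [DecidableEq V] (X : Set (Finset V)) (σ : Finset V) (v : V) (hX : IsCx X) (hσ : σ ∈ X)
      (hne : σ.Nonempty) (hv : ∀ T ∈ X, v ∉ T) (h : PLSph k (star X σ v)) : PLSph k X
  /-- change of the names of the vertices -/
  | ren {V W : Type} [DecidableEq V] [DecidableEq W] (e : W ↪ V) (Y : Set (Finset V))
      (hY : ∀ T ∈ Y, ∃ S : Finset W, S.map e = T) (h : PLSph k Y) : PLSph k {S : Finset W | S.map e ∈ Y}
  /-- change of the names of the vertices -/
  | ren' {V W : Type} [DecidableEq V] [DecidableEq W] (e : W ↪ V) (Y : Set (Finset V))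
      (hY : ∀ T ∈ Y, ∃ S : Finset W, S.map e = T) (h : PLSph k {S : Finset W | S.map e ∈ Y}) : PLSph k Y

/-- a complex with the properties that we need -/
structure Good {V : Type} [Fintype V] [LinearOrder V] (k : ℕ) (X : Set (Finset V)) : Prop where
  cx : IsCx X
  hs : HS k X
  emb : Emb k X
  pl : PLSph k X

section moves

variable {V : Type} [Fintype V] [LinearOrder V]

theorem Good.star {k : ℕ} {X : Set (Finset V)} (h : Good k X) {σ : Finset V} (hσ : σ ∈ X) (hne : σ.Nonempty) {v : V}
    (hv : ∀ T ∈ X, v ∉ T) : Good k (star X σ v) :=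
  ⟨h.cx.star σ v, (HS_star h.cx hne hv k).1 h.hs, h.emb.to_star h.cx hσ hne hv, .sub X σ v h.cx hσ hne hv h.pl⟩

theorem Good.of_star {k : ℕ} {X : Set (Finset V)} (hX : IsCx X) {σ : Finset V} (hσ : σ ∈ X) (hne : σ.Nonempty) {v : V}
    (hv : ∀ T ∈ X, v ∉ T) (h : Good k (FS.star X σ v)) : Good k X :=
  ⟨hX, (HS_star hX hne hv k).2 h.hs, h.emb.of_star hX hσ hne hv, .weld X σ v hX hσ hne hv h.pl⟩

theorem Good.flip {k : ℕ} {X : Set (Finset V)} (h : Good k X) {α β : Finset V} (hf : Flip X α β) {v : V}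
    (hv : ∀ T ∈ X, v ∉ T) (hvβ : v ∉ β) : Good k (flip X α β) := by
  have hvα := hv α hf.mem
  have hβ : β.Nonempty := by
    have h1 := (hf.link ∅ (Finset.disjoint_empty_right α)).1 (by rw [Finset.union_empty]; exact hf.mem)
    obtain ⟨x, hx, -⟩ := Finset.exists_of_ssubset h1
    exact ⟨x, hx⟩
  refine Good.of_star (h.cx.flip α β) (σ := β) (v := v) ⟨fun h1 => ?_, Or.inr Finset.subset_union_right⟩ hβ ?_ ?_
  · obtain ⟨x, hx⟩ := hf.ne
    exact Finset.disjoint_left.1 hf.disj hx (h1 hx)
  · rintro T ⟨-, h1 | h1⟩ h2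
    · exact hv T h1 h2
    · rcases Finset.mem_union.1 (h1 h2) with h3 | h3
      · exact hvα h3
      · exact hvβ h3
  · rw [flip_star h.cx hf v hv]
    exact h.star hf.mem hf.ne hv

theorem Good_bdS (Ω : Finset V) (k : ℕ) (h : Ω.card = k + 1) : Good k (bdS Ω) :=
  ⟨IsCx_bdS Ω, HS_bdS Ω k h, Emb_bdS Ω k h, .bd Ω h⟩

end moves

section transfer

variable {V W : Type} [Fintype V] [LinearOrder V] [Fintype W] [LinearOrder W]

omit [Fintype V] [Fintype W] in
theorem sg_map (e : W ↪o V) (w : W) (S : Finset W) : sg (e w) (S.map e.toEmbedding) = sg w S := by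
  unfold sg
  rw [Finset.filter_map, Finset.card_map]
  congr 2
  ext u
  simp

/-- pull back the chains -/
def pb (e : W ↪o V) : (Finset V → ℝ) →ₗ[ℝ] (Finset W → ℝ) where
  toFun c S := c (S.map e.toEmbedding)
  map_add' _ _ := rfl
  map_smul' _ _ := rfl

omit [Fintype V] [Fintype W] in
theorem pb_apply (e : W ↪o V) (c : Finset V → ℝ) (S : Finset W) : pb e c S = c (S.map e.toEmbedding) := rfl

/-- the pulled back family -/
def pf (e : W ↪o V) (Y : Set (Finset V)) : Set (Finset W) := {S | S.map e.toEmbedding ∈ Y}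

omit [Fintype V] [Fintype W] in
theorem pf_cvx (e : W ↪o V) {Y : Set (Finset V)} (h : Cvx Y) : Cvx (pf e Y) := fun _ _ _ h1 h2 h3 h4 =>
  h _ _ _ h1 h2 (Finset.map_subset_map.2 h3) (Finset.map_subset_map.2 h4)

open Classical in
/-- push forward the chains -/
def pu (e : W ↪o V) (c : Finset W → ℝ) : Finset V → ℝ := fun T =>
  if h : ∃ S : Finset W, S.map e.toEmbedding = T then c h.choose else 0

omit [Fintype V] in
theorem pu_map (e : W ↪o V) (c : Finset W → ℝ) (S : Finset W) : pu e c (S.map e.toEmbedding) = c S := by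
  unfold pu
  have h : ∃ S' : Finset W, S'.map e.toEmbedding = S.map e.toEmbedding := ⟨S, rfl⟩
  rw [dif_pos h]
  congr 1
  exact Finset.map_injective _ h.choose_spec

omit [Fintype V] in
theorem pu_not (e : W ↪o V) (c : Finset W → ℝ) {T : Finset V} (hT : ¬ ∃ S : Finset W, S.map e.toEmbedding = T) :
    pu e c T = 0 := dif_neg hT

omit [Fintype V] [Fintype W] in
theorem pb_K (e : W ↪o V) {Y : Set (Finset V)} {i : ℕ} {c : Finset V → ℝ} (hc : c ∈ K Y i) :
    pb e c ∈ K (pf e Y) i := fun S hS => hc _ fun h => hS ⟨h.1, by rw [← h.2, Finset.card_map]⟩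

theorem pu_K (e : W ↪o V) {Y : Set (Finset V)} {i : ℕ} {c : Finset W → ℝ} (hc : c ∈ K (pf e Y) i) :
    pu e c ∈ K Y i := by
  intro T hT
  by_cases h : ∃ S : Finset W, S.map e.toEmbedding = T
  · obtain ⟨S, rfl⟩ := h
    rw [pu_map]
    exact hc S fun h => hT ⟨h.1, by rw [Finset.card_map]; exact h.2⟩
  · exact pu_not e c h

theorem pb_bS (e : W ↪o V) {Y : Set (Finset V)} (hY : ∀ T ∈ Y, ∃ S : Finset W, S.map e.toEmbedding = T) {i : ℕ}
    {c : Finset V → ℝ} (hc : c ∈ K Y i) : pb e (bS Y c) = bS (pf e Y) (pb e c) := by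
  funext S
  rw [pb_apply]
  by_cases h : S ∈ pf e Y
  · have h' : S.map e.toEmbedding ∈ Y := h
    rw [bS_mem h', bS_mem h]
    have e1 : ∑ w ∈ Sᶜ, sg w S • pb e c (insert w S) =
        ∑ v ∈ Sᶜ.map e.toEmbedding, sg v (S.map e.toEmbedding) • c (insert v (S.map e.toEmbedding)) := by
      rw [Finset.sum_map]
      refine Finset.sum_congr rfl fun w _ => ?_
      rw [pb_apply, Finset.map_insert]
      show _ = sg (e w) (S.map e.toEmbedding) • _
      rw [sg_map]
    rw [e1]
    symm
    · refine (Finset.sum_subset ?_ ?_)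
      · intro v hv
        rw [Finset.mem_map] at hv
        obtain ⟨w, hw, rfl⟩ := hv
        rw [Finset.mem_compl] at hw ⊢
        rw [Finset.mem_map']
        exact hw
      · intro v hv hv'
        rw [hc, smul_zero]
        rintro ⟨h1, -⟩
        obtain ⟨S', hS'⟩ := hY _ h1
        have h2 : v ∈ S'.map e.toEmbedding := by rw [hS']; exact Finset.mem_insert_self _ _
        obtain ⟨w, hw, rfl⟩ := Finset.mem_map.1 h2
        refine hv' (Finset.mem_map.2 ⟨w, ?_, rfl⟩)
        rw [Finset.mem_compl] at hv ⊢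
        rwa [Finset.mem_map'] at hv
  · have h' : S.map e.toEmbedding ∉ Y := h
    rw [bS_not h', bS_not h]

theorem rb_pf (e : W ↪o V) {Y : Set (Finset V)} (hY : ∀ T ∈ Y, ∃ S : Finset W, S.map e.toEmbedding = T)
    (hc : Cvx Y) (i : ℕ) : rb Y i = rb (pf e Y) i := by
  have hup : ∀ j, ∀ c ∈ K Y j, pu e (pb e c) = c := by
    intro j c hc
    funext T
    by_cases h : ∃ S : Finset W, S.map e.toEmbedding = T
    · obtain ⟨S, rfl⟩ := h
      rw [pu_map, pb_apply]
    · rw [pu_not e _ h, hc T fun h' => h (hY _ h'.1)]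
  have hpu : ∀ c, pb e (pu e c) = c := fun c => by
    funext S
    rw [pb_apply, pu_map]
  refine abs_eq (Z Y i) (B Y i) (Z (pf e Y) i) (B (pf e Y) i) (B_le_Z hc i) (B_le_Z (pf_cvx e hc) i) (pb e) ?_ ?_ ?_ ?_
  · rintro c ⟨h1, h2⟩
    have h2' : bS Y c = 0 := h2
    refine ⟨pb_K e h1, ?_⟩
    show bS (pf e Y) (pb e c) = 0
    rw [← pb_bS e hY h1, h2', map_zero]
  · rintro _ ⟨b, hb, rfl⟩
    exact ⟨pb e b, pb_K e hb, (pb_bS e hY hb).symm⟩
  · rintro c ⟨h1, h2⟩ ⟨b, hb, h3⟩
    refine ⟨pu e b, pu_K e hb, ?_⟩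
    rw [← hup _ _ (bS_K (pu_K e hb)), pb_bS e hY (pu_K e hb), hpu, h3, hup _ _ h1]
  · rintro z ⟨h1, h2⟩
    have h2' : bS (pf e Y) z = 0 := h2
    refine ⟨pu e z, ⟨pu_K e h1, ?_⟩, ?_⟩
    · show bS Y (pu e z) = 0
      funext T
      by_cases hT : T ∈ Y
      · obtain ⟨S, rfl⟩ := hY T hT
        have := congrFun (pb_bS e hY (pu_K e h1)) S
        rw [hpu, h2'] at this
        exact this
      · exact bS_not hT
    · rw [hpu, sub_self]
      exact Submodule.zero_mem _

omit [Fintype V] [Fintype W] in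
theorem pf_up (e : W ↪o V) (Y : Set (Finset V)) (S : Finset W) :
    pf e (up Y (S.map e.toEmbedding)) = up (pf e Y) S := by
  ext T
  constructor
  · rintro ⟨h1, h2⟩
    exact ⟨h1, Finset.map_subset_map.1 h2⟩
  · rintro ⟨h1, h2⟩
    exact ⟨h1, Finset.map_subset_map.2 h2⟩

theorem Good_pf (e : W ↪o V) {Y : Set (Finset V)} (hY : ∀ T ∈ Y, ∃ S : Finset W, S.map e.toEmbedding = T) (k : ℕ) :
    Good k Y ↔ Good k (pf e Y) := by
  have hcx : IsCx Y ↔ IsCx (pf e Y) := by
    constructor
    · exact fun h S T h1 h2 => h _ _ h1 (Finset.map_subset_map.2 h2)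
    · intro h S T h1 h2
      obtain ⟨T', rfl⟩ := hY T h1
      obtain ⟨S', hS', rfl⟩ := Finset.subset_map_iff.1 h2
      exact h S' T' h1 hS'
  have key : IsCx Y → ∀ S : Finset W, ∀ i, rb (up Y (S.map e.toEmbedding)) i = rb (up (pf e Y) S) i := by
    intro h S i
    rw [rb_pf e (fun T hT => hY T hT.1) (h.up_cvx _) i, pf_up]
  have hs1 : ∀ x : W → ℝ, spt (fun v => ∑ w, if e w = v then x w else 0) = (spt x).map e.toEmbedding := by
    intro x
    ext v
    rw [mem_spt, Finset.mem_map]
    by_cases h : ∃ w, e w = v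
    · obtain ⟨w, rfl⟩ := h
      have : ∑ w', (if e w' = e w then x w' else 0) = x w := by
        rw [Finset.sum_eq_single w]
        · rw [if_pos rfl]
        · intro b _ hb
          rw [if_neg fun h => hb (e.injective h)]
        · intro h
          exact absurd (Finset.mem_univ w) h
      rw [this]
      constructor
      · intro h
        exact ⟨w, mem_spt.2 h, rfl⟩
      · rintro ⟨w', h1, h2⟩
        have : w' = w := e.injective h2
        rw [← this]
        exact mem_spt.1 h1
    · constructor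
      · intro h1
        exfalso
        apply h1
        refine Finset.sum_eq_zero fun w _ => ?_
        rw [if_neg fun h2 => h ⟨w, h2⟩]
      · rintro ⟨w, -, h1⟩
        exact absurd ⟨w, h1⟩ h
  have hs2 : ∀ y : V → ℝ, y ∈ RX Y → (spt fun w => y (e w)).map e.toEmbedding = spt y := by
    intro y hy
    obtain ⟨S, hS⟩ := hY _ hy.2.2
    ext v
    rw [Finset.mem_map]
    constructor
    · rintro ⟨w, h1, rfl⟩
      rw [mem_spt] at h1 ⊢
      exact h1
    · intro h
      rw [← hS, Finset.mem_map] at h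
      obtain ⟨w, h1, h2⟩ := h
      refine ⟨w, ?_, h2⟩
      have : v ∈ spt y := by rw [← hS, Finset.mem_map]; exact ⟨w, h1, h2⟩
      rw [mem_spt] at this ⊢
      have h3 : e w = v := h2
      rw [h3]
      exact this
  have hmap : ∀ x : W → ℝ, x ∈ RX (pf e Y) → (fun v => ∑ w, if e w = v then x w else 0) ∈ RX Y := by
    rintro x ⟨h1, h2, h3⟩
    refine ⟨fun v => Finset.sum_nonneg fun w _ => ?_, ?_, ?_⟩
    · split_ifs
      · exact h1 w
      · exact le_rfl
    · rw [Finset.sum_comm, ← h2]
      refine Finset.sum_congr rfl fun w _ => ?_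
      rw [Finset.sum_ite_eq, if_pos (Finset.mem_univ _)]
    · rw [hs1]
      exact h3
  have hzero : ∀ y ∈ RX Y, ∀ v, (¬ ∃ w, e w = v) → y v = 0 := by
    intro z hz v h3
    by_contra h5
    have h6 := mem_spt.2 h5
    rw [← hs2 z hz, Finset.mem_map] at h6
    obtain ⟨w, -, h7⟩ := h6
    exact h3 ⟨w, h7⟩
  have hres : ∀ y ∈ RX Y, (fun w => y (e w)) ∈ RX (pf e Y) := by
    intro y hy
    refine ⟨fun w => hy.1 _, ?_, ?_⟩
    · have h1 := hy.2.1
      rw [← h1]
      have e1 : ∑ w, y (e w) = ∑ v ∈ Finset.univ.map e.toEmbedding, y v := by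
        rw [Finset.sum_map]
        rfl
      rw [e1]
      · refine Finset.sum_subset (Finset.subset_univ _) fun v _ hv => ?_
        by_contra h2
        have h3 := mem_spt.2 h2
        rw [← hs2 y hy, Finset.mem_map] at h3
        obtain ⟨w, -, h4⟩ := h3
        exact hv (Finset.mem_map.2 ⟨w, Finset.mem_univ _, h4⟩)
    · show (spt fun w => y (e w)).map e.toEmbedding ∈ Y
      rw [hs2 y hy]
      exact hy.2.2
  have hback : ∀ y ∈ RX Y, (fun v => ∑ w, if e w = v then y (e w) else 0) = y := by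
    intro y hy
    funext v
    by_cases h : ∃ w, e w = v
    · obtain ⟨w, rfl⟩ := h
      simp only [EmbeddingLike.apply_eq_iff_eq, Finset.sum_ite_eq', Finset.mem_univ, if_true]
    · rw [hzero y hy v h]
      refine Finset.sum_eq_zero fun w _ => ?_
      rw [if_neg fun h2 => h ⟨w, h2⟩]
  constructor
  · intro h
    refine ⟨hcx.1 h.cx, fun S hS i => ?_, ?_, .ren e.toEmbedding Y hY h.pl⟩
    · rw [← key h.cx S i]
      exact h.hs _ hS i
    · refine h.emb.comp (fun x v => ∑ w, if e w = v then x w else 0) ?_ hmap ?_ ?_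
      · refine continuous_pi fun v => continuous_finsetSum _ fun w _ => ?_
        by_cases h1 : e w = v
        · simp only [h1, if_true]
          fun_prop
        · simp only [h1, if_false]
          fun_prop
      · intro x _ y _ hxy
        funext w
        have := congrFun hxy (e w)
        simp only [EmbeddingLike.apply_eq_iff_eq, Finset.sum_ite_eq', Finset.mem_univ, if_true] at this
        exact this
      · intro y hy
        exact ⟨fun w => y (e w), hres y hy, hback y hy⟩
  · intro h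
    refine ⟨hcx.2 h.cx, fun T hT i => ?_, ?_, .ren' e.toEmbedding Y hY h.pl⟩
    · obtain ⟨S, rfl⟩ := hY T hT
      rw [key (hcx.2 h.cx) S i]
      exact h.hs S hT i
    · refine h.emb.comp (fun y w => y (e w)) (by fun_prop) hres ?_ ?_
      · intro x hx y hy hxy
        have hxy' : (fun w => x (e w)) = fun w => y (e w) := hxy
        rw [← hback x hx, ← hback y hy]
        funext v
        exact Finset.sum_congr rfl fun w _ => by rw [congrFun hxy' w]
      · intro x hx
        refine ⟨_, hmap x hx, ?_⟩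
        funext w
        simp only [EmbeddingLike.apply_eq_iff_eq, Finset.sum_ite_eq', Finset.mem_univ, if_true]

end transfer

end Pool.Agent.H944.FS
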