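import Pool.Agent.H944.FS4

/-!
# Stellar moves, part 5: the derived subdivision relative to a full subcomplex
-/

set_option autoImplicit false

noncomputable section

namespace Pool.Agent.H944.FS

section setup

variable {V : Type} [DecidableEq V]

open Classical in
/-- the old vertices of `T` -/
def ol (X : Set (Finset V)) (T : Finset V) : Finset V := T.filter fun w => {w} ∈ X

omit [DecidableEq V] in
theorem mem_ol {X : Set (Finset V)} {T : Finset V} {w : V} : w ∈ ol X T ↔ w ∈ T ∧ {w} ∈ X := by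
  unfold ol
  simp

omit [DecidableEq V] in
theorem ol_sub {X : Set (Finset V)} {T : Finset V} : ol X T ⊆ T := fun _ h => (mem_ol.1 h).1

omit [DecidableEq V] in
theorem ol_mono {X : Set (Finset V)} {S T : Finset V} (h : S ⊆ T) : ol X S ⊆ ol X T := fun _ hw =>
  mem_ol.2 ⟨h (mem_ol.1 hw).1, (mem_ol.1 hw).2⟩

omit [DecidableEq V] in
theorem ol_self {X : Set (Finset V)} (hX : IsCx X) {T : Finset V} (hT : T ∈ X) : ol X T = T := by
  ext w
  rw [mem_ol]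
  exact ⟨fun h => h.1, fun h => ⟨h, hX _ _ hT (Finset.singleton_subset_iff.2 h)⟩⟩

/-- the names -/
structure Nam (X : Set (Finset V)) (n : Finset V → V) : Prop where
  fresh : ∀ σ ∈ X, ∀ T ∈ X, n σ ∉ T
  inj : ∀ σ ∈ X, ∀ τ ∈ X, n σ = n τ → σ = τ

/-- upper closed families in `X` -/
def UpC (𝒟 X : Set (Finset V)) : Prop := 𝒟 ⊆ X ∧ ∀ S ∈ 𝒟, ∀ T ∈ X, S ⊆ T → T ∈ 𝒟

/-- the complex obtained by starring the members of `𝒟` -/
structure D (X : Set (Finset V)) (n : Finset V → V) (𝒟 : Set (Finset V)) (T : Finset V) : Prop where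
  mem : ol X T ∈ X
  notMem : ol X T ∉ 𝒟
  new : ∀ w ∈ T, {w} ∉ X → ∃ σ ∈ 𝒟, w = n σ
  lt : ∀ σ ∈ 𝒟, n σ ∈ T → ol X T ⊂ σ
  comp : ∀ σ ∈ 𝒟, ∀ τ ∈ 𝒟, n σ ∈ T → n τ ∈ T → σ ⊆ τ ∨ τ ⊆ σ

variable {X : Set (Finset V)} {n : Finset V → V}

omit [DecidableEq V] in
theorem Nam.not_old (hn : Nam X n) {σ : Finset V} (hσ : σ ∈ X) : {n σ} ∉ X := fun h =>
  hn.fresh σ hσ _ h (Finset.mem_singleton_self _)

omit [DecidableEq V] in
theorem D_cx (hX : IsCx X) {𝒟 : Set (Finset V)} (h𝒟 : UpC 𝒟 X) : IsCx {T | D X n 𝒟 T} := by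
  intro S T hT hST
  have hT' : D X n 𝒟 T := hT
  have h1 : ol X S ⊆ ol X T := ol_mono hST
  exact ⟨hX _ _ hT'.mem h1, fun h => hT'.notMem (h𝒟.2 _ h _ hT'.mem h1), fun w hw hw' => hT'.new w (hST hw) hw',
    fun σ hσ hw => lt_of_le_of_lt h1 (hT'.lt σ hσ (hST hw)),
    fun σ hσ τ hτ h2 h3 => hT'.comp σ hσ τ hτ (hST h2) (hST h3)⟩

omit [DecidableEq V] in
theorem D_empty (hX : IsCx X) : {T | D X n ∅ T} = X := by
  ext T
  constructor
  · intro h
    have h' : D X n ∅ T := h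
    have e : ol X T = T := by
      ext w
      rw [mem_ol]
      refine ⟨fun h => h.1, fun hw => ⟨hw, ?_⟩⟩
      by_contra h1
      obtain ⟨σ, hσ, -⟩ := h'.new w hw h1
      exact hσ
    have := h'.mem
    rwa [e] at this
  · intro h
    refine ⟨by rw [ol_self hX h]; exact h, fun h => h.elim, fun w hw hw' => ?_, fun _ h => h.elim, fun _ h => h.elim⟩
    exact absurd (hX _ _ h (Finset.singleton_subset_iff.2 hw)) hw'

omit [DecidableEq V] in
theorem D_fresh (hn : Nam X n) {𝒟 : Set (Finset V)} (h𝒟 : UpC 𝒟 X) {σ : Finset V} (hσ : σ ∈ X) (hσ' : σ ∉ 𝒟) :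
    ∀ T ∈ {T | D X n 𝒟 T}, n σ ∉ T := by
  intro T hT h
  have hT' : D X n 𝒟 T := hT
  obtain ⟨τ, hτ, e⟩ := hT'.new _ h (hn.not_old hσ)
  exact hσ' (hn.inj _ hσ _ (h𝒟.1 hτ) e ▸ hτ)

omit [DecidableEq V] in
theorem D_self (hX : IsCx X) (hn : Nam X n) {𝒟 : Set (Finset V)} (h𝒟 : UpC 𝒟 X) {σ : Finset V} (hσ : σ ∈ X)
    (hσ' : σ ∉ 𝒟) : D X n 𝒟 σ := by
  refine ⟨by rw [ol_self hX hσ]; exact hσ, by rw [ol_self hX hσ]; exact hσ', fun w hw hw' => ?_,
    fun τ hτ h => absurd h (hn.fresh τ (h𝒟.1 hτ) σ hσ), fun τ hτ _ _ h => absurd h (hn.fresh τ (h𝒟.1 hτ) σ hσ)⟩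
  exact absurd (hX _ _ hσ (Finset.singleton_subset_iff.2 hw)) hw'

theorem D_step (hX : IsCx X) (hn : Nam X n) {𝒟 : Set (Finset V)} (h𝒟 : UpC 𝒟 X) {σ : Finset V} (hσ : σ ∈ X)
    (hσ' : σ ∉ 𝒟) (h𝒟' : UpC (insert σ 𝒟) X) : star {T | D X n 𝒟 T} σ (n σ) = {T | D X n (insert σ 𝒟) T} := by
  have hno := hn.not_old hσ
  have hinj : ∀ τ ∈ 𝒟, n τ ≠ n σ := fun τ hτ e => hσ' (hn.inj _ (h𝒟.1 hτ) _ hσ e ▸ hτ)
  have hσo : ∀ T : Finset V, σ ⊆ T → σ ⊆ ol X T := by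
    intro T h
    have := ol_mono (X := X) h
    rwa [ol_self hX hσ] at this
  ext T
  by_cases hvT : n σ ∈ T
  · rw [star_mem hvT]
    have e1 : ol X (T.erase (n σ) ∪ σ) = ol X T ∪ σ := by
      ext w
      simp only [mem_ol, Finset.mem_union, Finset.mem_erase]
      constructor
      · rintro ⟨⟨-, h2⟩ | h2, h3⟩
        · exact Or.inl ⟨h2, h3⟩
        · exact Or.inr h2
      · rintro (⟨h2, h3⟩ | h2)
        · exact ⟨Or.inl ⟨fun e => hno (e ▸ h3), h2⟩, h3⟩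
        · exact ⟨Or.inr h2, hX _ _ hσ (Finset.singleton_subset_iff.2 h2)⟩
    constructor
    · rintro ⟨h1, h2⟩
      have h1' : D X n 𝒟 (T.erase (n σ) ∪ σ) := h1
      have h3 := h1'.mem
      have h4 := h1'.notMem
      rw [e1] at h3 h4
      have h5 : ol X T ∪ σ = σ := by
        have := h𝒟'.2 σ (Set.mem_insert _ _) _ h3 Finset.subset_union_right
        exact this.resolve_right h4
      have h6 : ol X T ⊆ σ := by rw [← h5]; exact Finset.subset_union_left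
      have h7 : ol X T ≠ σ := by
        intro e
        apply h2
        intro w hw
        rw [← e] at hw
        exact Finset.mem_erase.2 ⟨fun e' => hno (e' ▸ (mem_ol.1 hw).2), ol_sub hw⟩
      have h8 : ol X T ⊂ σ := lt_of_le_of_ne h6 h7
      have h9 : ∀ τ ∈ 𝒟, n τ ∈ T → σ ⊂ τ := by
        intro τ hτ h
        have := h1'.lt τ hτ (Finset.mem_union_left _ (Finset.mem_erase.2 ⟨hinj τ hτ, h⟩))
        rwa [e1, h5] at this
      refine ⟨hX _ _ hσ h6, ?_, ?_, ?_, ?_⟩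
      · rintro (h | h)
        · exact h7 h
        · exact hσ' (h𝒟.2 _ h _ hσ h6)
      · intro w hw hw'
        by_cases e : w = n σ
        · exact ⟨σ, Set.mem_insert _ _, e⟩
        · obtain ⟨τ, hτ, e2⟩ := h1'.new w (Finset.mem_union_left _ (Finset.mem_erase.2 ⟨e, hw⟩)) hw'
          exact ⟨τ, Set.mem_insert_of_mem _ hτ, e2⟩
      · rintro τ (rfl | hτ) h
        · exact h8
        · exact h8.trans (h9 τ hτ h)
      · rintro τ (rfl | hτ) τ' (rfl | hτ') h h'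
        · exact Or.inl subset_rfl
        · exact Or.inl (h9 _ hτ' h').1
        · exact Or.inr (h9 _ hτ h).1
        · exact h1'.comp τ hτ τ' hτ' (Finset.mem_union_left _ (Finset.mem_erase.2 ⟨hinj τ hτ, h⟩))
            (Finset.mem_union_left _ (Finset.mem_erase.2 ⟨hinj τ' hτ', h'⟩))
    · intro h1
      have h1' : D X n (insert σ 𝒟) T := h1
      have h8 : ol X T ⊂ σ := h1'.lt σ (Set.mem_insert _ _) hvT
      have h5 : ol X T ∪ σ = σ := Finset.union_eq_right.2 h8.1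
      have hT' : ∀ τ ∈ 𝒟, n τ ∈ T.erase (n σ) ∪ σ → n τ ∈ T := by
        intro τ hτ h
        rcases Finset.mem_union.1 h with h | h
        · exact Finset.mem_of_mem_erase h
        · exact absurd h (hn.fresh τ (h𝒟.1 hτ) σ hσ)
      have h9 : ∀ τ ∈ 𝒟, n τ ∈ T → σ ⊂ τ := by
        intro τ hτ h
        rcases h1'.comp σ (Set.mem_insert _ _) τ (Set.mem_insert_of_mem _ hτ) hvT h with h2 | h2
        · exact lt_of_le_of_ne h2 fun e => hσ' (e ▸ hτ)
        · exact absurd (h𝒟.2 _ hτ _ hσ h2) hσ'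
      refine ⟨⟨?_, ?_, ?_, ?_, ?_⟩, fun h => ?_⟩
      · rw [e1, h5]; exact hσ
      · rw [e1, h5]; exact hσ'
      · intro w hw hw'
        rcases Finset.mem_union.1 hw with h | h
        · obtain ⟨τ, hτ, e⟩ := h1'.new w (Finset.mem_of_mem_erase h) hw'
          rcases hτ with rfl | hτ
          · exact absurd h (e ▸ Finset.notMem_erase _ _)
          · exact ⟨τ, hτ, e⟩
        · exact absurd (hX _ _ hσ (Finset.singleton_subset_iff.2 h)) hw'
      · intro τ hτ h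
        rw [e1, h5]
        exact h9 τ hτ (hT' τ hτ h)
      · intro τ hτ τ' hτ' h h'
        exact h1'.comp τ (Set.mem_insert_of_mem _ hτ) τ' (Set.mem_insert_of_mem _ hτ') (hT' τ hτ h) (hT' τ' hτ' h')
      · exact h8.2 ((hσo _ h).trans (ol_mono (Finset.erase_subset _ _)))
  · rw [star_not hvT]
    constructor
    · rintro ⟨h1, h2⟩
      have h1' : D X n 𝒟 T := h1
      refine ⟨h1'.mem, ?_, ?_, ?_, ?_⟩
      · rintro (h | h)
        · exact h2 (h ▸ ol_sub)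
        · exact h1'.notMem h
      · intro w hw hw'
        obtain ⟨τ, hτ, e⟩ := h1'.new w hw hw'
        exact ⟨τ, Set.mem_insert_of_mem _ hτ, e⟩
      · rintro τ (rfl | hτ) h
        · exact absurd h hvT
        · exact h1'.lt τ hτ h
      · rintro τ (rfl | hτ) τ' (rfl | hτ') h h'
        · exact absurd h hvT
        · exact absurd h hvT
        · exact absurd h' hvT
        · exact h1'.comp τ hτ τ' hτ' h h'
    · intro h1
      have h1' : D X n (insert σ 𝒟) T := h1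
      refine ⟨⟨h1'.mem, fun h => h1'.notMem (Set.mem_insert_of_mem _ h), ?_, ?_, ?_⟩, fun h => ?_⟩
      · intro w hw hw'
        obtain ⟨τ, hτ, e⟩ := h1'.new w hw hw'
        rcases hτ with rfl | hτ
        · exact absurd (e ▸ hw) hvT
        · exact ⟨τ, hτ, e⟩
      · intro τ hτ h
        exact h1'.lt τ (Set.mem_insert_of_mem _ hτ) h
      · intro τ hτ τ' hτ' h h'
        exact h1'.comp τ (Set.mem_insert_of_mem _ hτ) τ' (Set.mem_insert_of_mem _ hτ') h h'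
      · exact h1'.notMem (h𝒟'.2 _ (Set.mem_insert _ _) _ h1'.mem (hσo _ h))

end setup

section good

variable {V : Type} [Fintype V] [LinearOrder V] {X : Set (Finset V)} {n : Finset V → V}

theorem Good_D {k : ℕ} (h : Good k X) (hn : Nam X n) : ∀ (N : ℕ) (𝒟 : Finset (Finset V)), 𝒟.card = N →
    UpC (𝒟 : Set (Finset V)) X → ∅ ∉ 𝒟 → Good k {T | D X n (𝒟 : Set (Finset V)) T} := by
  intro N
  induction N with
  | zero =>
    intro 𝒟 h1 _ _
    rw [Finset.card_eq_zero] at h1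
    subst h1
    rw [Finset.coe_empty, D_empty h.cx]
    exact h
  | succ N ih =>
    intro 𝒟 h1 h2 h3
    have hne : 𝒟.Nonempty := Finset.card_pos.1 (by omega)
    obtain ⟨σ, hσ, hmin⟩ := Finset.exists_min_image 𝒟 Finset.card hne
    have h4 : UpC ((𝒟.erase σ : Finset (Finset V)) : Set (Finset V)) X := by
      constructor
      · intro T hT
        exact h2.1 (Finset.mem_of_mem_erase hT)
      · intro S hS T hT hST
        have hS' := Finset.mem_erase.1 (Finset.mem_coe.1 hS)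
        rw [Finset.mem_coe, Finset.mem_erase]
        refine ⟨fun e => ?_, h2.2 S hS'.2 T hT hST⟩
        subst e
        exact hS'.1 (Finset.eq_of_subset_of_card_le hST (hmin S hS'.2))
    have h5 : insert σ ((𝒟.erase σ : Finset (Finset V)) : Set (Finset V)) = (𝒟 : Set (Finset V)) := by
      rw [← Finset.coe_insert, Finset.insert_erase hσ]
    have h6 : σ ∉ ((𝒟.erase σ : Finset (Finset V)) : Set (Finset V)) := by
      rw [Finset.mem_coe]
      exact Finset.notMem_erase _ _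
    have h7 := D_step h.cx hn h4 (h2.1 hσ) h6 (by rw [h5]; exact h2)
    rw [h5] at h7
    rw [← h7]
    refine Good.star (ih _ (by rw [Finset.card_erase_of_mem hσ]; omega) h4 fun h => h3 (Finset.mem_of_mem_erase h))
      (D_self h.cx hn h4 (h2.1 hσ) h6) ?_ (D_fresh hn h4 (h2.1 hσ) h6)
    exact Finset.nonempty_iff_ne_empty.2 fun e => h3 (e ▸ hσ)

/-- adjacency in the final complex -/
def HA (X : Set (Finset V)) (n : Finset V → V) (Γ : SimpleGraph V) (u w : V) : Prop :=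
  ({u} ∈ X ∧ {w} ∈ X ∧ Γ.Adj u w) ∨
    (∃ σ ∈ X, ¬ Γ.IsClique (σ : Set V) ∧ {u} ∈ X ∧ w = n σ ∧ u ∈ σ) ∨
    (∃ σ ∈ X, ¬ Γ.IsClique (σ : Set V) ∧ {w} ∈ X ∧ u = n σ ∧ w ∈ σ) ∨
    ∃ σ ∈ X, ∃ τ ∈ X, ¬ Γ.IsClique (σ : Set V) ∧ ¬ Γ.IsClique (τ : Set V) ∧ u = n σ ∧ w = n τ ∧ (σ ⊂ τ ∨ τ ⊂ σ)

omit [Fintype V] [LinearOrder V] in
theorem HA_symm (X : Set (Finset V)) (n : Finset V → V) (Γ : SimpleGraph V) (u w : V) (h : HA X n Γ u w) :
    HA X n Γ w u := by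
  rcases h with ⟨h1, h2, h3⟩ | h | h | ⟨σ, h1, τ, h2, h3, h4, h5, h6, h7⟩
  · exact Or.inl ⟨h2, h1, h3.symm⟩
  · exact Or.inr (Or.inr (Or.inl h))
  · exact Or.inr (Or.inl h)
  · exact Or.inr (Or.inr (Or.inr ⟨τ, h2, σ, h1, h4, h3, h6, h5, h7.symm⟩))

omit [Fintype V] [LinearOrder V] in
theorem HA_irr (hn : Nam X n) (Γ : SimpleGraph V) (u : V) : ¬ HA X n Γ u u := by
  rintro (⟨h1, h2, h3⟩ | ⟨σ, h1, -, h2, h3, h4⟩ | ⟨σ, h1, -, h2, h3, h4⟩ | ⟨σ, h1, τ, h2, h3, h4, h5, h6, h7⟩)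
  · exact Γ.loopless.irrefl _ h3
  · exact hn.not_old h1 (h3 ▸ h2)
  · exact hn.not_old h1 (h3 ▸ h2)
  · have e := hn.inj _ h1 _ h2 (h5.symm.trans h6)
    subst e
    rcases h7 with h | h <;> exact lt_irrefl _ h

/-- the graph of the final complex -/
def HG (hn : Nam X n) (Γ : SimpleGraph V) : SimpleGraph V where
  Adj := HA X n Γ
  symm := ⟨HA_symm X n Γ⟩
  loopless := ⟨HA_irr hn Γ⟩

omit [Fintype V] in
theorem D_clique (hn : Nam X n) (Γ : SimpleGraph V)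
    (hA : ∀ T : Finset V, Γ.IsClique (T : Set V) → (∀ u ∈ T, {u} ∈ X) → T ∈ X) (T : Finset V) :
    D X n {σ | σ ∈ X ∧ ¬ Γ.IsClique (σ : Set V)} T ↔
      (∀ w ∈ T, {w} ∈ X ∨ ∃ σ, (σ ∈ X ∧ ¬ Γ.IsClique (σ : Set V)) ∧ w = n σ) ∧ (HG hn Γ).IsClique (T : Set V) := by
  constructor
  · intro h
    have hcl : Γ.IsClique (ol X T : Set V) := by
      by_contra h1
      exact h.notMem ⟨h.mem, h1⟩
    refine ⟨fun w hw => ?_, ?_⟩
    · by_cases h1 : {w} ∈ X
      · exact Or.inl h1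
      · obtain ⟨σ, h2, h3⟩ := h.new w hw h1
        exact Or.inr ⟨σ, h2, h3⟩
    · intro u hu w hw huw
      have hu : u ∈ T := hu
      have hw : w ∈ T := hw
      show HA X n Γ u w
      by_cases h1 : {u} ∈ X <;> by_cases h2 : {w} ∈ X
      · exact Or.inl ⟨h1, h2, hcl (mem_ol.2 ⟨hu, h1⟩) (mem_ol.2 ⟨hw, h2⟩) huw⟩
      · obtain ⟨σ, h3, h4⟩ := h.new w hw h2
        have h5 := h.lt σ h3 (h4 ▸ hw)
        exact Or.inr (Or.inl ⟨σ, h3.1, h3.2, h1, h4, h5.1 (mem_ol.2 ⟨hu, h1⟩)⟩)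
      · obtain ⟨σ, h3, h4⟩ := h.new u hu h1
        have h5 := h.lt σ h3 (h4 ▸ hu)
        exact Or.inr (Or.inr (Or.inl ⟨σ, h3.1, h3.2, h2, h4, h5.1 (mem_ol.2 ⟨hw, h2⟩)⟩))
      · obtain ⟨σ, h3, h4⟩ := h.new u hu h1
        obtain ⟨τ, h5, h6⟩ := h.new w hw h2
        have hne : σ ≠ τ := fun e => huw (by rw [h4, h6, e])
        refine Or.inr (Or.inr (Or.inr ⟨σ, h3.1, τ, h5.1, h3.2, h5.2, h4, h6, ?_⟩))
        rcases h.comp σ h3 τ h5 (h4 ▸ hu) (h6 ▸ hw) with h7 | h7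
        · exact Or.inl (lt_of_le_of_ne h7 hne)
        · exact Or.inr (lt_of_le_of_ne h7 hne.symm)
  · rintro ⟨h1, h2⟩
    have hold : ∀ u w, {u} ∈ X → {w} ∈ X → HA X n Γ u w → Γ.Adj u w := by
      rintro u w h3 h4 (⟨-, -, h5⟩ | ⟨σ, h5, -, -, h6, -⟩ | ⟨σ, h5, -, -, h6, -⟩ | ⟨σ, h5, τ, h6, -, -, h7, -⟩)
      · exact h5
      · exact absurd (h6 ▸ h4) (hn.not_old h5)
      · exact absurd (h6 ▸ h3) (hn.not_old h5)
      · exact absurd (h7 ▸ h3) (hn.not_old h5)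
    have hcl : Γ.IsClique (ol X T : Set V) := by
      intro u hu w hw huw
      have hu' := mem_ol.1 (Finset.mem_coe.1 hu)
      have hw' := mem_ol.1 (Finset.mem_coe.1 hw)
      exact hold u w hu'.2 hw'.2 (h2 hu'.1 hw'.1 huw)
    refine ⟨hA _ hcl fun u hu => (mem_ol.1 hu).2, fun h => h.2 hcl, ?_, ?_, ?_⟩
    · intro w hw hw'
      rcases h1 w hw with h3 | ⟨σ, h3, h4⟩
      · exact absurd h3 hw'
      · exact ⟨σ, h3, h4⟩
    · intro σ hσ hσT
      refine lt_of_le_of_ne (fun u hu => ?_) fun e => hσ.2 (e ▸ hcl)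
      have hu' := mem_ol.1 hu
      have hne : u ≠ n σ := fun e => hn.not_old hσ.1 (e ▸ hu'.2)
      rcases h2 hu'.1 hσT hne with ⟨-, h5, -⟩ | ⟨τ, h5, -, -, h6, h7⟩ | ⟨τ, h5, -, -, h6, h7⟩ |
        ⟨τ, h5, τ', h6, -, -, h7, -⟩
      · exact absurd h5 (hn.not_old hσ.1)
      · have e := hn.inj _ hσ.1 _ h5 h6
        rw [e]; exact h7
      · exact absurd (h6 ▸ hu'.2) (hn.not_old h5)
      · exact absurd (h7 ▸ hu'.2) (hn.not_old h5)
    · intro σ hσ τ hτ h3 h4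
      by_cases e : n σ = n τ
      · rw [hn.inj _ hσ.1 _ hτ.1 e]
        exact Or.inl subset_rfl
      · rcases h2 h3 h4 e with ⟨h5, -, -⟩ | ⟨σ', h5, -, h6, -, -⟩ | ⟨σ', h5, -, h6, -, -⟩ |
          ⟨σ', h5, τ', h6, -, -, h7, h8, h9⟩
        · exact absurd h5 (hn.not_old hσ.1)
        · exact absurd h6 (hn.not_old hσ.1)
        · exact absurd h6 (hn.not_old hτ.1)
        · rw [hn.inj _ hσ.1 _ h5 h7, hn.inj _ hτ.1 _ h6 h8]
          exact h9.imp (fun h => h.1) fun h => h.1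

end good

end Pool.Agent.H944.FS
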