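import Pool.Agent.H944.FS5
import Pool.Graph.R_pool_sql_team_seeded_63374d34.N496.LT.L1

/-!
# Stellar moves, part 6: flag spheres
-/

set_option autoImplicit false

noncomputable section

namespace Pool.Agent.H944.FS

open Module Pool.Agent.W907.SG
open Pool.Agent.TH652.Above (HSph)
open Pool.Agent.W907.SM (lk)
open Pool.Agent.N496.LT.Lt (Rea Sph)

section beta

variable {V : Type} [Fintype V] [LinearOrder V]

theorem bd_eq_bS {X : Set (Finset V)} (hX : IsCx X) {i : ℕ} {c : Finset V → ℝ} (hc : c ∈ K X i) :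
    bd ℝ c = bS X c := by
  funext T
  by_cases h : T ∈ X
  · rw [bS_mem h, bd_apply]
  · rw [bS_not h, bd_apply]
    refine Finset.sum_eq_zero fun v _ => ?_
    rw [hc, smul_zero]
    rintro ⟨h1, -⟩
    exact h (hX _ _ h1 (Finset.subset_insert _ _))

theorem beta_eq (G : SimpleGraph V) (A : Set V) (i : ℕ) :
    beta G (fun _ => (- LinearMap.id : ℝ →ₗ[ℝ] ℝ)) A ∅ i =
      rb {T : Finset V | G.IsClique (T : Set V) ∧ (T : Set V) ⊆ A} i := by
  set X : Set (Finset V) := {T : Finset V | G.IsClique (T : Set V) ∧ (T : Set V) ⊆ A} with hXd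
  have hX : IsCx X := by
    rintro S T ⟨h1, h2⟩ h3
    exact ⟨h1.subset (Finset.coe_subset.2 h3), (Finset.coe_subset.2 h3).trans h2⟩
  have hK : ∀ j, KK G (fun _ => (- LinearMap.id : ℝ →ₗ[ℝ] ℝ)) A ∅ j = K X j := by
    intro j
    ext c
    rw [mem_KK, mem_K]
    constructor
    · rintro ⟨h1, -⟩ T hT
      exact h1 T fun h => hT ⟨⟨h.1, h.2.1⟩, h.2.2⟩
    · intro h1
      exact ⟨fun T hT => h1 T fun h => hT ⟨h.1.1, h.1.2, h.2⟩, fun T t _ => rfl⟩
  have hZ : ZZ G (fun _ => (- LinearMap.id : ℝ →ₗ[ℝ] ℝ)) A ∅ i = Z X i := by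
    unfold ZZ
    rw [hK]
    ext c
    constructor
    · rintro ⟨h1, h2⟩
      have h2' : bd ℝ c = 0 := h2
      rw [bd_eq_bS hX h1] at h2'
      exact ⟨h1, h2'⟩
    · rintro ⟨h1, h2⟩
      have h2' : bS X c = 0 := h2
      rw [← bd_eq_bS hX h1] at h2'
      exact ⟨h1, h2'⟩
  have hB : BB G (fun _ => (- LinearMap.id : ℝ →ₗ[ℝ] ℝ)) A ∅ i = B X i := by
    unfold BB
    rw [hK]
    ext c
    constructor
    · rintro ⟨b, h1, h2⟩
      exact ⟨b, h1, by rw [← bd_eq_bS hX h1, h2]⟩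
    · rintro ⟨b, h1, h2⟩
      exact ⟨b, h1, by rw [bd_eq_bS hX h1, h2]⟩
  unfold beta rb
  rw [hZ, hB]

theorem rb_join (X : Set (Finset V)) (hX : Cvx X) (i : ℕ) (S : Finset V) : (∀ T ∈ X, Disjoint S T) →
    rb {T | S ⊆ T ∧ T \ S ∈ X} (i + S.card) = rb X i := by
  induction S using Finset.induction_on with
  | empty =>
    intro _
    have : {T : Finset V | ∅ ⊆ T ∧ T \ ∅ ∈ X} = X := by
      ext T
      simp
    rw [this, Finset.card_empty, Nat.add_zero]
  | insert s S hs ih =>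
    intro h
    have h' : ∀ T ∈ X, Disjoint S T := fun T hT => (Finset.disjoint_insert_left.1 (h T hT)).2
    have h'' : ∀ T ∈ X, s ∉ T := fun T hT => (Finset.disjoint_insert_left.1 (h T hT)).1
    have hY : Cvx {T : Finset V | S ⊆ T ∧ T \ S ∈ X} := by
      rintro S' T R ⟨h1, h2⟩ ⟨h3, h4⟩ h5 h6
      exact ⟨h1.trans h5, hX _ _ _ h2 h4 (Finset.sdiff_subset_sdiff h5 subset_rfl)
        (Finset.sdiff_subset_sdiff h6 subset_rfl)⟩
    rw [← ih h', Finset.card_insert_of_notMem hs, ← Nat.add_assoc, ← rb_ins hY s]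
    · congr 1
      ext T
      have e : T \ insert s S = T.erase s \ S := by
        ext u
        simp only [Finset.mem_sdiff, Finset.mem_insert, Finset.mem_erase]
        tauto
      constructor
      · rintro ⟨h1, h2⟩
        refine ⟨h1 (Finset.mem_insert_self _ _), fun u hu => Finset.mem_erase.2 ⟨fun e => hs (e ▸ hu),
          h1 (Finset.mem_insert_of_mem hu)⟩, ?_⟩
        rw [← e]
        exact h2
      · rintro ⟨h1, h2, h3⟩
        refine ⟨Finset.insert_subset h1 (h2.trans (Finset.erase_subset _ _)), ?_⟩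
        show T \ insert s S ∈ X
        rw [e]
        exact h3
    · rintro T ⟨-, h2⟩ h3
      exact h'' _ h2 (Finset.mem_sdiff.2 ⟨h3, hs⟩)

/-- the clique complex -/
def cl (G : SimpleGraph V) : Set (Finset V) := {T | G.IsClique (T : Set V)}

theorem HSph_of (G : SimpleGraph V) (k : ℕ) (h : HS k (cl G)) : HSph k G := by
  intro S hS i
  have hX : IsCx {T : Finset V | G.IsClique (T : Set V) ∧ (T : Set V) ⊆ lk G S} := by
    rintro S T ⟨h1, h2⟩ h3
    exact ⟨h1.subset (Finset.coe_subset.2 h3), (Finset.coe_subset.2 h3).trans h2⟩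
  rw [beta_eq, ← rb_join _ hX.cvx i S]
  · have e : {T : Finset V | S ⊆ T ∧ T \ S ∈ {T : Finset V | G.IsClique (T : Set V) ∧ (T : Set V) ⊆ lk G S}} =
        up (cl G) S := by
      ext T
      constructor
      · rintro ⟨h1, h2, h3⟩
        refine ⟨?_, h1⟩
        intro x hx y hy hxy
        by_cases hxS : x ∈ S <;> by_cases hyS : y ∈ S
        · exact hS hxS hyS hxy
        · exact (h3 (Finset.mem_coe.2 (Finset.mem_sdiff.2 ⟨hy, hyS⟩)) x hxS).symm
        · exact h3 (Finset.mem_coe.2 (Finset.mem_sdiff.2 ⟨hx, hxS⟩)) y hyS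
        · exact h2 (Finset.mem_coe.2 (Finset.mem_sdiff.2 ⟨hx, hxS⟩)) (Finset.mem_coe.2 (Finset.mem_sdiff.2 ⟨hy, hyS⟩))
            hxy
      · rintro ⟨h1, h2⟩
        have h1' : G.IsClique (T : Set V) := h1
        refine ⟨h2, h1'.subset (Finset.coe_subset.2 Finset.sdiff_subset), ?_⟩
        intro v hv u hu
        have hv' := Finset.mem_sdiff.1 (Finset.mem_coe.1 hv)
        exact (h1' (h2 hu) hv'.1 fun e => hv'.2 (e ▸ hu)).symm
    rw [e]
    exact h S hS _
  · rintro T ⟨-, h2⟩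
    rw [Finset.disjoint_left]
    intro v hv hvT
    exact G.loopless.irrefl _ (h2 hvT v hv)

end beta

theorem Sph_of {N : ℕ} (G : SimpleGraph (Fin N)) (d : ℕ) (h : Good (2 * d + 1) (cl G)) : Sph d G := by
  refine ⟨HSph_of G _ h.hs, ?_⟩
  obtain ⟨f, h1, h2, h3, -⟩ := h.emb
  have key : Rea G ⊆ RX (cl G) := by
    rintro x ⟨h4, h5, h6⟩
    refine ⟨h4, ?_, ?_⟩
    · rw [← finsum_eq_sum_of_fintype]
      exact h5
    · show G.IsClique (spt x : Set (Fin N))
      have : ((spt x : Finset (Fin N)) : Set (Fin N)) = {v | x v ≠ 0} := by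
        ext v
        rw [Finset.mem_coe, mem_spt]
        rfl
      rw [this]
      exact h6
  exact ⟨f, h1.mono key, fun x hx => h2 x (key hx), h3.mono key⟩

section final

/-- The main construction: a flag sphere from a sphere `X` (all the old vertices span the given flag subcomplex). -/
theorem sphere0 {V : Type} [Fintype V] [LinearOrder V] {X : Set (Finset V)} {n : Finset V → V} (d : ℕ)
    (hX : Good (2 * d + 1) X) (hn : Nam X n) (Γ : SimpleGraph V)
    (hA : ∀ T : Finset V, Γ.IsClique (T : Set V) → (∀ u ∈ T, {u} ∈ X) → T ∈ X) :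
    ∃ (N : ℕ) (H : SimpleGraph (Fin N)) (e : Fin N ↪o V), Good (2 * d + 1) (cl H) ∧ (∀ u, {u} ∈ X → ∃ w, e w = u) ∧
      ∀ u w, {e u} ∈ X → {e w} ∈ X → (H.Adj u w ↔ Γ.Adj (e u) (e w)) := by
  classical
  set 𝒟s : Set (Finset V) := {σ | σ ∈ X ∧ ¬ Γ.IsClique (σ : Set V)} with h𝒟s
  obtain ⟨𝒟, h𝒟⟩ : ∃ 𝒟 : Finset (Finset V), (𝒟 : Set (Finset V)) = 𝒟s := ⟨(Set.toFinite 𝒟s).toFinset, Set.Finite.coe_toFinset _⟩
  have hup : UpC (𝒟 : Set (Finset V)) X := by
    rw [h𝒟]
    refine ⟨fun T hT => hT.1, fun S hS T hT hST => ⟨hT, fun h => hS.2 (h.subset (Finset.coe_subset.2 hST))⟩⟩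
  have hemp : ∅ ∉ 𝒟 := by
    intro h
    have h' : ∅ ∈ 𝒟s := by rw [← h𝒟]; exact h
    exact h'.2 (by simp)
  have hG := Good_D hX hn _ 𝒟 rfl hup hemp
  rw [h𝒟] at hG
  -- the used vertices
  set U : Finset V := Finset.univ.filter fun w => {w} ∈ X ∨ ∃ σ, σ ∈ 𝒟s ∧ w = n σ with hU
  have hUm : ∀ w, w ∈ U ↔ {w} ∈ X ∨ ∃ σ, σ ∈ 𝒟s ∧ w = n σ := by
    intro w
    rw [hU, Finset.mem_filter]
    exact ⟨fun h => h.2, fun h => ⟨Finset.mem_univ _, h⟩⟩
  let e : Fin U.card ↪o V := U.orderEmbOfFin rfl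
  have her : ∀ w, w ∈ U → ∃ i, e i = w := by
    intro w hw
    have : w ∈ Set.range (U.orderEmbOfFin rfl) := by
      rw [Finset.range_orderEmbOfFin]
      exact hw
    exact this
  have heU : ∀ i, e i ∈ U := fun i => Finset.orderEmbOfFin_mem U rfl i
  have hDc := D_clique hn Γ hA
  have hY : ∀ T ∈ {T | D X n 𝒟s T}, ∃ S : Finset (Fin U.card), S.map e.toEmbedding = T := by
    intro T hT
    have h1 := ((hDc T).1 hT).1
    refine ⟨Finset.univ.filter fun i => e i ∈ T, ?_⟩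
    ext w
    rw [Finset.mem_map]
    constructor
    · rintro ⟨i, h2, rfl⟩
      exact (Finset.mem_filter.1 h2).2
    · intro hw
      obtain ⟨i, rfl⟩ := her w ((hUm w).2 (h1 w hw))
      exact ⟨i, Finset.mem_filter.2 ⟨Finset.mem_univ _, hw⟩, rfl⟩
  have hG2 := (Good_pf e hY _).1 hG
  refine ⟨U.card, (HG hn Γ).comap e, e, ?_, fun u hu => her u ((hUm u).2 (Or.inl hu)), ?_⟩
  · have e1 : pf e {T | D X n 𝒟s T} = cl ((HG hn Γ).comap e) := by
      ext S
      have h1 : S ∈ pf e {T | D X n 𝒟s T} ↔ D X n 𝒟s (S.map e.toEmbedding) := Iff.rfl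
      rw [h1, hDc]
      constructor
      · rintro ⟨-, h2⟩
        intro x hx y hy hxy
        have h3 : e x ∈ S.map e.toEmbedding := Finset.mem_map.2 ⟨x, hx, rfl⟩
        have h4 : e y ∈ S.map e.toEmbedding := Finset.mem_map.2 ⟨y, hy, rfl⟩
        exact h2 h3 h4 fun h => hxy (e.injective h)
      · intro h2
        refine ⟨fun w hw => ?_, ?_⟩
        · obtain ⟨i, -, rfl⟩ := Finset.mem_map.1 hw
          exact (hUm _).1 (heU i)
        · intro x hx y hy hxy
          obtain ⟨i, hi, rfl⟩ := Finset.mem_map.1 (Finset.mem_coe.1 hx)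
          obtain ⟨j, hj, rfl⟩ := Finset.mem_map.1 (Finset.mem_coe.1 hy)
          have h2' : ((HG hn Γ).comap e).IsClique (S : Set (Fin U.card)) := h2
          exact h2' hi hj fun h => hxy (by rw [h])
    rw [← e1]
    exact hG2
  · intro u w hu hw
    show HA X n Γ (e u) (e w) ↔ _
    constructor
    · rintro (⟨-, -, h5⟩ | ⟨σ, h5, -, -, h6, -⟩ | ⟨σ, h5, -, -, h6, -⟩ | ⟨σ, h5, τ, h6, -, -, h7, -⟩)
      · exact h5
      · exact absurd (h6 ▸ hw) (hn.not_old h5)
      · exact absurd (h6 ▸ hu) (hn.not_old h5)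
      · exact absurd (h7 ▸ hu) (hn.not_old h5)
    · intro h
      exact Or.inl ⟨hu, hw, h⟩

/-- The main construction: a flag sphere from a sphere `X` on the vertex set `Fin m` and a graph `Γ` all of whose
cliques belong to `X`. -/
theorem sphere (m d : ℕ) (X : Set (Finset (Fin m))) (hX : Good (2 * d + 1) X) (Γ : SimpleGraph (Fin m))
    (hA : ∀ T : Finset (Fin m), Γ.IsClique (T : Set (Fin m)) → (∀ u ∈ T, {u} ∈ X) → T ∈ X) :
    ∃ (N : ℕ) (H : SimpleGraph (Fin N)) (ι : {u : Fin m // {u} ∈ X} → Fin N), Good (2 * d + 1) (cl H) ∧ Function.Injective ι ∧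
      ∀ u w, H.Adj (ι u) (ι w) ↔ Γ.Adj u.1 w.1 := by
  classical
  obtain ⟨M, hM⟩ : ∃ M, M = Fintype.card (Finset (Fin m)) := ⟨_, rfl⟩
  subst hM
  let e0 : Fin m ↪o Fin (m + Fintype.card (Finset (Fin m))) := Fin.castAddOrderEmb _
  have he0 : ∀ i, e0 i = Fin.castAdd _ i := fun _ => rfl
  set Y : Set (Finset (Fin (m + Fintype.card (Finset (Fin m))))) := {T | ∃ S ∈ X, S.map e0.toEmbedding = T} with hY
  have hpf : pf e0 Y = X := by
    ext S
    constructor
    · rintro ⟨S', h1, h2⟩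
      rwa [← Finset.map_injective _ h2]
    · intro h
      exact ⟨S, h, rfl⟩
  have hGY : Good (2 * d + 1) Y := by
    rw [Good_pf e0 (fun T hT => by obtain ⟨S, -, h⟩ := hT; exact ⟨S, h⟩), hpf]
    exact hX
  let bk : Finset (Fin (m + Fintype.card (Finset (Fin m)))) → Finset (Fin m) := fun T =>
    Finset.univ.filter fun i => e0 i ∈ T
  have hbk : ∀ S : Finset (Fin m), bk (S.map e0.toEmbedding) = S := by
    intro S
    ext i
    simp only [bk, Finset.mem_filter, Finset.mem_univ, true_and]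
    exact Finset.mem_map' e0.toEmbedding
  let n : Finset (Fin (m + Fintype.card (Finset (Fin m)))) → Fin (m + Fintype.card (Finset (Fin m))) :=
    fun T => Fin.natAdd m (Fintype.equivFin _ (bk T))
  have hn : Nam Y n := by
    constructor
    · rintro σ - _ ⟨S, -, rfl⟩ h
      obtain ⟨i, -, h2⟩ := Finset.mem_map.1 h
      have h3 := congrArg Fin.val h2
      have h4 : (e0 i : ℕ) = i := rfl
      have h5 : ((n σ : Fin _) : ℕ) = m + (Fintype.equivFin _ (bk σ) : ℕ) := rfl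
      have h6 : ((e0.toEmbedding i : Fin _) : ℕ) = i := rfl
      rw [h5, h6] at h3
      have := i.2
      omega
    · rintro _ ⟨S, h1, rfl⟩ _ ⟨T, h2, rfl⟩ h
      have h3 : Fintype.equivFin _ (bk (S.map e0.toEmbedding)) = Fintype.equivFin _ (bk (T.map e0.toEmbedding)) :=
        Fin.natAdd_injective _ _ h
      have h4 := (Fintype.equivFin _).injective h3
      rw [hbk, hbk] at h4
      rw [h4]
  have hsing : ∀ u : Fin m, {e0 u} ∈ Y ↔ {u} ∈ X := by
    intro u
    rw [← hpf]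
    have : ({u} : Finset (Fin m)).map e0.toEmbedding = {e0 u} := Finset.map_singleton _ _
    show _ ↔ ({u} : Finset (Fin m)).map e0.toEmbedding ∈ Y
    rw [this]
  obtain ⟨N, H, e, h1, h2, h3⟩ := sphere0 d hGY hn (Γ.map e0.toEmbedding) (by
    intro T hT hT'
    have h4 : ∃ S : Finset (Fin m), S.map e0.toEmbedding = T := by
      refine ⟨bk T, ?_⟩
      ext w
      rw [Finset.mem_map]
      constructor
      · rintro ⟨i, h2, rfl⟩
        exact (Finset.mem_filter.1 h2).2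
      · intro hw
        obtain ⟨S, -, h5⟩ := hT' w hw
        have h6 : w ∈ S.map e0.toEmbedding := by rw [h5]; exact Finset.mem_singleton_self _
        obtain ⟨i, -, rfl⟩ := Finset.mem_map.1 h6
        exact ⟨i, Finset.mem_filter.2 ⟨Finset.mem_univ _, hw⟩, rfl⟩
    obtain ⟨S, rfl⟩ := h4
    refine ⟨S, hA S ?_ ?_, rfl⟩
    · intro x hx y hy hxy
      have h5 : e0 x ∈ S.map e0.toEmbedding := Finset.mem_map.2 ⟨x, hx, rfl⟩
      have h6 : e0 y ∈ S.map e0.toEmbedding := Finset.mem_map.2 ⟨y, hy, rfl⟩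
      have h7 := hT h5 h6 fun h => hxy (e0.injective h)
      rw [SimpleGraph.map_adj] at h7
      obtain ⟨x', y', h8, h9, h10⟩ := h7
      have h11 : x' = x := e0.injective h9
      have h12 : y' = y := e0.injective h10
      rwa [h11, h12] at h8
    · intro u hu
      exact (hsing u).1 (hT' _ (Finset.mem_map.2 ⟨u, hu, rfl⟩)))
  have h4 : ∀ u : {u : Fin m // {u} ∈ X}, ∃ w, e w = e0 u.1 := fun u => h2 _ ((hsing _).2 u.2)
  choose ι hι using h4
  refine ⟨N, H, ι, h1, ?_, ?_⟩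
  · intro u w h
    have h5 := congrArg e h
    rw [hι, hι] at h5
    exact Subtype.ext (e0.injective h5)
  · intro u w
    rw [h3 _ _ (by rw [hι]; exact (hsing _).2 u.2) (by rw [hι]; exact (hsing _).2 w.2), hι, hι, SimpleGraph.map_adj]
    constructor
    · rintro ⟨x', y', h8, h9, h10⟩
      have h11 : x' = u.1 := e0.injective h9
      have h12 : y' = w.1 := e0.injective h10
      rwa [h11, h12] at h8
    · intro h
      exact ⟨_, _, h, rfl, rfl⟩

end final

end Pool.Agent.H944.FS
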