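import Pool.Agent.H944.FS4

/-!
# Stellar moves, part 7: checking a list of flips with bit masks
-/

set_option autoImplicit false

noncomputable section

namespace Pool.Agent.H944.FS

/-- the set with the mask `a` -/
def ms (m a : ℕ) : Finset (Fin m) := Finset.univ.filter fun i : Fin m => a.testBit i = true

theorem mem_ms {m a : ℕ} {i : Fin m} : i ∈ ms m a ↔ a.testBit i = true := by
  unfold ms
  simp

/-- the complex with the given facets -/
def XF (m : ℕ) (F : List ℕ) : Set (Finset (Fin m)) := {T | ∃ f ∈ F, T ⊆ ms m f}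

theorem sub_of {m a f : ℕ} (h : Nat.land a f = a) : ms m a ⊆ ms m f := by
  intro i hi
  rw [mem_ms] at hi ⊢
  have h' : a &&& f = a := h
  rw [← h', Nat.testBit_and, Bool.and_eq_true] at hi
  exact hi.2

theorem of_sub {m a f : ℕ} (ha : a < 2 ^ m) (h : ms m a ⊆ ms m f) : Nat.land a f = a := by
  show a &&& f = a
  apply Nat.eq_of_testBit_eq
  intro i
  rw [Nat.testBit_and]
  by_cases hi : i < m
  · by_cases h1 : a.testBit i = true
    · have := h (mem_ms.2 (show a.testBit (⟨i, hi⟩ : Fin m) = true from h1))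
      rw [mem_ms] at this
      have h2 : f.testBit i = true := this
      rw [h1, h2]; rfl
    · rw [Bool.not_eq_true] at h1
      rw [h1]; rfl
  · have : a.testBit i = false := Nat.testBit_lt_two_pow (ha.trans_le (Nat.pow_le_pow_right (by norm_num) (by omega)))
    rw [this]; rfl

theorem land_pow {a j : ℕ} : Nat.land a (Nat.pow 2 j) = 0 ↔ a.testBit j = false := by
  have h : Nat.land a (Nat.pow 2 j) = (a.testBit j).toNat * 2 ^ j := Nat.and_two_pow a j
  rw [h]
  cases a.testBit j
  · simp
  · simp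

theorem ms_or {m a b : ℕ} : ms m (Nat.lor a b) = ms m a ∪ ms m b := by
  ext i
  rw [Finset.mem_union, mem_ms, mem_ms, mem_ms]
  show (a ||| b).testBit i = true ↔ _
  rw [Nat.testBit_or, Bool.or_eq_true]

theorem ms_xor {m a j : ℕ} (hj : j < m) (h : a.testBit j = true) :
    ms m (Nat.xor a (Nat.pow 2 j)) = (ms m a).erase ⟨j, hj⟩ := by
  ext i
  rw [Finset.mem_erase, mem_ms, mem_ms]
  show (a ^^^ 2 ^ j).testBit i = true ↔ _
  rw [Nat.testBit_xor, Nat.testBit_two_pow]
  by_cases e : i = ⟨j, hj⟩
  · subst e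
    simp [h]
  · have : ¬ (j = (i : ℕ)) := fun e' => e (Fin.ext e'.symm)
    simp [e, this]

theorem ms_disj {m a b : ℕ} (h : Nat.land a b = 0) : Disjoint (ms m a) (ms m b) := by
  rw [Finset.disjoint_left]
  intro i h1 h2
  rw [mem_ms] at h1 h2
  have h3 : (a &&& b).testBit i = true := by rw [Nat.testBit_and, h1, h2]; rfl
  have h' : a &&& b = 0 := h
  rw [h', Nat.zero_testBit] at h3
  exact Bool.noConfusion h3

/-! ### The Boolean functions -/

/-- forces the evaluation of the number -/
def fz (n : ℕ) (k : ℕ → Bool) : Bool := Nat.rec (motive := fun _ => Bool) (k 0) (fun n' _ => k (Nat.succ n')) n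

theorem fz_eq (n : ℕ) (k : ℕ → Bool) : fz n k = k n := by
  cases n <;> rfl

/-- case distinction with fast evaluation -/
abbrev bc (c t e : Bool) : Bool := Bool.rec (motive := fun _ => Bool) e t c

/-- splits the list into the sets that contain `a` and the others, and checks that the others do not contain `b` -/
def scan (a b : ℕ) (k : List ℕ → List ℕ → Bool) (F : List ℕ) : List ℕ → List ℕ → Bool :=
  List.rec (motive := fun _ => List ℕ → List ℕ → Bool) (fun A R => k A R)
    (fun f _ ih A R => Bool.rec (motive := fun _ => Bool)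
      (Bool.rec (motive := fun _ => Bool) (ih A (f :: R)) false (Nat.beq (Nat.land b f) b))
      (ih (f :: A) R) (Nat.beq (Nat.land a f) a)) F

/-- all the sets are contained in `ab` and do not contain `b` -/
def al (b ab : ℕ) (A : List ℕ) : Bool :=
  List.rec (motive := fun _ => Bool) true
    (fun f _ ih => Bool.rec (motive := fun _ => Bool) false
      (Bool.rec (motive := fun _ => Bool) ih false (Nat.beq (Nat.land b f) b)) (Nat.beq (Nat.land f ab) f)) A

/-- membership -/
def me (x : ℕ) (A : List ℕ) : Bool :=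
  List.rec (motive := fun _ => Bool) false (fun f _ ih => Bool.rec (motive := fun _ => Bool) ih true (Nat.beq x f)) A

/-- all the sets `ab \ j` with `j` in `b` and smaller than the given number belong to the list -/
def c4 (b ab : ℕ) (A : List ℕ) (j : ℕ) : Bool :=
  Nat.rec (motive := fun _ => Bool) true
    (fun j ih => Bool.rec (motive := fun _ => Bool)
      (Bool.rec (motive := fun _ => Bool) false ih (me (Nat.xor ab (Nat.pow 2 j)) A)) ih
      (Nat.beq (Nat.land b (Nat.pow 2 j)) 0)) j

/-- adds the sets `ab \ j` with `j` in `a` -/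
def nw (a ab : ℕ) (k : List ℕ → Bool) (j : ℕ) : List ℕ → Bool :=
  Nat.rec (motive := fun _ => List ℕ → Bool) (fun R => k R)
    (fun j ih R => Bool.rec (motive := fun _ => Bool)
      (fz (Nat.xor ab (Nat.pow 2 j)) fun x => ih (x :: R)) (ih R) (Nat.beq (Nat.land a (Nat.pow 2 j)) 0)) j

/-- one flip -/
def stp (M P a b : ℕ) (F : List ℕ) (k : List ℕ → Bool) : Bool :=
  bc (Nat.beq (Nat.land a b) 0) (bc (Nat.beq a 0) false (bc (Nat.beq b 0) false (bc (Nat.ble P a) false
    (bc (Nat.ble P b) false (scan a b (fun A R => fz (Nat.lor a b) fun ab => bc (al b ab A) (bc (c4 b ab A M)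
      (nw a ab k M R) false) false) F [] []))))) false

/-- lists of flips -/
inductive Mv
  /-- the end -/
  | n : Mv
  /-- a flip -/
  | c : ℕ → ℕ → Mv → Mv

/-- a list of flips -/
def run (M P : ℕ) (k : List ℕ → Bool) (L : Mv) : List ℕ → Bool :=
  Mv.rec (motive := fun _ => List ℕ → Bool) (fun F => k F) (fun a b _ ih F => stp M P a b F ih) L

/-- equality of lists -/
def eqL (A : List ℕ) : List ℕ → Bool :=
  List.rec (motive := fun _ => List ℕ → Bool) (fun B => List.rec (motive := fun _ => Bool) true (fun _ _ _ => false) B)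
    (fun a _ ih B => List.rec (motive := fun _ => Bool) false (fun b B' _ => bc (Nat.beq a b) (ih B') false) B) A

/-! ### Their properties -/

theorem beq_iff {a b : ℕ} : Nat.beq a b = true ↔ a = b := by rw [Nat.beq_eq]

theorem ble_of {a b : ℕ} (h : a ≤ b) : Nat.ble a b = true := by rw [Nat.ble_eq]; exact h

theorem cond_false' {c t : Bool} (h : bc c t false = true) : c = true ∧ t = true := by
  cases c
  · exact Bool.noConfusion h
  · exact ⟨rfl, h⟩

theorem cond_false'' {c t : Bool} (h : bc c false t = true) : c = false ∧ t = true := by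
  cases c
  · exact ⟨rfl, h⟩
  · exact Bool.noConfusion h

theorem scan_spec (a b : ℕ) (k : List ℕ → List ℕ → Bool) (F : List ℕ) : ∀ A0 R0, scan a b k F A0 R0 = true →
    (∀ f ∈ A0, Nat.land a f = a) → (∀ f ∈ R0, Nat.land a f ≠ a ∧ Nat.land b f ≠ b) →
    ∃ A R : List ℕ, k A R = true ∧
    (∀ f, (f ∈ F ∨ f ∈ A0 ∨ f ∈ R0) ↔ f ∈ A ∨ f ∈ R) ∧ (∀ f ∈ A, Nat.land a f = a) ∧
    ∀ f ∈ R, Nat.land a f ≠ a ∧ Nat.land b f ≠ b := by
  induction F with
  | nil =>
    intro A0 R0 h h1 h2
    exact ⟨A0, R0, h, by simp, h1, h2⟩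
  | cons f F ih =>
    intro A0 R0 h hA hR
    have h' : bc (Nat.beq (Nat.land a f) a) (scan a b k F (f :: A0) R0)
      (bc (Nat.beq (Nat.land b f) b) false (scan a b k F A0 (f :: R0))) = true := h
    cases h1 : Nat.beq (Nat.land a f) a
    · rw [h1] at h'
      obtain ⟨h2, h3⟩ := cond_false'' h'
      obtain ⟨A, R, h4, h5, h6, h7⟩ := ih _ _ h3 hA (by
        intro g hg
        rcases List.mem_cons.1 hg with rfl | hg
        · refine ⟨fun e => ?_, fun e => ?_⟩
          · rw [beq_iff.2 e] at h1
            exact Bool.noConfusion h1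
          · rw [beq_iff.2 e] at h2
            exact Bool.noConfusion h2
        · exact hR g hg)
      refine ⟨A, R, h4, fun g => ?_, h6, h7⟩
      rw [← h5, List.mem_cons, List.mem_cons]
      tauto
    · rw [h1] at h'
      obtain ⟨A, R, h4, h5, h6, h7⟩ := ih _ _ h' (by
        intro g hg
        rcases List.mem_cons.1 hg with rfl | hg
        · exact beq_iff.1 h1
        · exact hA g hg) hR
      refine ⟨A, R, h4, fun g => ?_, h6, h7⟩
      rw [← h5, List.mem_cons, List.mem_cons]
      tauto

theorem al_spec (b ab : ℕ) (A : List ℕ) (h : al b ab A = true) :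
    ∀ f ∈ A, Nat.land f ab = f ∧ Nat.land b f ≠ b := by
  induction A with
  | nil => simp
  | cons g A ih =>
    have h' : bc (Nat.beq (Nat.land g ab) g) (bc (Nat.beq (Nat.land b g) b) false (al b ab A)) false = true := h
    obtain ⟨h1, h2⟩ := cond_false' h'
    obtain ⟨h3, h4⟩ := cond_false'' h2
    intro f hf
    rcases List.mem_cons.1 hf with rfl | hf
    · refine ⟨beq_iff.1 h1, fun e => ?_⟩
      rw [beq_iff.2 e] at h3
      exact Bool.noConfusion h3
    · exact ih h4 f hf

theorem me_spec (x : ℕ) (A : List ℕ) (h : me x A = true) : x ∈ A := by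
  induction A with
  | nil => exact Bool.noConfusion h
  | cons g A ih =>
    have h' : bc (Nat.beq x g) true (me x A) = true := h
    cases h1 : Nat.beq x g
    · rw [h1] at h'
      exact List.mem_cons_of_mem _ (ih h')
    · rw [beq_iff.1 h1]
      exact List.mem_cons_self

theorem c4_spec (b ab : ℕ) (A : List ℕ) (n : ℕ) (h : c4 b ab A n = true) :
    ∀ j < n, b.testBit j = true → Nat.xor ab (Nat.pow 2 j) ∈ A := by
  induction n with
  | zero => intro j hj; omega
  | succ n ih =>
    have h' : bc (Nat.beq (Nat.land b (Nat.pow 2 n)) 0) (c4 b ab A n)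
      (bc (me (Nat.xor ab (Nat.pow 2 n)) A) (c4 b ab A n) false) = true := h
    intro j hj hb
    cases h1 : Nat.beq (Nat.land b (Nat.pow 2 n)) 0
    · rw [h1] at h'
      obtain ⟨h2, h3⟩ := cond_false' h'
      rcases Nat.lt_succ_iff_lt_or_eq.1 hj with h4 | rfl
      · exact ih h3 j h4 hb
      · exact me_spec _ _ h2
    · rw [h1] at h'
      rcases Nat.lt_succ_iff_lt_or_eq.1 hj with h4 | rfl
      · exact ih h' j h4 hb
      · have := land_pow.1 (beq_iff.1 h1)
        rw [this] at hb
        exact Bool.noConfusion hb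

theorem nw_spec (a ab : ℕ) (k : List ℕ → Bool) (n : ℕ) : ∀ R, nw a ab k n R = true → ∃ R', k R' = true ∧
    ∀ f, f ∈ R' ↔ f ∈ R ∨ ∃ j < n, a.testBit j = true ∧ f = Nat.xor ab (Nat.pow 2 j) := by
  induction n with
  | zero =>
    intro R h
    exact ⟨R, h, by simp⟩
  | succ n ih =>
    intro R h
    have h' : bc (Nat.beq (Nat.land a (Nat.pow 2 n)) 0) (nw a ab k n R)
      (fz (Nat.xor ab (Nat.pow 2 n)) fun x => nw a ab k n (x :: R)) = true := h
    cases h1 : Nat.beq (Nat.land a (Nat.pow 2 n)) 0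
    · rw [h1] at h'
      have h'' : (fz (Nat.xor ab (Nat.pow 2 n)) fun x => nw a ab k n (x :: R)) = true := h'
      rw [fz_eq] at h''
      obtain ⟨R', h2, h3⟩ := ih _ h''
      have h4 : a.testBit n = true := by
        by_contra h5
        rw [Bool.not_eq_true] at h5
        rw [beq_iff.2 (land_pow.2 h5)] at h1
        exact Bool.noConfusion h1
      refine ⟨R', h2, fun f => ?_⟩
      rw [h3, List.mem_cons]
      constructor
      · rintro ((rfl | h5) | ⟨j, h5, h6, h7⟩)
        · exact Or.inr ⟨n, by omega, h4, rfl⟩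
        · exact Or.inl h5
        · exact Or.inr ⟨j, by omega, h6, h7⟩
      · rintro (h5 | ⟨j, h5, h6, h7⟩)
        · exact Or.inl (Or.inr h5)
        · rcases Nat.lt_succ_iff_lt_or_eq.1 h5 with h8 | rfl
          · exact Or.inr ⟨j, h8, h6, h7⟩
          · exact Or.inl (Or.inl h7)
    · rw [h1] at h'
      obtain ⟨R', h2, h3⟩ := ih _ h'
      have h4 := land_pow.1 (beq_iff.1 h1)
      refine ⟨R', h2, fun f => ?_⟩
      rw [h3]
      constructor
      · rintro (h5 | ⟨j, h5, h6, h7⟩)
        · exact Or.inl h5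
        · exact Or.inr ⟨j, by omega, h6, h7⟩
      · rintro (h5 | ⟨j, h5, h6, h7⟩)
        · exact Or.inl h5
        · rcases Nat.lt_succ_iff_lt_or_eq.1 h5 with h8 | rfl
          · exact Or.inr ⟨j, h8, h6, h7⟩
          · rw [h4] at h6
            exact Bool.noConfusion h6

theorem IsCx_XF (m : ℕ) (F : List ℕ) : IsCx (XF m F) := by
  rintro S T ⟨f, h1, h2⟩ h3
  exact ⟨f, h1, h3.trans h2⟩

theorem stp_spec {k : ℕ} (M a b : ℕ) (F : List ℕ) (hF : ∀ f ∈ F, f < 2 ^ M) (hG : Good k (XF (M + 1) F))
    (c : List ℕ → Bool) (h : stp M (2 ^ M) a b F c = true) :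
    ∃ F', (∀ f ∈ F', f < 2 ^ M) ∧ Good k (XF (M + 1) F') ∧ c F' = true := by
  unfold stp at h
  obtain ⟨h1, h⟩ := cond_false' h
  obtain ⟨h2, h⟩ := cond_false'' h
  obtain ⟨h2', h⟩ := cond_false'' h
  obtain ⟨h3, h⟩ := cond_false'' h
  obtain ⟨h4, h⟩ := cond_false'' h
  obtain ⟨A, R, h, h5', h6, h7⟩ := scan_spec _ _ _ _ _ _ h (by simp) (by simp)
  have h5 : ∀ f, f ∈ F ↔ f ∈ A ∨ f ∈ R := fun f => by
    rw [← h5' f]
    simp
  rw [fz_eq] at h
  obtain ⟨h8, h⟩ := cond_false' h
  obtain ⟨h9, h⟩ := cond_false' h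
  obtain ⟨F', h, h10⟩ := nw_spec _ _ _ _ _ h
  have h8 := al_spec _ _ _ h8
  have h9 := c4_spec _ _ _ _ h9
  have h1 : Nat.land a b = 0 := beq_iff.1 h1
  have ha0 : a ≠ 0 := fun e => by rw [beq_iff.2 e] at h2; exact Bool.noConfusion h2
  have ha : a < 2 ^ M := by
    by_contra h'
    rw [ble_of (not_lt.1 h')] at h3
    exact Bool.noConfusion h3
  have hb : b < 2 ^ M := by
    by_contra h'
    rw [ble_of (not_lt.1 h')] at h4
    exact Bool.noConfusion h4
  have hpow : (2 : ℕ) ^ M ≤ 2 ^ (M + 1) := Nat.pow_le_pow_right (by norm_num) (by omega)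
  have ha' : a < 2 ^ (M + 1) := ha.trans_le hpow
  have hb' : b < 2 ^ (M + 1) := hb.trans_le hpow
  have hlast : ∀ f, f < 2 ^ M → Fin.last M ∉ ms (M + 1) f := by
    intro f hf h'
    rw [mem_ms, Fin.val_last, Nat.testBit_lt_two_pow hf] at h'
    exact Bool.noConfusion h'
  have hlt : ∀ x : ℕ, ∀ f, f < 2 ^ M → f.testBit x = true → x < M := by
    intro x f hf h'
    by_contra h''
    rw [Nat.testBit_lt_two_pow (hf.trans_le (Nat.pow_le_pow_right (by norm_num) (not_lt.1 h'')))] at h'
    exact Bool.noConfusion h'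
  have hα : (ms (M + 1) a).Nonempty := by
    obtain ⟨i, hi⟩ := Nat.exists_testBit_of_ne_zero ha0
    have := hlt i a ha hi
    exact ⟨⟨i, by omega⟩, mem_ms.2 hi⟩
  have hab : ms (M + 1) (Nat.lor a b) = ms (M + 1) a ∪ ms (M + 1) b := ms_or
  have hflip : Flip (XF (M + 1) F) (ms (M + 1) a) (ms (M + 1) b) := by
    constructor
    · exact hα
    · exact ms_disj h1
    · -- `α ∈ X`
      have hb0 : b ≠ 0 := fun e => by rw [beq_iff.2 e] at h2'; exact Bool.noConfusion h2'
      obtain ⟨j, hj⟩ := Nat.exists_testBit_of_ne_zero hb0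
      have h11 := h9 j (hlt j b hb hj) hj
      refine ⟨_, (h5 _).2 (Or.inl h11), ?_⟩
      exact sub_of (h6 _ h11)
    · intro S hS
      constructor
      · rintro ⟨f, h11, h12⟩
        have h13 : ms (M + 1) a ⊆ ms (M + 1) f := Finset.subset_union_left.trans h12
        have h14 : f ∈ A := by
          rcases (h5 f).1 h11 with h' | h'
          · exact h'
          · exact absurd (of_sub ha' h13) (h7 f h').1
        have h15 : ms (M + 1) f ⊆ ms (M + 1) a ∪ ms (M + 1) b := by
          rw [← hab]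
          exact sub_of (h8 f h14).1
        refine lt_of_le_of_ne (fun x hx => ?_) fun e => ?_
        · rcases Finset.mem_union.1 (h15 (h12 (Finset.mem_union_right _ hx))) with h' | h'
          · exact absurd hx (Finset.disjoint_left.1 hS h')
          · exact h'
        · apply (h8 f h14).2
          apply of_sub hb'
          rw [← e]
          exact Finset.subset_union_right.trans h12
      · intro hSb
        obtain ⟨x, hx, hxS⟩ := Finset.exists_of_ssubset hSb
        have hx' := mem_ms.1 hx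
        have h11 := h9 x (hlt x b hb hx') hx'
        refine ⟨_, (h5 _).2 (Or.inl h11), ?_⟩
        rw [ms_xor x.2 (show (Nat.lor a b).testBit x = true by
          show (a ||| b).testBit x = true
          rw [Nat.testBit_or, hx', Bool.or_true]), hab]
        intro y hy
        rw [Finset.mem_erase, Finset.mem_union]
        rcases Finset.mem_union.1 hy with h' | h'
        · refine ⟨fun e => ?_, Or.inl h'⟩
          have e' : y = x := e
          exact Finset.disjoint_left.1 (ms_disj h1) h' (e' ▸ hx)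
        · exact ⟨fun e => hxS ((show y = x from e) ▸ h'), Or.inr (hSb.1 h')⟩
    · rintro ⟨f, h11, h12⟩
      rcases (h5 f).1 h11 with h' | h'
      · exact (h8 f h').2 (of_sub hb' h12)
      · exact (h7 f h').2 (of_sub hb' h12)
  have hnew : XF (M + 1) F' = flip (XF (M + 1) F) (ms (M + 1) a) (ms (M + 1) b) := by
    ext T
    constructor
    · rintro ⟨f, h11, h12⟩
      rcases (h10 f).1 h11 with h' | ⟨j, h13, h14, rfl⟩
      · exact ⟨fun h'' => (h7 f h').1 (of_sub ha' (h''.trans h12)), Or.inl ⟨f, (h5 f).2 (Or.inr h'), h12⟩⟩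
      · rw [ms_xor (show j < M + 1 by omega) (show (Nat.lor a b).testBit j = true by
          show (a ||| b).testBit j = true
          rw [Nat.testBit_or, h14, Bool.true_or]), hab] at h12
        refine ⟨fun h'' => ?_, Or.inr (h12.trans (Finset.erase_subset _ _))⟩
        have h15 : (⟨j, by omega⟩ : Fin (M + 1)) ∈ ms (M + 1) a := mem_ms.2 h14
        exact Finset.notMem_erase _ _ (h12 (h'' h15))
    · rintro ⟨h11, h12⟩
      have key : T ⊆ ms (M + 1) a ∪ ms (M + 1) b → T ∈ XF (M + 1) F' := by
        intro h13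
        obtain ⟨x, hx, hxT⟩ := Finset.not_subset.1 h11
        have hx' := mem_ms.1 hx
        refine ⟨Nat.xor (Nat.lor a b) (Nat.pow 2 x), (h10 _).2 (Or.inr ⟨x, hlt x a ha hx', hx', rfl⟩), ?_⟩
        rw [ms_xor x.2 (show (Nat.lor a b).testBit x = true by
          show (a ||| b).testBit x = true
          rw [Nat.testBit_or, hx', Bool.true_or]), hab]
        intro y hy
        exact Finset.mem_erase.2 ⟨fun e => hxT ((show y = x from e) ▸ hy), h13 hy⟩
      rcases h12 with ⟨f, h13, h14⟩ | h12
      · rcases (h5 f).1 h13 with h' | h'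
        · apply key
          refine h14.trans ?_
          rw [← hab]
          exact sub_of (h8 f h').1
        · exact ⟨f, (h10 f).2 (Or.inl h'), h14⟩
      · exact key h12
  refine ⟨F', ?_, ?_, h⟩
  · intro f hf
    rcases (h10 f).1 hf with h' | ⟨j, h13, h14, rfl⟩
    · exact hF f ((h5 f).2 (Or.inr h'))
    · exact Nat.xor_lt_two_pow (Nat.or_lt_two_pow ha hb) (Nat.pow_lt_pow_right (by norm_num) h13)
  · rw [hnew]
    refine hG.flip hflip (v := Fin.last M) ?_ (hlast b hb)
    rintro T ⟨f, h11, h12⟩ h13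
    exact hlast f (hF f h11) (h12 h13)

theorem run_spec {k : ℕ} (M : ℕ) (c : List ℕ → Bool) (L : Mv) : ∀ (F : List ℕ), (∀ f ∈ F, f < 2 ^ M) →
    Good k (XF (M + 1) F) → run M (2 ^ M) c L F = true →
    ∃ F', (∀ f ∈ F', f < 2 ^ M) ∧ Good k (XF (M + 1) F') ∧ c F' = true := by
  induction L with
  | n =>
    intro F h1 h2 h3
    exact ⟨F, h1, h2, h3⟩
  | c a b L ih =>
    intro F h1 h2 h3
    have h4 : stp M (2 ^ M) a b F (run M (2 ^ M) c L) = true := h3
    obtain ⟨F', h5, h6, h7⟩ := stp_spec M a b F h1 h2 _ h4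
    exact ih F' h5 h6 h7

theorem eqL_spec (A : List ℕ) : ∀ B, eqL A B = true → A = B := by
  induction A with
  | nil =>
    intro B h
    cases B with
    | nil => rfl
    | cons b B => exact Bool.noConfusion h
  | cons a A ih =>
    intro B h
    cases B with
    | nil => exact Bool.noConfusion h
    | cons b B =>
      have h' : bc (Nat.beq a b) (eqL A B) false = true := h
      obtain ⟨h1, h2⟩ := cond_false' h'
      rw [beq_iff.1 h1, ih B h2]

end Pool.Agent.H944.FS
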