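import Pool.Agent.H944.FS6
import Pool.Agent.H944.FS7

/-!
# Stellar moves, part 8: the doubled cycle
-/

set_option autoImplicit false

noncomputable section

namespace Pool.Agent.H944.FS

open Module Pool.Agent.W907.SG
open Pool.Agent.N496.LT.Lt (Sph Dbl)

/-- From a sphere `X` that contains all the cliques of the graph `Γ` and a doubled cycle in `Γ`, to a flag sphere with
a doubled cycle. -/
theorem final {d p : ℕ} [Fact p.Prime] (m : ℕ) (X : Set (Finset (Fin m))) (hX : Good (2 * d + 1) X)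
    (Γ : SimpleGraph (Fin m))
    (hA : ∀ T : Finset (Fin m), Γ.IsClique (T : Set (Fin m)) → (∀ u ∈ T, {u} ∈ X) → T ∈ X)
    (n : ℕ) (jj : Fin n → Bool → Fin m) (hj : ∀ v a, {jj v a} ∈ X)
    (hinj : ∀ v w, v ≠ w → ∀ a b, jj v a ≠ jj w b) (U : Finset (Fin n))
    (hU1 : ∀ v ∈ U, jj v true = jj v false)
    (hU2 : ∀ v, v ∉ U → jj v true ≠ jj v false ∧ ¬ Γ.Adj (jj v true) (jj v false))
    (hU3 : ∀ v ∈ U, ∀ w ∈ U, v ≠ w → Γ.Adj (jj v true) (jj w true))
    (z : Finset (Fin n) → ZMod p) (z_ne : z ≠ 0) (z_card : ∀ σ, z σ ≠ 0 → σ.card = d + 1)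
    (z_cyc : ∀ τ : Finset (Fin n), ∑ v ∈ τᶜ, (sg v τ) • z (insert v τ) = 0)
    (hcl : ∀ σ, z σ ≠ 0 → ∀ v ∈ σ, ∀ w ∈ σ, v ≠ w → ∀ a b, Γ.Adj (jj v a) (jj w b))
    (κ : Fin n → Fin (d + 1)) (hκ : ∀ v w a b, Γ.Adj (jj v a) (jj w b) → κ v ≠ κ w) :
    ∃ (N : ℕ) (H : SimpleGraph (Fin N)), Good (2 * d + 1) (cl H) ∧ ∃ (Z : Dbl (ZMod p) H d) (κ' : Fin Z.n → Fin (d + 1)),
      Z.U.card = U.card ∧ ∀ v w a b, H.Adj (Z.j v a) (Z.j w b) → κ' v ≠ κ' w := by
  obtain ⟨N, H, ι, h1, h2, h3⟩ := sphere m d X hX Γ hA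
  refine ⟨N, H, h1, ⟨n, z, fun v a => ι ⟨jj v a, hj v a⟩, U, z_ne, z_card, z_cyc, ?_, ?_, ?_, ?_, ?_⟩, κ, rfl, ?_⟩
  · intro v w hvw a b h
    exact hinj v w hvw a b (congrArg Subtype.val (h2 h))
  · intro v hv
    have := hU1 v hv
    show ι ⟨jj v true, hj v true⟩ = ι ⟨jj v false, hj v false⟩
    congr 1
    exact Subtype.ext this
  · intro v hv
    refine ⟨fun h => (hU2 v hv).1 (congrArg Subtype.val (h2 h)), fun h => (hU2 v hv).2 ?_⟩
    exact (h3 _ _).1 h
  · intro σ hσ v hv w hw hvw a b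
    exact (h3 _ _).2 (hcl σ hσ v hv w hw hvw a b)
  · intro v hv w hw hvw
    exact (h3 _ _).2 (hU3 v hv w hw hvw)
  · intro v w a b h
    exact hκ v w a b ((h3 _ _).1 h)

/-! ### The cycle -/

/-- the chain with the given list of masks and coefficients -/
def zc (p n : ℕ) (zl : List (ℕ × ℤ)) (σ : Finset (Fin n)) : ZMod p :=
  (zl.map fun q => if ms n q.1 = σ then (q.2 : ZMod p) else 0).sum

/-- the sign of the `j`-th vertex -/
def sn (q j : ℕ) : ℤ := (-1) ^ ((List.range j).countP fun i => q.testBit i)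

/-- the list of the faces -/
def fl (n : ℕ) (q : ℕ × ℤ) : List (ℕ × ℤ) :=
  ((List.range n).filter fun j => q.1.testBit j).map fun j => (Nat.xor q.1 (Nat.pow 2 j), sn q.1 j * q.2)

/-- the sum of the coefficients of a face -/
def fs (bl : List (ℕ × ℤ)) (x : ℕ) : ℤ := (bl.map fun r => if r.1 = x then r.2 else 0).sum

theorem ms_inj {n a b : ℕ} (ha : a < 2 ^ n) (hb : b < 2 ^ n) (h : ms n a = ms n b) : a = b := by
  have h1 := of_sub ha (show ms n a ⊆ ms n b by rw [h])
  have h2 := of_sub hb (show ms n b ⊆ ms n a by rw [h])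
  have h3 : a &&& b = b &&& a := Nat.and_comm a b
  exact h1.symm.trans (h3.trans h2)

theorem sg_sn {n q : ℕ} (j : Fin n) : sg j ((ms n q).erase j) = sn q j := by
  unfold sg sn
  congr 1
  have h1 : (((ms n q).erase j).filter fun u => u < j).card =
      ((Finset.range (j : ℕ)).filter fun i => q.testBit i = true).card := by
    refine Finset.card_bij (fun u _ => (u : ℕ)) ?_ ?_ ?_
    · intro u hu
      rw [Finset.mem_filter, Finset.mem_erase, mem_ms] at hu
      rw [Finset.mem_filter, Finset.mem_range]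
      exact ⟨hu.2, hu.1.2⟩
    · intro u _ w _ h
      exact Fin.ext h
    · intro i hi
      rw [Finset.mem_filter, Finset.mem_range] at hi
      refine ⟨⟨i, hi.1.trans j.2⟩, ?_, rfl⟩
      rw [Finset.mem_filter, Finset.mem_erase, mem_ms]
      exact ⟨⟨fun e => absurd (congrArg Fin.val e) (by show ¬ i = j; omega), hi.2⟩, hi.1⟩
  have h2 : (Finset.range (j : ℕ)).filter (fun i => q.testBit i = true) =
      ((List.range (j : ℕ)).filter fun i => q.testBit i).toFinset := by
    ext i
    simp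
  rw [h1, List.countP_eq_length_filter, h2, List.toFinset_card_of_nodup (List.nodup_range.filter _)]

theorem list_filter_sum {α : Type} (l : List α) (P : α → Bool) {M : Type} [AddCommMonoid M] (f : α → M) :
    ((l.filter P).map f).sum = (l.map fun x => if P x = true then f x else 0).sum := by
  induction l with
  | nil => rfl
  | cons a l ih =>
    rw [List.filter_cons]
    by_cases h : P a = true
    · rw [if_pos h, List.map_cons, List.sum_cons, List.map_cons, List.sum_cons, ih, if_pos h]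
    · rw [if_neg h, List.map_cons, List.sum_cons, ih, if_neg h, zero_add]

theorem sum_range_list {M : Type} [AddCommMonoid M] (n : ℕ) (f : ℕ → M) :
    ((List.range n).map f).sum = ∑ i : Fin n, f i := by
  rw [← Finset.sum_range f]
  rfl

theorem zc_bd (p n : ℕ) (zl : List (ℕ × ℤ)) (hz : ∀ q ∈ zl, q.1 < 2 ^ n) (τ : Finset (Fin n)) :
    ∑ v ∈ τᶜ, (sg v τ) • zc p n zl (insert v τ) =
      ((zl.flatMap (fl n)).map fun r => if ms n r.1 = τ then (r.2 : ZMod p) else 0).sum := by
  induction zl with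
  | nil =>
    unfold zc
    simp
  | cons q zl ih =>
    have ih' := ih fun q hq => hz q (List.mem_cons_of_mem _ hq)
    have e1 : ∀ σ, zc p n (q :: zl) σ = (if ms n q.1 = σ then (q.2 : ZMod p) else 0) + zc p n zl σ := by
      intro σ
      unfold zc
      rw [List.map_cons, List.sum_cons]
    rw [List.flatMap_cons, List.map_append, List.sum_append, ← ih']
    rw [Finset.sum_congr rfl fun v _ => by rw [e1, smul_add], Finset.sum_add_distrib]
    congr 1
    unfold fl
    rw [List.map_map, list_filter_sum, sum_range_list]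
    rw [← Finset.sum_subset (Finset.subset_univ τᶜ)]
    · refine Finset.sum_congr rfl fun v hv => ?_
      rw [Finset.mem_compl] at hv
      by_cases h : q.1.testBit v = true
      · rw [if_pos h]
        show _ = if ms n (Nat.xor q.1 (Nat.pow 2 v)) = τ then ((sn q.1 v * q.2 : ℤ) : ZMod p) else 0
        rw [ms_xor v.2 h]
        have hvm : v ∈ ms n q.1 := mem_ms.2 h
        by_cases h2 : ms n q.1 = insert v τ
        · have h3 : (ms n q.1).erase ⟨v, v.2⟩ = τ := by rw [h2]; exact Finset.erase_insert hv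
          rw [if_pos h2, if_pos h3, ← sg_sn]
          have h4 : (ms n q.1).erase v = τ := h3
          rw [h4, zsmul_eq_mul, Int.cast_mul]
        · rw [if_neg h2, if_neg, smul_zero]
          intro h3
          apply h2
          rw [← h3]
          exact (Finset.insert_erase hvm).symm
      · rw [if_neg h, if_neg, smul_zero]
        intro h2
        apply h
        have : v ∈ ms n q.1 := by rw [h2]; exact Finset.mem_insert_self _ _
        exact mem_ms.1 this
    · intro v _ hv
      rw [Finset.mem_compl, not_not] at hv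
      split_ifs with h
      · show (if ms n (Nat.xor q.1 (Nat.pow 2 v)) = τ then ((sn q.1 v * q.2 : ℤ) : ZMod p) else 0) = 0
        rw [ms_xor v.2 h, if_neg]
        intro h3
        rw [← h3] at hv
        exact Finset.notMem_erase _ _ hv
      · rfl

theorem fl_lt {n : ℕ} {q : ℕ × ℤ} (hq : q.1 < 2 ^ n) {r : ℕ × ℤ} (hr : r ∈ fl n q) : r.1 < 2 ^ n := by
  unfold fl at hr
  rw [List.mem_map] at hr
  obtain ⟨j, hj, rfl⟩ := hr
  rw [List.mem_filter, List.mem_range] at hj
  exact Nat.xor_lt_two_pow hq (Nat.pow_lt_pow_right (by norm_num) hj.1)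

theorem zc_cyc (p n : ℕ) (zl : List (ℕ × ℤ)) (hz : ∀ q ∈ zl, q.1 < 2 ^ n)
    (h : ∀ r ∈ zl.flatMap (fl n), (p : ℤ) ∣ fs (zl.flatMap (fl n)) r.1) (τ : Finset (Fin n)) :
    ∑ v ∈ τᶜ, (sg v τ) • zc p n zl (insert v τ) = 0 := by
  rw [zc_bd p n zl hz]
  have hlt : ∀ r ∈ zl.flatMap (fl n), r.1 < 2 ^ n := by
    intro r hr
    obtain ⟨q, hq, hr⟩ := List.mem_flatMap.1 hr
    exact fl_lt (hz q hq) hr
  by_cases hτ : ∃ r ∈ zl.flatMap (fl n), ms n r.1 = τ
  · obtain ⟨r, hr, rfl⟩ := hτ
    have h1 := h r hr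
    rw [← CharP.intCast_eq_zero_iff (ZMod p) p] at h1
    refine Eq.trans ?_ h1
    unfold fs
    have e : ∀ l : List (ℕ × ℤ), (∀ s ∈ l, s.1 < 2 ^ n) →
        (l.map fun s => if ms n s.1 = ms n r.1 then (s.2 : ZMod p) else 0).sum =
        (((l.map fun s => if s.1 = r.1 then s.2 else 0).sum : ℤ) : ZMod p) := by
      intro l
      induction l with
      | nil => intro _; simp
      | cons s l ih =>
        intro hl
        rw [List.map_cons, List.sum_cons, List.map_cons, List.sum_cons, Int.cast_add,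
          ih fun s hs => hl s (List.mem_cons_of_mem _ hs)]
        congr 1
        by_cases h2 : s.1 = r.1
        · rw [if_pos h2, if_pos (by rw [h2])]
        · rw [if_neg h2, if_neg fun h3 => h2 (ms_inj (hl s List.mem_cons_self) (hlt r hr) h3), Int.cast_zero]
    exact e _ hlt
  · push Not at hτ
    refine List.sum_eq_zero fun x hx => ?_
    rw [List.mem_map] at hx
    obtain ⟨r, hr, rfl⟩ := hx
    exact if_neg (hτ r hr)

theorem zc_mem {p n : ℕ} {zl : List (ℕ × ℤ)} {σ : Finset (Fin n)} (h : zc p n zl σ ≠ 0) :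
    ∃ q ∈ zl, ms n q.1 = σ := by
  by_contra h'
  push Not at h'
  apply h
  unfold zc
  refine List.sum_eq_zero fun x hx => ?_
  rw [List.mem_map] at hx
  obtain ⟨r, hr, rfl⟩ := hx
  exact if_neg (h' r hr)

/-! ### The graph and its cliques -/

/-- the graph with the given rows -/
def GR (m : ℕ) (row : ℕ → ℕ) : SimpleGraph (Fin m) where
  Adj u w := u ≠ w ∧ (row u).testBit w = true ∧ (row w).testBit u = true
  symm := ⟨fun _ _ h => ⟨h.1.symm, h.2.2, h.2.1⟩⟩
  loopless := ⟨fun _ h => h.1 rfl⟩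

instance (m : ℕ) (row : ℕ → ℕ) : DecidableRel (GR m row).Adj := fun u w =>
  inferInstanceAs (Decidable (u ≠ w ∧ (row u).testBit w = true ∧ (row w).testBit u = true))

/-- `s ∪ T` belongs to the complex for all cliques `T` in `cand`; the function `t` tests the membership -/
def ck (m : ℕ) (row : ℕ → ℕ) (t : ℕ → Bool) : ℕ → ℕ → ℕ → Bool
  | 0, s, cand => bc (t s) (Nat.beq cand 0) false
  | n + 1, s, cand => bc (t s) ((List.range m).all fun j => bc (cand.testBit j)
      (ck m row t n (Nat.lor s (Nat.pow 2 j)) (Nat.land (Nat.land cand (row j)) (Nat.sub (Nat.pow 2 j) 1))) true) false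

theorem ms_zero (m : ℕ) : ms m 0 = ∅ := by
  ext i
  rw [mem_ms, Nat.zero_testBit]
  simp

theorem ms_pow {m : ℕ} (j : Fin m) : ms m (Nat.pow 2 j) = {j} := by
  ext i
  rw [mem_ms, Finset.mem_singleton]
  show (2 ^ (j : ℕ)).testBit i = true ↔ _
  rw [Nat.testBit_two_pow, decide_eq_true_iff]
  exact ⟨fun h => Fin.ext h.symm, fun h => by rw [h]⟩

theorem ck_spec {m : ℕ} {row : ℕ → ℕ} {t : ℕ → Bool} {X : Set (Finset (Fin m))}
    (ht : ∀ s, t s = true → ms m s ∈ X) (n : ℕ) : ∀ s cand, ck m row t n s cand = true →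
    ∀ T : Finset (Fin m), T ⊆ ms m cand → (GR m row).IsClique (T : Set (Fin m)) → ms m s ∪ T ∈ X := by
  induction n with
  | zero =>
    intro s cand h T hT _
    obtain ⟨h1, h2⟩ := cond_false' h
    rw [beq_iff.1 h2, ms_zero, Finset.subset_empty] at hT
    rw [hT, Finset.union_empty]
    exact ht _ h1
  | succ n ih =>
    intro s cand h T hT hcl
    obtain ⟨h1, h2⟩ := cond_false' h
    rcases T.eq_empty_or_nonempty with rfl | hne
    · rw [Finset.union_empty]
      exact ht _ h1
    · obtain ⟨v, hv⟩ : ∃ v, v = T.max' hne := ⟨_, rfl⟩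
      have hvT : v ∈ T := hv ▸ Finset.max'_mem T hne
      rw [List.all_eq_true] at h2
      have h3 := h2 v (List.mem_range.2 v.2)
      rw [mem_ms.1 (hT hvT)] at h3
      have h4 := ih _ _ h3 (T.erase v) ?_ ?_
      · rw [ms_or, ms_pow] at h4
        have e : ms m s ∪ {v} ∪ T.erase v = ms m s ∪ T := by
          ext u
          simp only [Finset.mem_union, Finset.mem_singleton, Finset.mem_erase]
          constructor
          · rintro ((h | h) | h)
            · exact Or.inl h
            · exact Or.inr (h ▸ hvT)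
            · exact Or.inr h.2
          · rintro (h | h)
            · exact Or.inl (Or.inl h)
            · by_cases e : u = v
              · exact Or.inl (Or.inr e)
              · exact Or.inr ⟨e, h⟩
        rw [e] at h4
        exact h4
      · intro u hu
        obtain ⟨h5, h6⟩ := Finset.mem_erase.1 hu
        have h7 : u < v := lt_of_le_of_ne (hv ▸ Finset.le_max' T u h6) h5
        have h8 := hcl hvT h6 (Ne.symm h5)
        rw [mem_ms]
        show ((cand &&& row v) &&& (2 ^ (v : ℕ) - 1)).testBit u = true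
        rw [Nat.testBit_and, Nat.testBit_and, mem_ms.1 (hT h6), h8.2.1, Nat.testBit_two_pow_sub_one,
          decide_eq_true_iff.2 (show (u : ℕ) < v from h7)]
        rfl
      · exact hcl.subset (Finset.coe_subset.2 (Finset.erase_subset _ _))

end Pool.Agent.H944.FS
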